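import Pool.Agent.H40.SD.StrandA

/-! # Multigraded strands of the Koszul complex of a monomial quotient: part B -/

set_option autoImplicit false

open MvPolynomial

namespace Pool.Agent.H40.SD

variable {V : Type} [Fintype V] [DecidableEq V]

theorem strand_of_kvan (J : Ideal (MvPolynomial V (ZMod 2))) (𝒥 : (V → ℕ) → Prop)
    (hJ : IsMono J 𝒥) (_hup : ∀ u v : V → ℕ, 𝒥 u → u ≤ v → 𝒥 v) (j : ℕ)
    (h : KVan (X : V → MvPolynomial V (ZMod 2)) (MvPolynomial V (ZMod 2) ⧸ J) j) (c : V → ℕ) :
    Van (fun τ => ¬ 𝒥 (addInd c τ)) j := by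
  classical
  intro f hf
  let w : Finset V → MvPolynomial V (ZMod 2) := fun τ => monomial (expo (addInd c τ)) (f τ)
  have hkl : ∀ σ, kl w σ = monomial (expo (addInd c σ)) (cb f σ) := by
    intro σ
    unfold kl cb
    rw [map_sum]
    refine Finset.sum_congr rfl fun v hv => ?_
    have h2 : Finsupp.single v 1 + expo (addInd c (σ.erase v)) = expo (addInd c σ) := by
      ext z
      simp only [Finsupp.coe_add, Pi.add_apply, expo_apply, addInd, Finset.mem_erase]
      by_cases hz : z = v
      · subst hz; simp [hv]; ring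
      · simp [hz, Finsupp.single_apply, Ne.symm hz]
    show X v * monomial (expo (addInd c (σ.erase v))) (f (σ.erase v)) = _
    rw [X, monomial_mul, one_mul, h2]
  obtain ⟨η, hη⟩ := h (fun σ => Ideal.Quotient.mk J (w σ)) (by
    intro σ hσ
    rw [← mk_kl J w _ (fun _ => rfl), Ideal.Quotient.eq_zero_iff_mem, hkl]
    refine mem_of_coeff hJ fun u hu => ?_
    rw [coeff_monomial]
    split_ifs with he
    · subst he
      exact hf σ hu hσ
    · rfl)
  choose e he using fun σ => Ideal.Quotient.mk_surjective (I := J) (η σ)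
  refine ⟨fstr e c ∅, fun σ hσ hcard => ?_⟩
  have h1 : w σ - kl e σ ∈ J := by
    rw [← Ideal.Quotient.eq, mk_kl J e η he]
    exact hη σ hcard
  have h2 := coeff_eq_zero_of_mem hJ h1 (expo (addInd c σ)) hσ
  rw [coeff_sub, sub_eq_zero] at h2
  have h3 := cb_fstr e c ∅ (by simp) σ (by simp)
  rw [Finset.empty_union] at h3
  rw [← h3, ← h2]
  show f σ = coeff (expo (addInd c σ)) (monomial (expo (addInd c σ)) (f σ))
  rw [coeff_monomial, if_pos rfl]

end Pool.Agent.H40.SD
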