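import Pool.Agent.H40.SD.StrandA
import Pool.Agent.H40.SD.StrandB

/-! # Multigraded strands of the Koszul complex of a monomial quotient

See `StrandA` (`IsMono`, `addInd`, `kvan_of_strands`) and `StrandB` (`strand_of_kvan`). -/
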