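import Pool.Agent.H40.SD.Top
import Pool.Agent.H40.SD.Strand

/-! # From the Čech type complexes to the Koszul type complexes -/

set_option autoImplicit false

namespace Pool.Agent.H40.SD

section Mayer

variable {α : Type*} [DecidableEq α]

omit [DecidableEq α] in
private theorem zmod2_add_self (a : ZMod 2) : a + a = 0 := CharTwo.add_self_eq_zero a

private theorem cb_addC (f g : Finset α → ZMod 2) (σ : Finset α) :
    cb (fun τ => f τ + g τ) σ = cb f σ + cb g σ := by
  simp only [cb, Finset.sum_add_distrib]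

private theorem cb_insertC (f : Finset α → ZMod 2) (v : α) (σ : Finset α) (hv : v ∉ σ) :
    cb f (insert v σ) = f σ + ∑ w ∈ σ, f (insert v (σ.erase w)) := by
  unfold cb
  rw [Finset.sum_insert hv, Finset.erase_insert hv]
  congr 1
  refine Finset.sum_congr rfl fun w hw => ?_
  have hwv : v ≠ w := fun h => hv (h ▸ hw)
  rw [Finset.erase_insert_of_ne hwv]

/-- Mayer–Vietoris type step. -/
theorem van_step (Δ X1 X2 : Finset α → Prop) (v : α) (j : ℕ)
    (hdel : ∀ σ, v ∉ σ → (Δ σ ↔ X1 σ))
    (hlk : ∀ σ, v ∉ σ → (Δ (insert v σ) ↔ X2 σ))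
    (h12 : ∀ σ, v ∉ σ → X2 (insert v σ) → X1 (insert v σ))
    (h21 : ∀ σ, v ∉ σ → X2 σ → X1 σ)
    (h1Δ : ∀ σ, X1 σ → Δ σ)
    (h1 : Van X1 j) (h2 : ∀ i, i + 1 = j → Van X2 i) : Van Δ j := by
  intro f hf
  obtain ⟨g, hg⟩ := h1 f (fun σ hσ hc => hf σ (h1Δ σ hσ) hc)
  rcases Nat.eq_zero_or_pos j with rfl | hj
  · refine ⟨g, fun σ hσ hc => hg σ ?_ hc⟩
    have : σ = ∅ := Finset.card_eq_zero.mp hc
    subst this
    exact (hdel ∅ (Finset.notMem_empty v)).mp hσ
  obtain ⟨i, rfl⟩ : ∃ i, j = i + 1 := ⟨j - 1, by omega⟩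
  -- the corrected cocycle
  set f' : Finset α → ZMod 2 := fun σ => f σ + cb g σ with hf'
  have hf'1 : ∀ σ, X1 σ → σ.card = i + 1 → f' σ = 0 := by
    intro σ hσ hc
    simp only [hf', hg σ hσ hc]
    exact zmod2_add_self _
  have hf'c : ∀ σ, Δ σ → σ.card = i + 1 + 1 → cb f' σ = 0 := by
    intro σ hσ hc
    rw [hf', cb_addC, hf σ hσ hc, cb_cb, add_zero]
  set h : Finset α → ZMod 2 := fun τ => if v ∈ τ then 0 else f' (insert v τ) with hh
  have hcoc : ∀ σ, X2 σ → σ.card = i + 1 → cb h σ = 0 := by
    intro σ hσ hc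
    by_cases hv : v ∈ σ
    · obtain ⟨τ, hvτ, rfl⟩ : ∃ τ, v ∉ τ ∧ insert v τ = σ :=
        ⟨σ.erase v, Finset.notMem_erase v σ, Finset.insert_erase hv⟩
      rw [cb_insertC h v τ hvτ]
      have h0 : ∀ w ∈ τ, h (insert v (τ.erase w)) = 0 := by
        intro w _
        simp [hh]
      rw [Finset.sum_eq_zero h0, add_zero]
      simp only [hh, if_neg hvτ]
      exact hf'1 _ (h12 τ hvτ hσ) hc
    · have h1' : cb f' (insert v σ) = 0 := by
        apply hf'c
        · exact (hlk σ hv).mpr hσ
        · rw [Finset.card_insert_of_notMem hv, hc]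
      rw [cb_insertC f' v σ hv, hf'1 σ (h21 σ hv hσ) hc, zero_add] at h1'
      rw [← h1']
      unfold cb
      refine Finset.sum_congr rfl fun w _ => ?_
      have : v ∉ σ.erase w := fun h' => hv (Finset.mem_of_mem_erase h')
      simp only [hh, if_neg this]
  obtain ⟨k, hk⟩ := h2 i rfl h hcoc
  set g' : Finset α → ZMod 2 := fun σ => if v ∈ σ then k (σ.erase v) else 0 with hg'
  refine ⟨fun σ => g σ + g' σ, fun σ hσ hc => ?_⟩
  have key : f' σ = cb g' σ := by
    by_cases hv : v ∈ σ
    · obtain ⟨τ, hvτ, rfl⟩ : ∃ τ, v ∉ τ ∧ insert v τ = σ :=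
        ⟨σ.erase v, Finset.notMem_erase v σ, Finset.insert_erase hv⟩
      have hτ2 : X2 τ := (hlk τ hvτ).mp hσ
      have hcτ : τ.card = i := by
        rw [Finset.card_insert_of_notMem hvτ] at hc
        omega
      have e1 : f' (insert v τ) = cb k τ := by
        have := hk τ hτ2 hcτ
        simpa only [hh, if_neg hvτ] using this
      rw [e1, cb_insertC g' v τ hvτ]
      have e2 : g' τ = 0 := by simp only [hg', if_neg hvτ]
      rw [e2, zero_add]
      unfold cb
      refine Finset.sum_congr rfl fun w _ => ?_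
      have : v ∉ τ.erase w := fun h' => hvτ (Finset.mem_of_mem_erase h')
      simp only [hg', Finset.mem_insert_self, if_true, Finset.erase_insert this]
    · rw [hf'1 σ ((hdel σ hv).mp hσ) hc]
      unfold cb
      symm
      refine Finset.sum_eq_zero fun w _ => ?_
      have : v ∉ σ.erase w := fun h' => hv (Finset.mem_of_mem_erase h')
      simp only [hg', if_neg this]
  rw [cb_addC, ← key]
  simp only [hf']
  rw [add_comm (f σ), ← add_assoc, zmod2_add_self, zero_add]

end Mayer

variable {V : Type} [Fintype V] [DecidableEq V]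

/-- The intermediate families. -/
private def mid (𝓕 : Finset V → Prop) (S : Finset V) (s : ℕ) (T : Finset V) (c : V → ℕ) :
    Finset V → Prop :=
  fun τ => Disjoint τ S ∧ ∃ F, 𝓕 F ∧ τ ∩ T ⊆ F ∧ cost (addInd c (τ \ T)) F < s

omit [Fintype V] in
private theorem addInd_le (c : V → ℕ) (ρ : Finset V) (v : V) : c v ≤ addInd c ρ v := by
  simp [addInd]

private theorem cost_le_of_le {c d : V → ℕ} {F : Finset V} (h : ∀ v, v ∉ F → c v ≤ d v) :
    cost c F ≤ cost d F := by
  unfold cost
  refine Finset.sum_le_sum fun v hv => h v ?_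
  simpa using hv

private theorem mid_acyc (𝓕 : Finset V → Prop) (S : Finset V) (s r : ℕ)
    (h : ∀ c : V → ℕ, (∀ v ∈ S, c v = 0) →
      Acyc (fun τ => Disjoint τ S ∧ ∃ F, 𝓕 F ∧ τ ⊆ F ∧ cost c F < s) r) (m : ℕ) :
    ∀ T : Finset V, (Finset.univ \ T).card = m → ∀ c : V → ℕ, (∀ v ∈ S, c v = 0) →
      Acyc (mid 𝓕 S s T c) r := by
  induction m with
  | zero =>
    intro T hT c hc j hj
    have hTu : T = Finset.univ := by
      have := Finset.card_eq_zero.mp hT
      exact Finset.eq_univ_iff_forall.mpr fun x => by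
        by_contra hx
        have : x ∈ Finset.univ \ T := by simp [hx]
        simp_all
    subst hTu
    refine van_congr (fun τ => ?_) (h c hc j hj)
    have e : addInd c (τ \ Finset.univ) = c := by
      funext v
      simp [addInd]
    simp only [mid, Finset.inter_univ, e]
  | succ m ih =>
    intro T hT c hc
    obtain ⟨v, hv⟩ : ∃ v, v ∈ Finset.univ \ T := by
      apply Finset.card_pos.mp
      omega
    have hvT : v ∉ T := by simpa using hv
    have hcard : (Finset.univ \ insert v T).card = m := by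
      have e : Finset.univ \ insert v T = (Finset.univ \ T).erase v := by
        ext x
        simp only [Finset.mem_sdiff, Finset.mem_univ, Finset.mem_insert, true_and,
          Finset.mem_erase, not_or]
      rw [e, Finset.card_erase_of_mem hv, hT]
      rfl
    by_cases hvS : v ∈ S
    · intro j hj
      refine van_congr (fun τ => ?_) (ih (insert v T) hcard c hc j hj)
      unfold mid
      refine and_congr_right fun hd => ?_
      have hvτ : v ∉ τ := fun h' => (Finset.disjoint_left.mp hd) h' hvS
      have e1 : τ ∩ insert v T = τ ∩ T := by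
        ext x
        simp only [Finset.mem_inter, Finset.mem_insert]
        constructor
        · rintro ⟨hx, rfl | hx'⟩
          · exact absurd hx hvτ
          · exact ⟨hx, hx'⟩
        · rintro ⟨hx, hx'⟩
          exact ⟨hx, Or.inr hx'⟩
      have e2 : τ \ insert v T = τ \ T := by
        ext x
        simp only [Finset.mem_sdiff, Finset.mem_insert, not_or]
        constructor
        · rintro ⟨hx, _, hx'⟩
          exact ⟨hx, hx'⟩
        · rintro ⟨hx, hx'⟩
          exact ⟨hx, fun h' => hvτ (h' ▸ hx), hx'⟩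
      rw [e1, e2]
    · -- the main step
      have hc2 : ∀ w ∈ S, addInd c {v} w = 0 := by
        intro w hw
        have : w ≠ v := fun h' => hvS (h' ▸ hw)
        simp [addInd, hc w hw, this]
      have A1 := ih (insert v T) hcard c hc
      have A2 := ih (insert v T) hcard (addInd c {v}) hc2
      have e1 : ∀ τ : Finset V, v ∉ τ → τ ∩ insert v T = τ ∩ T := by
        intro τ hvτ
        ext x
        simp only [Finset.mem_inter, Finset.mem_insert]
        constructor
        · rintro ⟨hx, rfl | hx'⟩
          · exact absurd hx hvτ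
          · exact ⟨hx, hx'⟩
        · rintro ⟨hx, hx'⟩
          exact ⟨hx, Or.inr hx'⟩
      have e2 : ∀ τ : Finset V, v ∉ τ → τ \ insert v T = τ \ T := by
        intro τ hvτ
        ext x
        simp only [Finset.mem_sdiff, Finset.mem_insert, not_or]
        constructor
        · rintro ⟨hx, _, hx'⟩
          exact ⟨hx, hx'⟩
        · rintro ⟨hx, hx'⟩
          exact ⟨hx, fun h' => hvτ (h' ▸ hx), hx'⟩
      intro j hj
      refine van_step (mid 𝓕 S s T c) (mid 𝓕 S s (insert v T) c)
        (mid 𝓕 S s (insert v T) (addInd c {v})) v j ?_ ?_ ?_ ?_ ?_ (A1 j hj)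
        (fun i hi => A2 i (by omega))
      · intro σ hσ
        simp only [mid, e1 σ hσ, e2 σ hσ]
      · intro σ hσ
        simp only [mid, e1 σ hσ, e2 σ hσ]
        have d1 : Disjoint (insert v σ) S ↔ Disjoint σ S := by
          rw [Finset.disjoint_insert_left]
          exact ⟨fun h' => h'.2, fun h' => ⟨hvS, h'⟩⟩
        have d2 : insert v σ ∩ T = σ ∩ T := Finset.insert_inter_of_notMem hvT
        have d3 : addInd c (insert v σ \ T) = addInd (addInd c {v}) (σ \ T) := by
          funext x
          simp only [addInd, Finset.mem_sdiff, Finset.mem_insert, Finset.mem_singleton]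
          by_cases hx : x = v
          · subst hx
            simp [hσ, hvT]
          · simp [hx]
        rw [d1, d2, d3]
      · rintro σ hσ ⟨hd, F, hF, hsub, hcost⟩
        refine ⟨hd, F, hF, hsub, lt_of_le_of_lt ?_ hcost⟩
        refine cost_le_of_le fun x _ => ?_
        simp only [addInd]
        split_ifs <;> omega
      · rintro σ hσ ⟨hd, F, hF, hsub, hcost⟩
        refine ⟨hd, F, hF, hsub, lt_of_le_of_lt ?_ hcost⟩
        refine cost_le_of_le fun x _ => ?_
        simp only [addInd]
        split_ifs <;> omega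
      · rintro σ ⟨hd, F, hF, hsub, hcost⟩
        refine ⟨hd, F, hF, ?_, lt_of_le_of_lt ?_ hcost⟩
        · refine Finset.Subset.trans ?_ hsub
          exact Finset.inter_subset_inter_left (Finset.subset_insert v T)
        · refine cost_le_of_le fun x hx => ?_
          simp only [addInd, Finset.mem_sdiff, Finset.mem_insert, not_or]
          by_cases hxv : x = v
          · subst hxv
            have hvσ : x ∉ σ := by
              intro h'
              exact hx (hsub (Finset.mem_inter.mpr ⟨h', Finset.mem_insert_self x T⟩))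
            simp [hvσ]
          · simp [hxv]

theorem koszul_of_cech (𝓕 : Finset V → Prop) (S : Finset V) (s r : ℕ)
    (h : ∀ c : V → ℕ, (∀ v ∈ S, c v = 0) →
      Acyc (fun τ => Disjoint τ S ∧ ∃ F, 𝓕 F ∧ τ ⊆ F ∧ cost c F < s) r)
    (c : V → ℕ) (hc : ∀ v ∈ S, c v = 0) :
    Acyc (fun τ => Disjoint τ S ∧ ∃ F, 𝓕 F ∧ cost (addInd c τ) F < s) r := by
  intro j hj
  refine van_congr (fun τ => ?_) (mid_acyc 𝓕 S s r h _ ∅ rfl c hc j hj)
  simp only [mid, Finset.inter_empty, Finset.sdiff_empty, Finset.empty_subset, true_and]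

end Pool.Agent.H40.SD
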