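import Pool.Agent.H40.SD.Defs

/-! # Symbolic powers of edge ideals -/

set_option autoImplicit false

open MvPolynomial

namespace Pool.Agent.H40.SD

variable {V : Type} [Fintype V] [DecidableEq V]

/-- the ideal generated by the variables in `C` -/
noncomputable def PC (C : Set V) : Ideal (MvPolynomial V (ZMod 2)) :=
  Ideal.span (X '' C)

open Classical in
/-- the substitution killing the variables in `C` -/
noncomputable def phiC (C : Set V) : MvPolynomial V (ZMod 2) →ₐ[ZMod 2] MvPolynomial V (ZMod 2) :=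
  aeval (fun v => if v ∈ C then 0 else X v)

omit [Fintype V] [DecidableEq V] in
theorem sub_phiC_mem (C : Set V) (f : MvPolynomial V (ZMod 2)) : f - phiC C f ∈ PC C := by
  classical
  induction f using MvPolynomial.induction_on with
  | C a => simp [phiC]
  | add p q hp hq =>
    have : p + q - phiC C (p + q) = (p - phiC C p) + (q - phiC C q) := by
      rw [map_add]; ring
    rw [this]
    exact Ideal.add_mem _ hp hq
  | mul_X p v hp =>
    rw [map_mul]
    by_cases hv : v ∈ C
    · have h1 : phiC C (X v) = 0 := by simp [phiC, hv]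
      rw [h1, mul_zero, sub_zero]
      exact Ideal.mul_mem_left _ _ (Ideal.subset_span ⟨v, hv, rfl⟩)
    · have h1 : phiC C (X v) = X v := by simp [phiC, hv]
      rw [h1, ← sub_mul]
      exact Ideal.mul_mem_right _ _ hp

omit [Fintype V] [DecidableEq V] in
theorem PC_eq_ker (C : Set V) : PC C = RingHom.ker (phiC C) := by
  classical
  apply le_antisymm
  · unfold PC
    rw [Ideal.span_le]
    rintro _ ⟨v, hv, rfl⟩
    simp [RingHom.mem_ker, phiC, hv]
  · intro f hf
    have h := sub_phiC_mem C f
    rw [RingHom.mem_ker] at hf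
    rw [hf, sub_zero] at h
    exact h

omit [Fintype V] [DecidableEq V] in
theorem PC_isPrime (C : Set V) : (PC C).IsPrime := by
  rw [PC_eq_ker]
  exact RingHom.ker_isPrime _

/-- the exponents of the generators of the power of `PC C` -/
def expoS (C : Set V) : ℕ → Set (V →₀ ℕ)
  | 0 => {0}
  | s + 1 => {a | ∃ b ∈ expoS C s, ∃ v ∈ C, a = b + Finsupp.single v 1}

omit [Fintype V] [DecidableEq V] in
theorem PC_pow (C : Set V) (s : ℕ) :
    PC C ^ s = Ideal.span ((fun u => monomial u (1 : ZMod 2)) '' expoS C s) := by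
  induction s with
  | zero => simp [expoS]
  | succ s ih =>
    rw [pow_succ, ih]
    unfold PC
    rw [Ideal.span_mul_span']
    congr 1
    ext f
    constructor
    · rintro ⟨_, ⟨b, hb, rfl⟩, _, ⟨v, hv, rfl⟩, rfl⟩
      refine ⟨b + Finsupp.single v 1, ⟨b, hb, v, hv, rfl⟩, ?_⟩
      simp [X, monomial_mul]
    · rintro ⟨_, ⟨b, hb, v, hv, rfl⟩, rfl⟩
      refine ⟨_, ⟨b, hb, rfl⟩, _, ⟨v, hv, rfl⟩, ?_⟩
      simp [X, monomial_mul]

theorem exists_expo_le (C : Finset V) (s : ℕ) (u : V →₀ ℕ) :
    (∃ a ∈ expoS (C : Set V) s, a ≤ u) ↔ s ≤ ∑ v ∈ C, u v := by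
  induction s generalizing u with
  | zero => simp [expoS]
  | succ s ih =>
    constructor
    · rintro ⟨_, ⟨b, hb, v, hv, rfl⟩, hle⟩
      have hv1 : 1 ≤ u v := by
        have := hle v
        simp at this
        omega
      have hbu : b ≤ u - Finsupp.single v 1 := by
        intro w
        have := hle w
        simp only [Finsupp.coe_add, Pi.add_apply] at this
        simp only [Finsupp.coe_tsub, Pi.sub_apply]
        omega
      have h1 := (ih (u - Finsupp.single v 1)).mp ⟨b, hb, hbu⟩
      have hvC : v ∈ C := by simpa using hv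
      rw [← Finset.add_sum_erase C _ hvC] at h1 ⊢
      have h2 : ∑ w ∈ C.erase v, (u - Finsupp.single v 1 : V →₀ ℕ) w = ∑ w ∈ C.erase v, u w := by
        apply Finset.sum_congr rfl
        intro w hw
        have hne : v ≠ w := fun h => (Finset.mem_erase.mp hw).1 h.symm
        simp [hne]
      rw [h2] at h1
      simp at h1
      omega
    · intro h
      have hpos : 0 < ∑ v ∈ C, u v := by omega
      obtain ⟨v, hvC, hv0⟩ := Finset.exists_ne_zero_of_sum_ne_zero hpos.ne'
      have h2 : ∑ w ∈ C, (u - Finsupp.single v 1 : V →₀ ℕ) w + 1 = ∑ w ∈ C, u w := by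
        rw [← Finset.add_sum_erase C _ hvC, ← Finset.add_sum_erase C (fun w => u w) hvC]
        have h3 : ∑ w ∈ C.erase v, (u - Finsupp.single v 1 : V →₀ ℕ) w = ∑ w ∈ C.erase v, u w := by
          apply Finset.sum_congr rfl
          intro w hw
          have hne : v ≠ w := fun h => (Finset.mem_erase.mp hw).1 h.symm
          simp [hne]
        rw [h3]
        simp
        omega
      obtain ⟨b, hb, hbu⟩ := (ih (u - Finsupp.single v 1)).mpr (by omega)
      refine ⟨b + Finsupp.single v 1, ⟨b, hb, v, by simpa using hvC, rfl⟩, ?_⟩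
      intro w
      have := hbu w
      simp only [Finsupp.coe_tsub, Pi.sub_apply] at this
      simp only [Finsupp.coe_add, Pi.add_apply]
      by_cases hvw : v = w
      · subst hvw
        simp at this ⊢
        omega
      · simp [hvw] at this ⊢
        omega

theorem mem_PC_pow (C : Finset V) (s : ℕ) (f : MvPolynomial V (ZMod 2)) :
    f ∈ PC (C : Set V) ^ s ↔ ∀ u ∈ f.support, s ≤ ∑ v ∈ C, u v := by
  rw [PC_pow, mem_ideal_span_monomial_image]
  exact forall₂_congr fun u _ => exists_expo_le C s u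

theorem mem_sympow (G : SimpleGraph V) (s : ℕ) (f : MvPolynomial V (ZMod 2)) :
    f ∈ sympow (ZMod 2) G s ↔
      ∀ u ∈ f.support, ∀ F : Finset V, Indep G F → s ≤ cost (fun v => u v) F := by
  classical
  unfold sympow
  simp only [Submodule.mem_iInf]
  constructor
  · intro h u hu F hF
    have hle : Ideal.span {f : MvPolynomial V (ZMod 2) | ∃ i j, G.Adj i j ∧ f = X i * X j} ≤
        PC ((Finset.univ \ F : Finset V) : Set V) := by
      rw [Ideal.span_le]
      rintro _ ⟨i, j, hij, rfl⟩
      by_cases hi : i ∈ F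
      · have hj : j ∉ F := fun hj => hF hi hj hij
        exact Ideal.mul_mem_left _ _ (Ideal.subset_span ⟨j, by simp [hj], rfl⟩)
      · exact Ideal.mul_mem_right _ _ (Ideal.subset_span ⟨i, by simp [hi], rfl⟩)
    have := PC_isPrime ((Finset.univ \ F : Finset V) : Set V)
    obtain ⟨P, hP, hPle⟩ := Ideal.exists_minimalPrimes_le hle
    have h1 := h P hP
    have h2 := Ideal.pow_right_mono hPle s h1
    exact (mem_PC_pow _ s f).mp h2 u hu
  · intro h P hP
    have hPp : P.IsPrime := hP.1.1
    have hIP : Ideal.span {f : MvPolynomial V (ZMod 2) | ∃ i j, G.Adj i j ∧ f = X i * X j} ≤ P :=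
      hP.1.2
    set C : Finset V := Finset.univ.filter (fun v => (X v : MvPolynomial V (ZMod 2)) ∈ P) with hC
    have hCP : PC (C : Set V) ≤ P := by
      unfold PC
      rw [Ideal.span_le]
      rintro _ ⟨v, hv, rfl⟩
      have : v ∈ C := hv
      rw [hC, Finset.mem_filter] at this
      exact this.2
    have hadj : ∀ i j, G.Adj i j → i ∈ C ∨ j ∈ C := by
      intro i j hij
      have h1 : (X i * X j : MvPolynomial V (ZMod 2)) ∈ P := hIP (Ideal.subset_span ⟨i, j, hij, rfl⟩)
      rcases hPp.mem_or_mem h1 with h2 | h2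
      · left
        rw [hC, Finset.mem_filter]
        exact ⟨Finset.mem_univ _, h2⟩
      · right
        rw [hC, Finset.mem_filter]
        exact ⟨Finset.mem_univ _, h2⟩
    have hle : Ideal.span {f : MvPolynomial V (ZMod 2) | ∃ i j, G.Adj i j ∧ f = X i * X j} ≤
        PC (C : Set V) := by
      rw [Ideal.span_le]
      rintro _ ⟨i, j, hij, rfl⟩
      rcases hadj i j hij with h1 | h1
      · exact Ideal.mul_mem_right _ _ (Ideal.subset_span ⟨i, h1, rfl⟩)
      · exact Ideal.mul_mem_left _ _ (Ideal.subset_span ⟨j, h1, rfl⟩)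
    have hPC : P ≤ PC (C : Set V) := hP.2 ⟨PC_isPrime _, hle⟩ hCP
    have heq : P = PC (C : Set V) := le_antisymm hPC hCP
    rw [heq, mem_PC_pow]
    intro u hu
    have hF : Indep G (Finset.univ \ C) := by
      intro i hi j hj hij
      rcases hadj i j hij with h1 | h1
      · simp [h1] at hi
      · simp [h1] at hj
    have h1 := h u hu _ hF
    unfold cost at h1
    simpa using h1

theorem sympow_smul_ne_top (G : SimpleGraph V) (s : ℕ) (hs : 1 ≤ s) :
    (Ideal.span (Set.range (X : V → MvPolynomial V (ZMod 2)))) •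
      (⊤ : Submodule (MvPolynomial V (ZMod 2))
        (MvPolynomial V (ZMod 2) ⧸ sympow (ZMod 2) G s)) ≠ ⊤ := by
  classical
  intro htop
  set 𝔪 : Ideal (MvPolynomial V (ZMod 2)) := Ideal.span (Set.range X) with hm
  have hmPC : 𝔪 = PC (Set.univ : Set V) := by
    rw [hm]
    unfold PC
    rw [Set.image_univ]
  have hmp : 𝔪.IsPrime := by
    rw [hmPC]
    exact PC_isPrime _
  have hJm : sympow (ZMod 2) G s ≤ 𝔪 := by
    intro f hf
    rw [mem_sympow] at hf
    have h1 : f ∈ PC ((Finset.univ : Finset V) : Set V) ^ 1 := by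
      rw [mem_PC_pow]
      intro u hu
      have h2 := hf u hu ∅ (fun v hv => by simp at hv)
      unfold cost at h2
      simp at h2
      omega
    rw [pow_one] at h1
    rw [hmPC]
    simpa using h1
  let g : (MvPolynomial V (ZMod 2) ⧸ sympow (ZMod 2) G s) →ₗ[MvPolynomial V (ZMod 2)]
      (MvPolynomial V (ZMod 2) ⧸ 𝔪) := Submodule.mapQ _ _ LinearMap.id hJm
  have hg : ∀ x ∈ 𝔪 • (⊤ : Submodule (MvPolynomial V (ZMod 2))
      (MvPolynomial V (ZMod 2) ⧸ sympow (ZMod 2) G s)), g x = 0 := by
    intro x hx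
    refine Submodule.smul_induction_on hx ?_ ?_
    · intro r hr n _
      rw [map_smul]
      obtain ⟨y, hy⟩ := Ideal.Quotient.mk_surjective (g n)
      rw [← hy]
      change Ideal.Quotient.mk 𝔪 (r * y) = 0
      rw [Ideal.Quotient.eq_zero_iff_mem]
      exact Ideal.mul_mem_right _ _ hr
    · intro a b ha hb
      rw [map_add, ha, hb, add_zero]
  have h1 := hg (Submodule.Quotient.mk 1) (by rw [htop]; trivial)
  have h2 : g (Submodule.Quotient.mk 1) = Submodule.Quotient.mk 1 := rfl
  rw [h2] at h1
  have h3 : (1 : MvPolynomial V (ZMod 2)) ∈ 𝔪 := (Submodule.Quotient.mk_eq_zero _).mp h1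
  exact hmp.ne_top ((Ideal.eq_top_iff_one _).mpr h3)

end Pool.Agent.H40.SD
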