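import Pool.Agent.H40.SD.Top

/-! # Pull-back of a complex under a surjection of vertex sets -/

set_option autoImplicit false

namespace Pool.Agent.H40.SD

variable {V W : Type} [Fintype V] [DecidableEq V] [Fintype W] [DecidableEq W]

omit [Fintype V] [Fintype W] in
theorem cb_map (s : W ↪ V) (h : Finset V → ZMod 2) (ρ : Finset W) :
    cb (fun ρ' => h (ρ'.map s)) ρ = cb h (ρ.map s) := by
  unfold cb
  rw [Finset.sum_map]
  refine Finset.sum_congr rfl fun w _ => ?_
  change h ((ρ.erase w).map s) = _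
  rw [Finset.map_erase]

omit [Fintype V] [Fintype W] in
theorem image_map_section {π : V → W} {s : W ↪ V} (hs : ∀ w, π (s w) = w) (ρ : Finset W) :
    (ρ.map s).image π = ρ := by
  ext w
  simp only [Finset.mem_image, Finset.mem_map]
  constructor
  · rintro ⟨_, ⟨w', hw', rfl⟩, rfl⟩
    rwa [hs]
  · intro hw
    exact ⟨s w, ⟨w, hw, rfl⟩, hs w⟩

omit [Fintype V] [Fintype W] in
theorem van_map (Δ : Finset W → Prop) (π : V → W) (s : W ↪ V) (hs : ∀ w, π (s w) = w) (j : ℕ) :
    Van (fun σ : Finset V => ∃ ρ, σ = ρ.map s ∧ Δ ρ) j ↔ Van Δ j := by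
  have him := image_map_section hs
  have hcb : ∀ (g : Finset W → ZMod 2) (ρ : Finset W),
      cb (fun σ : Finset V => g (σ.image π)) (ρ.map s) = cb g ρ := by
    intro g ρ
    rw [← cb_map]
    simp only [him]
  constructor
  · intro h f hf
    obtain ⟨G, hG⟩ := h (fun σ => f (σ.image π)) (by
      rintro _ ⟨ρ, rfl, hρ⟩ hc
      rw [hcb]
      exact hf ρ hρ (by rwa [Finset.card_map] at hc))
    refine ⟨fun ρ => G (ρ.map s), fun ρ hρ hc => ?_⟩
    rw [cb_map, ← hG (ρ.map s) ⟨ρ, rfl, hρ⟩ (by rwa [Finset.card_map]), him]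
  · intro h F hF
    obtain ⟨g, hg⟩ := h (fun ρ => F (ρ.map s)) (by
      intro ρ hρ hc
      rw [cb_map]
      exact hF _ ⟨ρ, rfl, hρ⟩ (by rwa [Finset.card_map]))
    refine ⟨fun σ => g (σ.image π), ?_⟩
    rintro _ ⟨ρ, rfl, hρ⟩ hc
    rw [hcb, ← hg ρ hρ (by rwa [Finset.card_map] at hc)]

omit [Fintype W] in
theorem van_pullback (Δ : Finset W → Prop) (hΔ : IsDown Δ) (π : V → W) (S : Finset V)
    (hπ : ∀ w, ∃ v, v ∉ S ∧ π v = w) (j : ℕ) :
    Van (fun τ : Finset V => Disjoint τ S ∧ Δ (τ.image π)) j ↔ Van Δ j := by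
  classical
  choose s hsS hs using hπ
  have hinj : Function.Injective s := fun a b h => by rw [← hs a, ← hs b, h]
  let s' : W ↪ V := ⟨s, hinj⟩
  have hs' : ∀ w, π (s' w) = w := hs
  let T : Finset V := Finset.univ.filter (fun v => s (π v) ≠ v)
  have hT : ∀ v, v ∉ T ↔ s (π v) = v := by
    intro v
    simp [T]
  have hdown : IsDown (fun τ : Finset V => Disjoint τ S ∧ Δ (τ.image π)) := by
    intro σ τ hστ h
    exact ⟨Finset.disjoint_of_subset_left hστ h.1, hΔ (Finset.image_subset_image hστ) h.2⟩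
  have hdom : ∀ v ∈ T, ∃ w' ∉ T, ∀ σ : Finset V, v ∈ σ → (Disjoint σ S ∧ Δ (σ.image π)) →
      (Disjoint (insert w' σ) S ∧ Δ ((insert w' σ).image π)) := by
    intro v _
    refine ⟨s (π v), (hT _).2 (by rw [hs]), ?_⟩
    intro σ hvσ h
    refine ⟨?_, ?_⟩
    · rw [Finset.disjoint_insert_left]
      exact ⟨hsS _, h.1⟩
    · rw [Finset.image_insert, hs, Finset.insert_eq_of_mem (Finset.mem_image_of_mem π hvσ)]
      exact h.2
  have key : ∀ σ : Finset V, fib (fun τ : Finset V => Disjoint τ S ∧ Δ (τ.image π)) T ∅ σ ↔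
      ∃ ρ, σ = ρ.map s' ∧ Δ ρ := by
    intro σ
    simp only [fib, Finset.empty_union]
    constructor
    · rintro ⟨h1, _, h3⟩
      refine ⟨σ.image π, ?_, h3⟩
      have h4 : ∀ v ∈ σ, s (π v) = v := fun v hv => (hT v).1 (Finset.disjoint_left.1 h1 hv)
      ext v
      simp only [Finset.mem_map, Finset.mem_image]
      constructor
      · intro hv
        exact ⟨π v, ⟨v, hv, rfl⟩, h4 v hv⟩
      · rintro ⟨_, ⟨v', hv', rfl⟩, rfl⟩
        change s (π v') ∈ σ
        rwa [h4 v' hv']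
    · rintro ⟨ρ, rfl, hρ⟩
      refine ⟨?_, ?_, by rwa [image_map_section hs']⟩
      · rw [Finset.disjoint_left]
        intro v hv
        obtain ⟨w, _, rfl⟩ := Finset.mem_map.1 hv
        exact (hT _).2 (congrArg s (hs w))
      · rw [Finset.disjoint_left]
        intro v hv
        obtain ⟨w, _, rfl⟩ := Finset.mem_map.1 hv
        exact hsS w
  rw [van_iff_fib_of_dom hdown T hdom j, ← van_map Δ π s' hs' j]
  exact ⟨fun h => van_congr key h, fun h => van_congr (fun σ => (key σ).symm) h⟩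

end Pool.Agent.H40.SD
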