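import Pool.Agent.H40.SD.Koszul
import Pool.Agent.H40.SD.Strand
import Pool.Agent.H40.SD.Symb
import Pool.Agent.H40.SD.Cech
import Pool.Agent.H40.SD.Twin

/-! # The combinatorial criterion -/

set_option autoImplicit false

open MvPolynomial

namespace Pool.Agent.H40.SD

/-- The complex `K_{c,s}(G)`. -/
def KK {W : Type} [Fintype W] [DecidableEq W] (G : SimpleGraph W) (c : W → ℕ) (s : ℕ) :
    Finset W → Prop := fun T => ∃ F, Indep G F ∧ T ⊆ F ∧ cost c F < s

/-- The frozen statement S00387 (its negation is the target). -/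
def Monotone387 : Prop :=
    ∀ (K : Type) [Field K] (n : ℕ) (G : SimpleGraph (Fin n)) (t k : ℕ), 1 ≤ t →
      (∃ rs : List (MvPolynomial (Fin n) K),
        (∀ r ∈ rs, r ∈ Ideal.span (Set.range (X : Fin n → MvPolynomial (Fin n) K))) ∧
        rs.length = k ∧
        RingTheory.Sequence.IsRegular
          (MvPolynomial (Fin n) K ⧸
            (⨅ P ∈ (Ideal.span {f : MvPolynomial (Fin n) K |
                ∃ i j, G.Adj i j ∧ f = X i * X j}).minimalPrimes, P ^ (t + 1))) rs) →
      (∃ rs : List (MvPolynomial (Fin n) K),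
        (∀ r ∈ rs, r ∈ Ideal.span (Set.range (X : Fin n → MvPolynomial (Fin n) K))) ∧
        rs.length = k ∧
        RingTheory.Sequence.IsRegular
          (MvPolynomial (Fin n) K ⧸
            (⨅ P ∈ (Ideal.span {f : MvPolynomial (Fin n) K |
                ∃ i j, G.Adj i j ∧ f = X i * X j}).minimalPrimes, P ^ t)) rs)

section Fibre

variable {V W : Type} [Fintype V] [DecidableEq V] [Fintype W] [DecidableEq W]

/-- push-forward of a weight -/
def push (π : V → W) (c : V → ℕ) : W → ℕ :=
  fun w => ∑ v ∈ Finset.univ.filter (fun v => π v = w), c v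

theorem cost_push (π : V → W) (c : V → ℕ) (F : Finset W) :
    cost (push π c) F = cost c (Finset.univ.filter fun v => π v ∈ F) := by
  unfold cost push
  have h := Finset.sum_fiberwise_of_maps_to
    (s := Finset.univ \ Finset.univ.filter (fun v => π v ∈ F)) (t := Finset.univ \ F)
    (g := π) (f := c) (by
      intro v hv
      simpa using hv)
  rw [← h]
  refine Finset.sum_congr rfl fun w hw => ?_
  refine Finset.sum_congr ?_ fun _ _ => rfl
  ext v
  simp only [Finset.mem_filter, Finset.mem_univ, true_and, Finset.mem_sdiff] at hw ⊢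
  constructor
  · intro h; exact ⟨by rwa [h], h⟩
  · exact fun h => h.2

theorem cost_anti (c : V → ℕ) {F F' : Finset V} (h : F ⊆ F') : cost c F' ≤ cost c F :=
  Finset.sum_le_sum_of_subset (Finset.sdiff_subset_sdiff (Finset.Subset.refl _) h)

theorem cost_mono {c c' : V → ℕ} (h : c ≤ c') (F : Finset V) : cost c F ≤ cost c' F :=
  Finset.sum_le_sum fun v _ => h v

theorem KK_comap (G : SimpleGraph W) (π : V → W) (c : V → ℕ) (s : ℕ) (τ : Finset V) :
    (∃ F, Indep (G.comap π) F ∧ τ ⊆ F ∧ cost c F < s) ↔ KK G (push π c) s (τ.image π) := by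
  constructor
  · rintro ⟨F, hF, hτ, hc⟩
    refine ⟨F.image π, ?_, Finset.image_subset_image hτ, ?_⟩
    · intro v hv w hw hvw
      obtain ⟨v', hv', rfl⟩ := Finset.mem_image.1 hv
      obtain ⟨w', hw', rfl⟩ := Finset.mem_image.1 hw
      exact hF hv' hw' hvw
    · rw [cost_push]
      refine lt_of_le_of_lt (cost_anti c ?_) hc
      intro v hv
      simp only [Finset.mem_filter, Finset.mem_univ, true_and]
      exact Finset.mem_image_of_mem π hv
  · rintro ⟨F, hF, hτ, hc⟩
    refine ⟨Finset.univ.filter fun v => π v ∈ F, ?_, ?_, ?_⟩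
    · intro v hv w hw hvw
      simp only [Finset.mem_filter, Finset.mem_univ, true_and] at hv hw
      exact hF hv hw hvw
    · intro v hv
      simp only [Finset.mem_filter, Finset.mem_univ, true_and]
      exact hτ (Finset.mem_image_of_mem π hv)
    · rwa [← cost_push]

theorem cost_addInd (c : V → ℕ) (τ F : Finset V) :
    cost (addInd c τ) F = cost c F + (τ \ F).card := by
  unfold cost addInd
  rw [Finset.sum_add_distrib]
  congr 1
  rw [← Finset.sum_filter, Finset.sum_const, smul_eq_mul, mul_one]
  congr 1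
  ext v
  simp only [Finset.mem_filter, Finset.mem_univ, true_and, Finset.mem_sdiff]
  exact and_comm

theorem isDown_KK (G : SimpleGraph W) (c : W → ℕ) (s : ℕ) : IsDown (KK G c s) := by
  rintro σ τ h ⟨F, hF, hτ, hc⟩
  exact ⟨F, hF, h.trans hτ, hc⟩

end Fibre

theorem van_iff_congr {α : Type*} [DecidableEq α] {Δ Δ' : Finset α → Prop} (h : ∀ σ, Δ σ ↔ Δ' σ)
    (j : ℕ) : Van Δ j ↔ Van Δ' j := by
  have : Δ = Δ' := funext fun σ => propext (h σ)
  rw [this]

/-- the monomials of the symbolic power -/
def symMon {V : Type} [Fintype V] [DecidableEq V] (G : SimpleGraph V) (s : ℕ) (u : V → ℕ) : Prop :=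
  ∀ F : Finset V, Indep G F → s ≤ cost u F

theorem symMon_up {V : Type} [Fintype V] [DecidableEq V] (G : SimpleGraph V) (s : ℕ) :
    ∀ u v : V → ℕ, symMon G s u → u ≤ v → symMon G s v :=
  fun _ _ hu huv F hF => (hu F hF).trans (cost_mono huv F)

theorem not_symMon {V : Type} [Fintype V] [DecidableEq V] (G : SimpleGraph V) (s : ℕ)
    (u : V → ℕ) : ¬ symMon G s u ↔ ∃ F, Indep G F ∧ cost u F < s := by
  unfold symMon
  push Not
  rfl

theorem not_monotone_of_KK (W : Type) [Fintype W] [DecidableEq W] (G : SimpleGraph W)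
    (t q : ℕ) (ht : 1 ≤ t) (hq : 1 ≤ q) (a : W → ℕ)
    (ha : ∀ F, Indep G F → t ≤ cost a F + 1)
    (hneg : ¬ Van (KK G a t) (q - 1))
    (hpos : ∀ c : W → ℕ, Acyc (KK G c (t + 1)) q) : ¬ Monotone387 := by
  intro hM
  set m : ℕ := Fintype.card (W × Fin q) with hm
  let e : Fin m ≃ W × Fin q := (Fintype.equivFin (W × Fin q)).symm
  let π : Fin m → W := fun v => (e v).1
  let G' : SimpleGraph (Fin m) := G.comap π
  have h2 : (2 : MvPolynomial (Fin m) (ZMod 2)) = 0 := by
    have : ((2 : ZMod 2)) = 0 := by decide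
    calc (2 : MvPolynomial (Fin m) (ZMod 2)) = C (2 : ZMod 2) := (map_ofNat C 2).symm
      _ = 0 := by rw [this, C_0]
  -- the positive part
  have hA : ∃ rs : List (MvPolynomial (Fin m) (ZMod 2)),
      (∀ r ∈ rs, r ∈ Ideal.span (Set.range (X : Fin m → MvPolynomial (Fin m) (ZMod 2)))) ∧
      rs.length = q ∧
      RingTheory.Sequence.IsRegular
        (MvPolynomial (Fin m) (ZMod 2) ⧸ sympow (ZMod 2) G' (t + 1)) rs := by
    refine exists_isRegular_of_kvan h2 X (sympow_smul_ne_top G' (t + 1) (by omega)) q ?_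
    intro i hi
    refine kvan_of_strands _ (symMon G' (t + 1)) (mem_sympow G' (t + 1))
      (symMon_up G' (t + 1)) i ?_
    intro c S hc hS
    have key : Acyc (fun τ => Disjoint τ S ∧ ∃ F, Indep G' F ∧ cost (addInd c τ) F < t + 1) q := by
      refine koszul_of_cech (Indep G') S (t + 1) q ?_ c hc
      intro c' _ j hj
      have hcongr : ∀ τ : Finset (Fin m),
          (Disjoint τ S ∧ ∃ F, Indep G' F ∧ τ ⊆ F ∧ cost c' F < t + 1) ↔
          (Disjoint τ S ∧ KK G (push π c') (t + 1) (τ.image π)) := by
        intro τ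
        rw [KK_comap]
      rw [van_iff_congr hcongr, van_pullback (KK G (push π c') (t + 1)) (isDown_KK _ _ _) π S]
      · exact hpos _ j hj
      · intro w
        by_contra hcon
        push Not at hcon
        have hsub : (Finset.univ.image fun i : Fin q => e.symm (w, i)) ⊆ S := by
          intro v hv
          obtain ⟨i, _, rfl⟩ := Finset.mem_image.1 hv
          by_contra hvS
          exact hcon _ hvS (by simp [π])
        have := Finset.card_le_card hsub
        rw [Finset.card_image_of_injective _ (by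
          intro i j hij
          simpa using hij), Finset.card_univ, Fintype.card_fin] at this
        omega
    have := key (i - S.card) (by omega)
    refine (van_iff_congr (fun τ => ?_) _).1 this
    rw [not_symMon]
  -- apply monotonicity
  obtain ⟨rs, hrs, hlen, hreg⟩ := hM (ZMod 2) m G' t q ht hA
  have hreg' : RingTheory.Sequence.IsRegular
        (MvPolynomial (Fin m) (ZMod 2) ⧸ sympow (ZMod 2) G' t) rs := hreg
  have hK := kvan_of_isWeaklyRegular h2 (X : Fin m → MvPolynomial (Fin m) (ZMod 2)) rs hrs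
    hreg'.toIsWeaklyRegular (q - 1) (by omega)
  let a' : Fin m → ℕ := fun v => if (e v).2 = ⟨0, by omega⟩ then a (π v) else 0
  have hpush : push π a' = a := by
    funext w
    unfold push
    rw [Finset.sum_eq_single (e.symm (w, ⟨0, by omega⟩))]
    · simp [a', π]
    · intro v hv hne
      simp only [Finset.mem_filter, Finset.mem_univ, true_and] at hv
      simp only [a']
      rw [if_neg]
      intro h0
      apply hne
      rw [Equiv.eq_symm_apply]
      exact Prod.ext hv h0
    · intro h
      exact absurd (by simp [π]) h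
  have hcost : ∀ F, Indep G' F → t ≤ cost a' F + 1 := by
    intro F hF
    have h1 : Indep G (F.image π) := by
      intro v hv w hw hvw
      obtain ⟨v', hv', rfl⟩ := Finset.mem_image.1 hv
      obtain ⟨w', hw', rfl⟩ := Finset.mem_image.1 hw
      exact hF hv' hw' hvw
    have h3 : cost a (F.image π) ≤ cost a' F := by
      have := cost_push π a' (F.image π)
      rw [hpush] at this
      rw [this]
      refine cost_anti _ ?_
      intro v hv
      simp only [Finset.mem_filter, Finset.mem_univ, true_and]
      exact Finset.mem_image_of_mem π hv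
    have := ha _ h1
    omega
  have hV := strand_of_kvan _ (symMon G' t) (mem_sympow G' t) (symMon_up G' t) (q - 1) hK a'
  apply hneg
  rw [← van_pullback (KK G a t) (isDown_KK _ _ _) π ∅ (fun w =>
    ⟨e.symm (w, ⟨0, by omega⟩), by simp, by simp [π]⟩)]
  refine (van_iff_congr (fun τ => ?_) _).1 hV
  rw [not_symMon]
  have hk := KK_comap G π a' t τ
  rw [hpush] at hk
  rw [← hk]
  constructor
  · rintro ⟨F, hF, hc⟩
    rw [cost_addInd] at hc
    have := hcost F hF
    have h0 : (τ \ F).card = 0 := by omega
    refine ⟨Finset.disjoint_empty_right _, F, hF, ?_, by omega⟩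
    rwa [Finset.card_eq_zero, Finset.sdiff_eq_empty_iff_subset] at h0
  · rintro ⟨_, F, hF, hsub, hc⟩
    refine ⟨F, hF, ?_⟩
    rw [cost_addInd, Finset.sdiff_eq_empty_iff_subset.2 hsub]
    simpa using hc

end Pool.Agent.H40.SD
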