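import Mathlib

/-!
# Symbolic depth of edge ideals (MP_b3ecde_ag): basic definitions

Simplicial cohomology with coefficients in `ZMod 2`, indexed by CARDINALITY, for
down-closed set families; Koszul cochains.
-/

set_option autoImplicit false

namespace Pool.Agent.H40.SD

variable {α β : Type*} [DecidableEq α] [DecidableEq β]

/-- The total coboundary over `ZMod 2` (on all finsets). -/
def cb (f : Finset α → ZMod 2) (σ : Finset α) : ZMod 2 := ∑ w ∈ σ, f (σ.erase w)

/-- A set family is down-closed. -/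
def IsDown (Δ : Finset α → Prop) : Prop := ∀ ⦃σ τ : Finset α⦄, σ ⊆ τ → Δ τ → Δ σ

/-- Vanishing of the reduced cohomology (coefficients `ZMod 2`) of the family `Δ` in
cardinality `j` (i.e. in dimension `j - 1`). -/
def Van (Δ : Finset α → Prop) (j : ℕ) : Prop :=
  ∀ f : Finset α → ZMod 2, (∀ σ, Δ σ → σ.card = j + 1 → cb f σ = 0) →
    ∃ g : Finset α → ZMod 2, ∀ σ, Δ σ → σ.card = j → f σ = cb g σ

/-- Vanishing in all cardinalities `< n`. -/
def Acyc (Δ : Finset α → Prop) (n : ℕ) : Prop := ∀ j < n, Van Δ j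

/-- deletion of a vertex -/
def del (Δ : Finset α → Prop) (v : α) : Finset α → Prop := fun σ => v ∉ σ ∧ Δ σ

/-- link of a vertex -/
def lk (Δ : Finset α → Prop) (v : α) : Finset α → Prop := fun σ => v ∉ σ ∧ Δ (insert v σ)

/-- The part of `Δ` lying over `B ⊆ Y`: the sets `σ` disjoint from `Y` with `B ∪ σ ∈ Δ`. -/
def fib (Δ : Finset α → Prop) (Y B : Finset α) : Finset α → Prop :=
  fun σ => Disjoint σ Y ∧ Δ (B ∪ σ)

section Koszul

variable {R : Type*} [CommRing R] {M : Type*} [AddCommGroup M] [Module R M]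

/-- Koszul coboundary (characteristic two, no signs). -/
def kcb (x : α → R) (ω : Finset α → M) (σ : Finset α) : M := ∑ v ∈ σ, x v • ω (σ.erase v)

/-- Vanishing of the Koszul cohomology of the sequence `x` on `M` in degree `j`. -/
def KVan (x : α → R) (M : Type*) [AddCommGroup M] [Module R M] (j : ℕ) : Prop :=
  ∀ ω : Finset α → M, (∀ σ, σ.card = j + 1 → kcb x ω σ = 0) →
    ∃ η : Finset α → M, ∀ σ, σ.card = j → ω σ = kcb x η σ

end Koszul

/-- The symbolic power of the edge ideal of `G`, as in the frozen statement. -/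
noncomputable def sympow (K : Type) [Field K] {V : Type} (G : SimpleGraph V) (t : ℕ) :
    Ideal (MvPolynomial V K) :=
  ⨅ P ∈ (Ideal.span {f : MvPolynomial V K |
    ∃ i j, G.Adj i j ∧ f = MvPolynomial.X i * MvPolynomial.X j}).minimalPrimes, P ^ t

/-- `F` is independent in `G`. -/
def Indep {V : Type*} (G : SimpleGraph V) (F : Finset V) : Prop :=
  ∀ ⦃v⦄, v ∈ F → ∀ ⦃w⦄, w ∈ F → ¬ G.Adj v w

/-- The weight of the complement of `F`. -/
def cost {V : Type*} [Fintype V] [DecidableEq V] (c : V → ℕ) (F : Finset V) : ℕ :=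
  ∑ v ∈ Finset.univ \ F, c v

end Pool.Agent.H40.SD
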