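import Pool.Agent.H40.SD.Top

/-! # Abstract designs

A design consists of elements `W`, stars `St` (each a set of elements), colours `I`; every
colour `i` has an element `z i`, a set `Y i` of `y`-elements and a full star `S i`. -/

set_option autoImplicit false

namespace Pool.Agent.H40.SD

open Finset

structure Design where
  W : Type
  St : Type
  I : Type
  [fW : Fintype W]
  [dW : DecidableEq W]
  [fI : Fintype I]
  [dI : DecidableEq I]
  /-- the star as a set of elements -/
  star : St → Finset W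
  full : St → Prop
  M : ℕ
  hM : 1 ≤ M
  card_full : ∀ n, full n → (star n).card = M
  card_le : ∀ n, ¬ full n → (star n).card ≤ M - 1
  z : I → W
  z_inj : Function.Injective z
  base : W → I
  base_z : ∀ i, base (z i) = i
  /-- every full star containing `z (base w)` contains `w` -/
  dom_base : ∀ w n, full n → z (base w) ∈ star n → w ∈ star n
  /-- the `y`-elements of colour `i` -/
  Y : I → Finset W
  base_Y : ∀ i, ∀ y ∈ Y i, base y = i
  z_notin_Y : ∀ i j, z i ∉ Y j
  /-- the main star of a colour -/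
  S : I → St
  full_S : ∀ i, full (S i)
  z_mem_S : ∀ i j, z i ∈ star (S j) ↔ i = j
  /-- every full star contains some `z i` -/
  full_z : ∀ n, full n → ∃ i, z i ∈ star n
  -- Helly
  helly : ∀ U : Finset W, (∀ u ∈ U, ∀ w ∈ U, ∃ n, u ∈ star n ∧ w ∈ star n) → ∃ n, U ⊆ star n
  -- every element is non-adjacent ... to a whole `Y i`
  away : ∀ w, ∃ i, ∀ y ∈ Y i, ∀ n, ¬ (w ∈ star n ∧ y ∈ star n)
  -- blocks
  β : ℕ
  hβ : 10 ≤ β
  v : I → Fin β → Bool → W
  v_inj : ∀ i, Function.Injective (fun p : Fin β × Bool => v i p.1 p.2)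
  mem_Y : ∀ i w, w ∈ Y i ↔ ∃ b ε, w = v i b ε
  kk : I → Fin β → Bool → I
  kk_inj : ∀ i, Function.Injective (fun p : Fin β × Bool => kk i p.1 p.2)
  kk_ne : ∀ i b ε, kk i b ε ≠ i
  pp : I → Fin β → St
  full_pp : ∀ i b, full (pp i b)
  v_mem_S : ∀ i b ε, v i b ε ∈ star (S (kk i b ε))
  v_stars : ∀ i b ε n, full n → v i b ε ∈ star n → z i ∈ star n ∨ n = S (kk i b ε)
  mem_pp : ∀ i b w, w ∈ star (pp i b) ↔ base w = kk i b false ∨ base w = kk i b true
  z_stars : ∀ i b ε n, full n → z (kk i b ε) ∈ star n → n = S (kk i b ε) ∨ n = pp i b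
  -- kill stars
  kill : ∀ (A B : Finset W), A.Nonempty → (A.card = 1 ∨ ∃ i, A ⊆ Y i) → B.card ≤ 2 * M + 1 →
    ∃ n, A ⊆ star n ∧ M - 1 ≤ (star n).card ∧ ∀ φ ∈ star n, φ ∉ A →
      (∀ i, φ ∉ Y i) ∧ z (base φ) ∉ star n ∧ ∀ n', z (base φ) ∈ star n' → Disjoint (star n') B
  -- counting
  count : ∀ n (U : Finset W) (P : Finset I), U ⊆ star n → (∀ i, (U ∩ Y i).card ≤ 1) →
    (∀ u ∈ U, ∀ i, (∀ n', full n' → z i ∈ star n' → u ∈ star n') → i ∈ P) →
    U.card ≤ 3 * P.card + 4
  -- filler stars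
  Cl : Type
  [fCl : Fintype Cl]
  [dCl : DecidableEq Cl]
  cls : I → Cl
  cls_surj : Function.Surjective cls
  cls_star : ∀ n i j, z i ∈ star n → z j ∈ star n → cls i = cls j
  Fi : Type
  [fFi : Fintype Fi]
  ff : Fi → St
  ff_disj : ∀ a b, a ≠ b → Disjoint (star (ff a)) (star (ff b))
  ff_card : ∀ a, M - 1 ≤ (star (ff a)).card
  ff_z : ∀ a i, z i ∉ star (ff a)
  ff_Y : ∀ a i, Disjoint (star (ff a)) (Y i)
  numeric : Fintype.card I + M + 2 ≤ Fintype.card Fi + Fintype.card Cl
  -- far colours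
  far : Fin (M + 4) → I
  far_disj : ∀ a b, a ≠ b → ∀ n n', z (far a) ∈ star n → z (far b) ∈ star n' →
    Disjoint (star n) (star n')

attribute [instance] Design.fW Design.dW Design.fI Design.dI Design.fCl Design.dCl Design.fFi

namespace Design

variable (D : Design)

/-- the graph `H`: two elements are adjacent iff no star contains both -/
def H : SimpleGraph D.W where
  Adj := fun w w' => ∀ n, ¬ (w ∈ D.star n ∧ w' ∈ D.star n)
  symm := ⟨fun w w' h n hn => h n ⟨hn.2, hn.1⟩⟩
  loopless := ⟨fun w h => h (D.S (D.base w))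
    ⟨D.dom_base w _ (D.full_S _) (by simp [D.z_mem_S]),
     D.dom_base w _ (D.full_S _) (by simp [D.z_mem_S])⟩⟩

open Classical in
/-- the pairs inside some `Y i` -/
noncomputable def X2 : Finset (Finset D.W) :=
  univ.filter (fun X => X.card = 2 ∧ ∃ i, X ⊆ D.Y i)

open Classical in
/-- the edges of `H` -/
noncomputable def XE : Finset (Finset D.W) :=
  univ.filter (fun X => ∃ w w', D.H.Adj w w' ∧ X = {w, w'})

/-- the attached pairs -/
noncomputable def XX : Finset (Finset D.W) := D.XE ∪ D.X2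

/-- the level -/
def t : ℕ := Fintype.card D.W - D.M + 1

/-- the number of colours -/
def q : ℕ := Fintype.card D.I

/-- weight of the pairs hit by `A` -/
noncomputable def e2 (e : Finset D.W → ℕ) (A : Finset D.W) : ℕ :=
  ∑ X ∈ D.X2.filter (fun X => ¬ Disjoint X A), e X

/-- `A` is alive: it lies in a star and `M + k' + e2(A) ≤ |A| + c(A) + k`. -/
def Alive (c : D.W → ℕ) (e : Finset D.W → ℕ) (k k' : ℕ) (A : Finset D.W) : Prop :=
  (∃ n, A ⊆ D.star n) ∧ D.M + k' + D.e2 e A ≤ A.card + ∑ w ∈ A, c w + k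

/-- the complexes of the induction: `V` is forced, `Fr` is frozen. -/
def Obj (c : D.W → ℕ) (e : Finset D.W → ℕ) (k k' : ℕ) (V Fr : Finset D.W) :
    Finset D.W → Prop :=
  fun E => Disjoint E (V ∪ Fr) ∧ ∃ A, D.Alive c e k k' A ∧ Disjoint A (E ∪ V)

end Design

end Pool.Agent.H40.SD
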