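import Pool.Agent.H40.SD.Defs

/-! # Koszul cohomology and depth (characteristic two), part B -/

set_option autoImplicit false

open scoped Pointwise

namespace Pool.Agent.H40.SD

variable {α : Type*} [DecidableEq α]

namespace KB

variable {R : Type*} [CommRing R] {M : Type*} [AddCommGroup M] [Module R M]

lemma two_add_self (h2 : (2 : R) = 0) (m : M) : m + m = 0 := by
  have : (2 : R) • m = 0 := by rw [h2, zero_smul]
  rwa [two_smul] at this

lemma kcb_congr (x : α → R) {ω ω' : Finset α → M} {σ : Finset α}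
    (h : ∀ v ∈ σ, ω (σ.erase v) = ω' (σ.erase v)) : kcb x ω σ = kcb x ω' σ :=
  Finset.sum_congr rfl fun v hv => by rw [h v hv]

lemma kcb_kcb_zero (h2 : (2 : R) = 0) (x : α → R) (ω : Finset α → M) (σ : Finset α) :
    kcb x (fun τ => kcb x ω τ) σ = 0 := by
  unfold kcb
  have e1 : ∀ v ∈ σ, x v • ∑ w ∈ σ.erase v, x w • ω ((σ.erase v).erase w) =
      ∑ w ∈ σ.erase v, (x v * x w) • ω ((σ.erase v).erase w) := by
    intro v _
    rw [Finset.smul_sum]
    exact Finset.sum_congr rfl fun w _ => by rw [smul_smul]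
  rw [Finset.sum_congr rfl e1]
  have e2 : ∑ v ∈ σ, ∑ w ∈ σ.erase v, (x v * x w) • ω ((σ.erase v).erase w) =
      ∑ p ∈ σ.offDiag, (x p.1 * x p.2) • ω ((σ.erase p.1).erase p.2) := by
    rw [Finset.sum_sigma']
    refine Finset.sum_bij' (fun p _ => (p.1, p.2)) (fun p _ => ⟨p.1, p.2⟩) ?_ ?_ ?_ ?_ ?_
    · rintro ⟨v, w⟩ h
      simp only [Finset.mem_sigma, Finset.mem_erase] at h
      simp only [Finset.mem_offDiag]
      exact ⟨h.1, h.2.2, fun e => h.2.1 e.symm⟩
    · rintro ⟨v, w⟩ h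
      simp only [Finset.mem_offDiag] at h
      simp only [Finset.mem_sigma, Finset.mem_erase]
      exact ⟨h.1, fun e => h.2.2 e.symm, h.2.1⟩
    · rintro ⟨v, w⟩ _; rfl
    · rintro ⟨v, w⟩ _; rfl
    · rintro ⟨v, w⟩ _; rfl
  rw [e2]
  refine Finset.sum_involution (fun p _ => (p.2, p.1)) ?_ ?_ ?_ ?_
  · rintro ⟨v, w⟩ _
    have : (σ.erase w).erase v = (σ.erase v).erase w := Finset.erase_right_comm
    simp only [this, mul_comm (x w) (x v)]
    exact two_add_self h2 _
  · rintro ⟨v, w⟩ h _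
    simp only [Finset.mem_offDiag] at h
    intro e
    exact h.2.2 (congrArg Prod.snd e)
  · rintro ⟨v, w⟩ h
    simp only [Finset.mem_offDiag] at h ⊢
    exact ⟨h.2.1, h.1, fun e => h.2.2 e.symm⟩
  · rintro ⟨v, w⟩ _; rfl

lemma kcb_add (x : α → R) (ω ω' : Finset α → M) (σ : Finset α) :
    kcb x (fun τ => ω τ + ω' τ) σ = kcb x ω σ + kcb x ω' σ := by
  unfold kcb
  rw [← Finset.sum_add_distrib]
  exact Finset.sum_congr rfl fun v _ => by rw [smul_add]

lemma kcb_smul (x : α → R) (r : R) (ω : Finset α → M) (σ : Finset α) :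
    kcb x (fun τ => r • ω τ) σ = r • kcb x ω σ := by
  unfold kcb
  rw [Finset.smul_sum]
  exact Finset.sum_congr rfl fun v _ => smul_comm _ _ _

lemma kcb_map {M' : Type*} [AddCommGroup M'] [Module R M'] (φ : M →ₗ[R] M') (x : α → R)
    (ω : Finset α → M) (σ : Finset α) :
    φ (kcb x ω σ) = kcb x (fun τ => φ (ω τ)) σ := by
  unfold kcb
  rw [map_sum]
  exact Finset.sum_congr rfl fun v _ => by rw [map_smul]

/-- Koszul vanishing passes to the quotient by a regular element. -/
lemma kvan_quot (h2 : (2 : R) = 0) (x : α → R) {f : R} (hf : IsSMulRegular M f) {n : ℕ}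
    (h : ∀ i < n + 1, KVan x M i) : ∀ i < n, KVan x (QuotSMulTop f M) i := by
  intro i hi ω' hω'
  let π : M →ₗ[R] QuotSMulTop f M := Submodule.mkQ _
  have hπ : Function.Surjective π := Submodule.mkQ_surjective _
  obtain ⟨ω, hω⟩ : ∃ ω : Finset α → M, ∀ σ, π (ω σ) = ω' σ :=
    ⟨fun σ => (hπ (ω' σ)).choose, fun σ => (hπ (ω' σ)).choose_spec⟩
  have hker : ∀ m : M, π m = 0 → ∃ m', f • m' = m := by
    intro m hm
    have : m ∈ (f • ⊤ : Submodule R M) := (Submodule.Quotient.mk_eq_zero _).1 hm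
    rw [Submodule.mem_smul_pointwise_iff_exists] at this
    obtain ⟨m', -, h'⟩ := this
    exact ⟨m', h'⟩
  have hcoc : ∀ σ : Finset α, ∃ m : M, σ.card = i + 1 → f • m = kcb x ω σ := by
    intro σ
    by_cases hc : σ.card = i + 1
    · have h1 : π (kcb x ω σ) = 0 := by
        rw [kcb_map, kcb_congr x (ω' := ω') (fun v _ => hω _)]
        exact hω' σ hc
      obtain ⟨m, hm⟩ := hker _ h1
      exact ⟨m, fun _ => hm⟩
    · exact ⟨0, fun h' => absurd h' hc⟩
  choose η hη using hcoc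
  have hη2 : ∀ τ : Finset α, τ.card = i + 1 + 1 → kcb x η τ = 0 := by
    intro τ hτ
    apply hf
    change f • kcb x η τ = f • 0
    rw [smul_zero, ← kcb_smul]
    rw [kcb_congr x (ω' := fun τ => kcb x ω τ)]
    · exact kcb_kcb_zero h2 x ω τ
    · intro v hv
      exact hη _ (by rw [Finset.card_erase_of_mem hv, hτ]; rfl)
  obtain ⟨θ, hθ⟩ := h (i + 1) (by omega) η hη2
  have hdiff : ∀ σ : Finset α, σ.card = i + 1 →
      kcb x (fun τ => ω τ + (-f) • θ τ) σ = 0 := by
    intro σ hσ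
    rw [kcb_add x ω (fun τ => (-f) • θ τ), kcb_smul, ← hη σ hσ, hθ σ hσ, neg_smul]
    exact add_neg_cancel _
  obtain ⟨ζ, hζ⟩ := h i (by omega) _ hdiff
  refine ⟨fun τ => π (ζ τ), fun σ hσ => ?_⟩
  rw [← kcb_map, ← hζ σ hσ, map_add, map_smul, ← hω σ]
  have : (-f) • π (θ σ) = 0 := by
    rw [neg_smul, ← map_smul]
    have h0 : π (f • θ σ) = 0 := by
      refine (Submodule.Quotient.mk_eq_zero _).2 ?_
      rw [Submodule.mem_smul_pointwise_iff_exists]
      exact ⟨θ σ, Submodule.mem_top, rfl⟩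
    rw [h0, neg_zero]
  rw [this, add_zero]

lemma eq_zero_of_kvan (x : α → R) (h : KVan x M 0) (m : M) (hm : ∀ v, x v • m = 0) : m = 0 := by
  obtain ⟨η, hη⟩ := h (fun _ => m) (by
    intro σ _
    unfold kcb
    exact Finset.sum_eq_zero fun v _ => hm v)
  have := hη ∅ rfl
  simpa [kcb] using this

lemma exists_regular_of_kvan [IsNoetherianRing R] [Module.Finite R M] (x : α → R)
    (h : KVan x M 0) : ∃ f ∈ Ideal.span (Set.range x), IsSMulRegular M f := by
  have hsub : Subsingleton ((R ⧸ Ideal.span (Set.range x)) →ₗ[R] M) := by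
    refine ⟨fun φ ψ => ?_⟩
    have key : ∀ χ : (R ⧸ Ideal.span (Set.range x)) →ₗ[R] M, χ = 0 := by
      intro χ
      have h1 : χ (Ideal.Quotient.mk _ 1) = 0 := by
        apply eq_zero_of_kvan x h
        intro v
        rw [← map_smul]
        have : x v • (Ideal.Quotient.mk (Ideal.span (Set.range x))) 1 = 0 := by
          have e : x v • (Ideal.Quotient.mk (Ideal.span (Set.range x))) 1 =
              (Ideal.Quotient.mk (Ideal.span (Set.range x))) (x v • 1) := rfl
          rw [e, Ideal.Quotient.eq_zero_iff_mem, smul_eq_mul, mul_one]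
          exact Ideal.subset_span ⟨v, rfl⟩
        rw [this, map_zero]
      ext
      simpa using h1
    rw [key φ, key ψ]
  obtain ⟨r, hr, hreg⟩ := IsSMulRegular.subsingleton_linearMap_iff.1 hsub
  refine ⟨r, ?_, hreg⟩
  rwa [Ideal.annihilator_quotient] at hr

lemma quot_smul_ne_top (I : Ideal R) {f : R} (hf : f ∈ I)
    (hM : I • (⊤ : Submodule R M) ≠ ⊤) :
    I • (⊤ : Submodule R (QuotSMulTop f M)) ≠ ⊤ := by
  intro htop
  apply hM
  let π : M →ₗ[R] QuotSMulTop f M := Submodule.mkQ _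
  have h1 : Submodule.map π (I • (⊤ : Submodule R M)) = ⊤ := by
    rw [Submodule.map_smul'', Submodule.map_top, Submodule.range_mkQ, htop]
  have h2 : Submodule.comap π (Submodule.map π (I • (⊤ : Submodule R M))) = ⊤ := by
    rw [h1, Submodule.comap_top]
  rw [Submodule.comap_map_eq, Submodule.ker_mkQ] at h2
  have h3 : (f • ⊤ : Submodule R M) ≤ I • (⊤ : Submodule R M) := by
    intro m hm
    rw [Submodule.mem_smul_pointwise_iff_exists] at hm
    obtain ⟨m', -, rfl⟩ := hm
    exact Submodule.smul_mem_smul hf Submodule.mem_top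
  rwa [sup_eq_left.2 h3] at h2

end KB

open KB

theorem exists_isRegular_of_kvan {R : Type*} [CommRing R] [IsNoetherianRing R] (h2 : (2 : R) = 0)
    {M : Type*} [AddCommGroup M] [Module R M] [Module.Finite R M] (x : α → R)
    (hM : (Ideal.span (Set.range x)) • (⊤ : Submodule R M) ≠ ⊤) (q : ℕ)
    (h : ∀ j < q, KVan x M j) :
    ∃ rs : List R, (∀ r ∈ rs, r ∈ Ideal.span (Set.range x)) ∧ rs.length = q ∧
      RingTheory.Sequence.IsRegular M rs := by
  induction q generalizing M with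
  | zero =>
    refine ⟨[], by simp, rfl, RingTheory.Sequence.IsWeaklyRegular.nil R M, ?_⟩
    intro e
    apply hM
    rw [Ideal.ofList_nil, Submodule.bot_smul] at e
    rw [e, Submodule.smul_bot]
  | succ n ih =>
    obtain ⟨f, hf, hreg⟩ := exists_regular_of_kvan (M := M) x (h 0 (by omega))
    obtain ⟨rs, hrs, hlen, hr⟩ := ih (M := QuotSMulTop f M) (quot_smul_ne_top _ hf hM)
      (kvan_quot h2 x hreg h)
    refine ⟨f :: rs, ?_, by simp [hlen], ?_⟩
    · intro r hr'
      rcases List.mem_cons.1 hr' with rfl | h'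
      · exact hf
      · exact hrs r h'
    · exact (RingTheory.Sequence.isRegular_cons_iff M f rs).2 ⟨hreg, hr⟩

end Pool.Agent.H40.SD
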