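import Pool.Agent.H40.SD.KoszulA
import Pool.Agent.H40.SD.KoszulB

/-! # Koszul cohomology and depth: see `KoszulA` and `KoszulB`. -/
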