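import Pool.Agent.H40.SD.Defs

/-! # Koszul cohomology and depth (characteristic two), part A:
a weakly regular sequence forces vanishing of Koszul cohomology. -/

set_option autoImplicit false

open scoped Pointwise

namespace Pool.Agent.H40.SD

variable {α : Type*} [DecidableEq α]

section basic

variable {R : Type*} [CommRing R] {M : Type*} [AddCommGroup M] [Module R M]

theorem add_self_of_two (h2 : (2 : R) = 0) (m : M) : m + m = 0 := by
  have : (2 : R) • m = 0 := by rw [h2, zero_smul]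
  rwa [two_smul] at this

theorem eq_of_add_eq_zero_of_two (h2 : (2 : R) = 0) {m m' : M} (h : m + m' = 0) : m = m' := by
  have h1 := add_self_of_two h2 m'
  calc m = m + (m' + m') := by rw [h1, add_zero]
    _ = (m + m') + m' := by rw [add_assoc]
    _ = m' := by rw [h, zero_add]

theorem kcb_add (x : α → R) (ω ω' : Finset α → M) (σ : Finset α) :
    kcb x (fun τ => ω τ + ω' τ) σ = kcb x ω σ + kcb x ω' σ := by
  simp [kcb, smul_add, Finset.sum_add_distrib]

theorem kcb_smul (x : α → R) (r : R) (ω : Finset α → M) (σ : Finset α) :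
    kcb x (fun τ => r • ω τ) σ = r • kcb x ω σ := by
  simp only [kcb, Finset.smul_sum]
  refine Finset.sum_congr rfl fun v _ => ?_
  rw [smul_comm]

theorem kcb_zero (x : α → R) (σ : Finset α) :
    kcb x (fun _ => (0 : M)) σ = 0 := by
  simp [kcb]

theorem kcb_map {N : Type*} [AddCommGroup N] [Module R N] (g : M →ₗ[R] N) (x : α → R)
    (ω : Finset α → M) (σ : Finset α) :
    kcb x (fun τ => g (ω τ)) σ = g (kcb x ω σ) := by
  simp [kcb, map_sum]

theorem kcb_congr (x : α → R) {ω ω' : Finset α → M} {σ : Finset α}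
    (h : ∀ v ∈ σ, ω (σ.erase v) = ω' (σ.erase v)) : kcb x ω σ = kcb x ω' σ :=
  Finset.sum_congr rfl fun v hv => by rw [h v hv]

theorem kcb_empty (x : α → R) (ω : Finset α → M) : kcb x ω ∅ = 0 := by
  simp [kcb]

theorem kcb_kcb (h2 : (2 : R) = 0) (x : α → R) (ω : Finset α → M) (σ : Finset α) :
    kcb x (kcb x ω) σ = 0 := by
  classical
  have h1 : kcb x (kcb x ω) σ = ∑ p ∈ σ.sigma fun v => σ.erase v,
      x p.1 • x p.2 • ω ((σ.erase p.1).erase p.2) := by
    rw [Finset.sum_sigma]
    simp [kcb, Finset.smul_sum]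
  rw [h1]
  refine Finset.sum_involution (fun p _ => ⟨p.2, p.1⟩) ?_ ?_ ?_ ?_
  · rintro ⟨v, w⟩ hp
    simp only
    rw [Finset.erase_right_comm (a := w), smul_comm (x w)]
    exact add_self_of_two h2 _
  · rintro ⟨v, w⟩ hp _ h
    simp only [Finset.mem_sigma, Finset.mem_erase] at hp
    simp only [Sigma.mk.injEq] at h
    exact hp.2.1 h.1
  · rintro ⟨v, w⟩ hp
    simp only [Finset.mem_sigma, Finset.mem_erase] at hp ⊢
    exact ⟨hp.2.2, fun h => hp.2.1 h.symm, hp.1⟩
  · rintro ⟨v, w⟩ hp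
    rfl

/-- multiplication by `x v` is null-homotopic -/
theorem ann_single (h2 : (2 : R) = 0) (x : α → R) (v : α) (j : ℕ) (ω : Finset α → M)
    (hω : ∀ σ, σ.card = j + 1 → kcb x ω σ = 0) :
    ∃ η : Finset α → M, ∀ σ, σ.card = j → x v • ω σ = kcb x η σ := by
  refine ⟨fun σ => if v ∈ σ then 0 else ω (insert v σ), fun σ hσ => ?_⟩
  by_cases hv : v ∈ σ
  · have h1 : kcb x (fun σ => if v ∈ σ then (0 : M) else ω (insert v σ)) σ
        = ∑ w ∈ σ, if w = v then x v • ω σ else 0 := by
      refine Finset.sum_congr rfl fun w hw => ?_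
      by_cases hwv : w = v
      · subst hwv
        simp [Finset.insert_erase hw]
      · have : v ∈ σ.erase w := Finset.mem_erase.2 ⟨fun h => hwv h.symm, hv⟩
        simp [hwv, this]
    rw [h1, Finset.sum_ite_eq' σ v, if_pos hv]
  · have h1 := hω (insert v σ) (by rw [Finset.card_insert_of_notMem hv, hσ])
    rw [kcb, Finset.sum_insert hv, Finset.erase_insert hv] at h1
    rw [eq_of_add_eq_zero_of_two h2 h1]
    refine Finset.sum_congr rfl fun w hw => ?_
    have hwv : w ≠ v := fun h => hv (h ▸ hw)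
    have h3 : v ∉ σ.erase w := fun h => hv (Finset.mem_of_mem_erase h)
    simp only [h3, if_false]
    rw [Finset.erase_insert_of_ne hwv.symm]

theorem ann_span (h2 : (2 : R) = 0) (x : α → R) (j : ℕ) (ω : Finset α → M)
    (hω : ∀ σ, σ.card = j + 1 → kcb x ω σ = 0) (f : R) (hf : f ∈ Ideal.span (Set.range x)) :
    ∃ η : Finset α → M, ∀ σ, σ.card = j → f • ω σ = kcb x η σ := by
  induction hf using Submodule.span_induction with
  | mem y hy =>
    obtain ⟨v, rfl⟩ := hy
    exact ann_single h2 x v j ω hω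
  | zero =>
    exact ⟨fun _ => 0, fun σ _ => by rw [kcb_zero, zero_smul]⟩
  | add y z _ _ hy hz =>
    obtain ⟨η₁, h₁⟩ := hy
    obtain ⟨η₂, h₂⟩ := hz
    exact ⟨fun τ => η₁ τ + η₂ τ, fun σ hσ => by rw [kcb_add, add_smul, h₁ σ hσ, h₂ σ hσ]⟩
  | smul r y _ hy =>
    obtain ⟨η₁, h₁⟩ := hy
    exact ⟨fun τ => r • η₁ τ, fun σ hσ => by rw [kcb_smul, smul_assoc, h₁ σ hσ]⟩

/-- one step: pass from `M / f M` to `M`. -/
theorem kvan_of_quot (h2 : (2 : R) = 0) (x : α → R) (f : R)
    (hf : f ∈ Ideal.span (Set.range x)) (hreg : IsSMulRegular M f) (n : ℕ)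
    (h : ∀ i < n, KVan x (QuotSMulTop f M) i) : ∀ i < n + 1, KVan x M i := by
  intro i hi ω hω
  obtain ⟨η, hη⟩ := ann_span h2 x i ω hω f hf
  rcases Nat.eq_zero_or_pos i with rfl | hpos
  · refine ⟨fun _ => 0, fun σ hσ => ?_⟩
    have hs : σ = ∅ := Finset.card_eq_zero.1 hσ
    subst hs
    have h1 := hη ∅ hσ
    rw [kcb_empty] at h1
    rw [kcb_empty]
    exact hreg (by simpa using h1)
  · obtain ⟨m, rfl⟩ : ∃ m, i = m + 1 := ⟨i - 1, by omega⟩
    let g : M →ₗ[R] QuotSMulTop f M := Submodule.mkQ _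
    have hg0 : ∀ y : M, g (f • y) = 0 := by
      intro y
      refine (Submodule.Quotient.mk_eq_zero _).2 ?_
      exact Submodule.smul_mem_pointwise_smul y f ⊤ trivial
    have hg1 : ∀ y : M, g y = 0 → ∃ z : M, y = f • z := by
      intro y hy
      have h1 : y ∈ f • (⊤ : Submodule R M) := (Submodule.Quotient.mk_eq_zero _).1 hy
      obtain ⟨z, _, hz⟩ := (Submodule.mem_smul_pointwise_iff_exists _ _ _).1 h1
      exact ⟨z, hz.symm⟩
    have hgs : Function.Surjective g := Submodule.mkQ_surjective _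
    obtain ⟨θ', hθ'⟩ := h m (by omega) (fun τ => g (η τ)) (fun σ hσ => by
      rw [kcb_map, ← hη σ hσ, hg0])
    choose lift hlift using hgs
    have h3 : ∀ σ : Finset α, ∃ z : M, σ.card = m →
        η σ = kcb x (fun τ => lift (θ' τ)) σ + f • z := by
      intro σ
      by_cases hσ : σ.card = m
      · have h4 := hθ' σ hσ
        have h5 : g (η σ - kcb x (fun τ => lift (θ' τ)) σ) = 0 := by
          rw [map_sub, ← kcb_map]
          simp only [hlift]
          rw [← h4, sub_self]
        obtain ⟨z, hz⟩ := hg1 _ h5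
        exact ⟨z, fun _ => by rw [← hz]; abel⟩
      · exact ⟨0, fun h => absurd h hσ⟩
    choose ζ hζ using h3
    refine ⟨ζ, fun σ hσ => hreg ?_⟩
    show f • ω σ = f • kcb x ζ σ
    rw [hη σ hσ, ← kcb_smul]
    have h6 : kcb x η σ = kcb x (fun τ => kcb x (fun τ => lift (θ' τ)) τ + f • ζ τ) σ := by
      refine kcb_congr x fun v hv => ?_
      exact hζ _ (by rw [Finset.card_erase_of_mem hv, hσ]; rfl)
    rw [h6, kcb_add, kcb_kcb h2, zero_add]

end basic

theorem kvan_of_isWeaklyRegular {R : Type*} [CommRing R] (h2 : (2 : R) = 0)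
    {M : Type*} [AddCommGroup M] [Module R M] (x : α → R) (rs : List R)
    (hrs : ∀ r ∈ rs, r ∈ Ideal.span (Set.range x))
    (hreg : RingTheory.Sequence.IsWeaklyRegular M rs) :
    ∀ j < rs.length, KVan x M j := by
  induction rs generalizing M with
  | nil => intro j hj; simp at hj
  | cons r rs ih =>
    rw [RingTheory.Sequence.isWeaklyRegular_cons_iff] at hreg
    have h1 := ih (M := QuotSMulTop r M) (fun s hs => hrs s (List.mem_cons_of_mem _ hs)) hreg.2
    exact kvan_of_quot h2 x r (hrs r (by simp)) hreg.1 rs.length h1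

end Pool.Agent.H40.SD
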