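import Pool.Agent.H40.SD.ThmC

/-! # Level `t` and the conclusion for abstract designs -/

set_option autoImplicit false

namespace Pool.Agent.H40.SD

namespace Design

open Finset

variable (D : Design)

theorem lev_nonempty : Nonempty D.I := ⟨D.far ⟨0, by omega⟩⟩

theorem lev_card_star_le (n : D.St) : (D.star n).card ≤ D.M := by
  by_cases h : D.full n
  · exact (D.card_full n h).le
  · exact (D.card_le n h).trans (Nat.sub_le _ _)

theorem lev_M_le : D.M ≤ Fintype.card D.W := by
  obtain ⟨i⟩ := D.lev_nonempty
  rw [← D.card_full _ (D.full_S i)]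
  exact Finset.card_le_univ _

theorem lev_cost_one (A : Finset D.W) : cost (fun _ => 1) A = Fintype.card D.W - A.card := by
  unfold cost
  rw [Finset.sum_const, smul_eq_mul, mul_one, Finset.card_univ_sdiff]

/-- links at level `t` with `b = 1`, `e = 0` -/
theorem link_level_t (U : Finset D.W) (hne : U.Nonempty) (hU : ∀ X ∈ D.XX, ¬ X ⊆ U) :
    Acyc (GamLk D.H D.XX (fun _ => 1) (fun _ => 0) D.t U) D.q := by
  obtain ⟨u, hu⟩ := hne
  intro j hj
  refine van_congr ?_ (D.thmC (fun w => if w = u then 2 else 1) (fun _ => 0) U hU j hj)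
  intro σ
  unfold GamLk Gam
  apply and_congr_right
  intro _
  apply exists_congr
  intro A
  apply and_congr_right
  intro _
  apply and_congr_right
  intro hd
  have huA : u ∉ A := by
    intro h
    exact Finset.disjoint_left.1 hd h (Finset.mem_union_right _ hu)
  have hcost : cost (fun w => if w = u then 2 else 1) A = cost (fun _ : D.W => 1) A + 1 := by
    unfold cost
    have hmem : u ∈ Finset.univ \ A := Finset.mem_sdiff.2 ⟨Finset.mem_univ _, huA⟩
    rw [← Finset.add_sum_erase _ _ hmem, ← Finset.add_sum_erase _ _ hmem]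
    rw [if_pos rfl, Finset.sum_congr rfl (g := fun _ => 1)]
    · ring
    · intro w hw
      exact if_neg (Finset.ne_of_mem_erase hw)
  rw [hcost]
  constructor <;> intro h <;> omega

theorem gam_level_t (E : Finset D.W) : Gam D.H D.XX (fun _ => 1) (fun _ => 0) D.t E ↔
    ∃ n, D.full n ∧ Disjoint (D.star n) E := by
  unfold Gam
  have hM := D.lev_M_le
  constructor
  · rintro ⟨A, hA, hd, hc⟩
    obtain ⟨n, hn⟩ := (D.indep_iff A).1 hA
    rw [lev_cost_one, Finset.sum_const_zero, add_zero] at hc
    unfold t at hc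
    have h1 : A.card ≤ Fintype.card D.W := Finset.card_le_univ _
    have h2 : D.M ≤ A.card := by omega
    have h3 := Finset.card_le_card hn
    have hfull : D.full n := by
      by_contra h
      have := D.card_le n h
      have := D.hM
      omega
    refine ⟨n, hfull, ?_⟩
    have h4 : A = D.star n := Finset.eq_of_subset_of_card_le hn (by
      rw [D.card_full n hfull]; exact h2)
    rw [← h4]
    exact hd
  · rintro ⟨n, hn, hd⟩
    refine ⟨D.star n, (D.indep_iff _).2 ⟨n, Finset.Subset.refl _⟩, hd, ?_⟩
    rw [lev_cost_one, Finset.sum_const_zero, add_zero, D.card_full n hn]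
    unfold t
    omega

theorem not_van_level_t :
    ¬ Van (Gam D.H D.XX (fun _ => 1) (fun _ => 0) D.t) (D.q - 1) := by
  have hdown : IsDown (Gam D.H D.XX (fun _ => 1) (fun _ => 0) D.t) := isDown_gam _ _ _ _ _
  let T : Finset D.W := Finset.univ.filter (fun w => D.z (D.base w) ≠ w)
  have hT : ∀ w, w ∈ T ↔ D.z (D.base w) ≠ w := by
    intro w
    simp [T]
  rw [van_iff_fib_of_dom hdown T]
  · have hcard : D.q = (Finset.univ.image D.z).card := by
      rw [Finset.card_image_of_injective _ D.z_inj, Finset.card_univ]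
      rfl
    rw [hcard]
    apply not_van_boundary
    · obtain ⟨i⟩ := D.lev_nonempty
      exact ⟨D.z i, Finset.mem_image_of_mem _ (Finset.mem_univ i)⟩
    · intro σ
      unfold fib
      rw [Finset.empty_union, gam_level_t]
      constructor
      · rintro ⟨h1, n, hn, h2⟩
        rw [Finset.ssubset_iff_subset_ne]
        constructor
        · intro w hw
          have h3 : w ∉ T := Finset.disjoint_left.1 h1 hw
          rw [hT, not_not] at h3
          exact Finset.mem_image.2 ⟨D.base w, Finset.mem_univ _, h3⟩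
        · rintro rfl
          obtain ⟨i, hi⟩ := D.full_z n hn
          exact Finset.disjoint_left.1 h2 hi (Finset.mem_image_of_mem _ (Finset.mem_univ i))
      · intro h
        obtain ⟨x, hx, hxσ⟩ := Finset.exists_of_ssubset h
        rw [Finset.mem_image] at hx
        obtain ⟨i, _, rfl⟩ := hx
        refine ⟨?_, D.S i, D.full_S i, ?_⟩
        · rw [Finset.disjoint_left]
          intro w hw hwT
          have h3 := h.1 hw
          rw [Finset.mem_image] at h3
          obtain ⟨j, _, rfl⟩ := h3
          rw [hT, D.base_z] at hwT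
          exact hwT rfl
        · rw [Finset.disjoint_left]
          intro w hw hwσ
          have h3 := h.1 hwσ
          rw [Finset.mem_image] at h3
          obtain ⟨j, _, rfl⟩ := h3
          rw [D.z_mem_S] at hw
          rw [hw] at hwσ
          exact hxσ hwσ
  · intro w _
    refine ⟨D.z (D.base w), ?_, ?_⟩
    · rw [hT, D.base_z, not_not]
    · intro σ hσ hG
      rw [gam_level_t] at hG ⊢
      obtain ⟨n, hn, hd⟩ := hG
      refine ⟨n, hn, ?_⟩
      rw [Finset.disjoint_insert_right]
      refine ⟨fun h => ?_, hd⟩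
      exact Finset.disjoint_left.1 hd (D.dom_base w n hn h) hσ

theorem XX_nonempty : ∀ X ∈ D.XX, X.Nonempty := by
  classical
  intro X hX
  unfold XX at hX
  rw [Finset.mem_union] at hX
  rcases hX with hX | hX
  · unfold XE at hX
    rw [Finset.mem_filter] at hX
    obtain ⟨_, w, w', _, rfl⟩ := hX
    exact ⟨w, Finset.mem_insert_self _ _⟩
  · unfold X2 at hX
    rw [Finset.mem_filter] at hX
    rw [← Finset.card_pos, hX.2.1]
    norm_num

theorem XX_dom : ∀ w, ∃ X ∈ D.XX, ∀ x ∈ X, D.H.Adj w x := by
  classical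
  intro w
  obtain ⟨i, hi⟩ := D.away w
  have hβ := D.hβ
  let b0 : Fin D.β := ⟨0, by omega⟩
  have hsub : ({D.v i b0 false, D.v i b0 true} : Finset D.W) ⊆ D.Y i := by
    intro x hx
    rw [Finset.mem_insert, Finset.mem_singleton] at hx
    rw [D.mem_Y]
    rcases hx with rfl | rfl
    · exact ⟨b0, false, rfl⟩
    · exact ⟨b0, true, rfl⟩
  refine ⟨{D.v i b0 false, D.v i b0 true}, ?_, fun x hx n => hi x (hsub hx) n⟩
  unfold XX
  apply Finset.mem_union_right
  unfold X2
  rw [Finset.mem_filter]
  refine ⟨Finset.mem_univ _, ?_, i, hsub⟩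
  rw [Finset.card_pair]
  intro h
  have := D.v_inj i (a₁ := (b0, false)) (a₂ := (b0, true)) h
  simp at this

/-- The existence of a design disproves monotonicity. -/
theorem not_monotone (D : Design) : ¬ Monotone387 := by
  classical
  obtain ⟨i0⟩ := D.lev_nonempty
  have hq : 1 ≤ D.q := by
    unfold q
    exact Fintype.card_pos_iff.2 ⟨i0⟩
  have ht : 1 ≤ D.t := by unfold t; omega
  refine not_monotone_of_KK (D.W ⊕ {X // X ∈ D.XX}) (GX D.H D.XX) D.t D.q ht hq
    (Sum.elim (fun _ => 1) (fun _ => 0)) ?_ ?_ ?_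
  · intro F hF
    have hA : Indep D.H F.toLeft := by
      intro v hv w hw hvw
      rw [Finset.mem_toLeft] at hv hw
      exact hF hv hw hvw
    obtain ⟨n, hn⟩ := (D.indep_iff _).1 hA
    have h1 := Finset.card_le_card hn
    have h2 := D.lev_card_star_le n
    have h3 : cost (Sum.elim (fun _ => 1) (fun _ => 0)) F =
        cost (fun _ : D.W => 1) F.toLeft + ∑ X : {X // X ∈ D.XX}, if Sum.inr X ∈ F then 0 else 0 :=
      cost_sum D.XX (fun _ => 1) (fun _ => 0) F
    rw [h3, lev_cost_one]
    have hM := D.lev_M_le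
    unfold t
    omega
  · exact red_neg D.H D.XX D.XX_dom D.XX_nonempty (fun _ => 1) (fun _ => 0) D.t D.q hq
      D.link_level_t D.not_van_level_t
  · intro c
    let e : Finset D.W → ℕ := fun X => if h : X ∈ D.XX then c (Sum.inr ⟨X, h⟩) else 0
    have hc : c = Sum.elim (fun w => c (Sum.inl w)) (fun X : {X // X ∈ D.XX} => e X.1) := by
      funext x
      rcases x with w | X
      · rfl
      · rw [Sum.elim_inr]
        change c (Sum.inr X) = if h : X.1 ∈ D.XX then c (Sum.inr ⟨X.1, h⟩) else 0
        rw [dif_pos X.2]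
    rw [hc]
    exact red_pos D.H D.XX D.XX_dom D.XX_nonempty _ e (D.t + 1) D.q (fun U hU => D.thmC _ e U hU)

end Design

end Pool.Agent.H40.SD
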