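import Pool.Agent.H40.SD.Design

/-! # The explicit model: definitions

Types of elements `Ty`, labels `Lab`, positions `Pos = Lab → ZMod 5`, types of stars `Nu`.
Elements are pairs `(τ, x)`, stars are pairs `(ν, y)`, and `(τ, x)` lies in `(ν, y)` iff
`y = x + E o` for some `o : Option Lab` with `Inc τ ν o`. -/

set_option autoImplicit false

namespace Pool.Agent.H40.SD.Model

open Finset

/-- colours of a position: two paired ones, four free ones -/
inductive Col
  | a (ε : Bool)
  | f (j : Fin 4)
  deriving DecidableEq, Fintype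

/-- element types -/
inductive Ty
  | Z (c : Col)
  | V (c : Col) (b : Fin 11) (ε : Bool)
  | I (ε : Bool)
  | PA (ε : Bool) (k : Fin 42)
  | PF (j : Fin 4) (k : Fin 44)
  deriving DecidableEq, Fintype

/-- the base colour of an element type -/
def Ty.base : Ty → Col
  | .Z c => c
  | .V c _ _ => c
  | .I ε => .a ε
  | .PA ε _ => .a ε
  | .PF j _ => .f j

/-- the target colours of the fillers `PA`, `PF` -/
def tgtA (ε : Bool) (k : Fin 42) : Fin 4 := Fin.ofNat 4 (k.val + if ε then 2 else 0)

def tgtF (j : Fin 4) : Fin 4 := j + 1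

/-- the fillers -/
def Ty.isFil : Ty → Bool
  | .Z _ => false
  | .V _ _ _ => false
  | .I _ => true
  | .PA _ _ => true
  | .PF _ _ => true

/-- the half of the fillers used by the filler star `FF j` -/
def Ty.half : Ty → Bool
  | .Z _ => false
  | .V _ _ _ => false
  | .I ε => ε
  | .PA ε _ => ε
  | .PF j _ => decide (2 ≤ j.val)

/-- labels -/
inductive Lab
  | blk (c : Col) (b : Fin 11)
  | phi (τ : Ty)
  | ff (τ : Ty)
  | slot (A : Finset Ty) (α : Fin 600) (τ : Ty)
  deriving DecidableEq

noncomputable instance : Fintype Lab :=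
  Fintype.ofInjective
    (fun l : Lab => (match l with
      | .blk c b => Sum.inl (Sum.inl (c, b))
      | .phi τ => Sum.inl (Sum.inr (false, τ))
      | .ff τ => Sum.inl (Sum.inr (true, τ))
      | .slot A α τ => Sum.inr (A, α, τ) :
      ((Col × Fin 11) ⊕ (Bool × Ty)) ⊕ (Finset Ty × Fin 600 × Ty)))
    (by rintro (_ | _ | _ | _) (_ | _ | _ | _) h <;> simp_all)

/-- positions -/
abbrev Pos := Lab → ZMod 5

/-- star types -/
inductive Nu
  | S (c : Col)
  | P
  | FF (j : Bool)
  | K (A : Finset Ty) (α : Fin 600)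
  deriving DecidableEq

/-- kill types: singletons and nonempty sets of `y`-types of one colour -/
def KT (A : Finset Ty) : Prop := A.Nonempty ∧ (A.card = 1 ∨ ∃ c, ∀ τ ∈ A, ∃ b ε, τ = .V c b ε)

/-- shift vectors -/
def E : Option Lab → Pos
  | none => 0
  | some l => Pi.single l 1

theorem card_fillers : (univ.filter (fun τ : Ty => τ.isFil = true)).card = 262 := by
  decide +kernel

theorem exists_fil (A : Finset Ty) (_hA : KT A) :
    ∃ F : Finset Ty, F ⊆ univ.filter (fun τ => τ.isFil = true ∧ τ ∉ A) ∧ F.card = 131 - A.card := by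
  apply Finset.exists_subset_card_eq
  have h1 : (univ.filter (fun τ : Ty => τ.isFil = true)) \ A =
      univ.filter (fun τ => τ.isFil = true ∧ τ ∉ A) := by
    ext τ; simp
  rw [← h1]
  have h2 := Finset.le_card_sdiff A (univ.filter (fun τ : Ty => τ.isFil = true))
  rw [card_fillers] at h2
  omega

open Classical in
/-- the fillers used in the kill stars of `A` -/
noncomputable def fil (A : Finset Ty) : Finset Ty :=
  if hA : KT A then (exists_fil A hA).choose else ∅

/-- type-level incidences with their labels -/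
inductive Inc : Ty → Nu → Option Lab → Prop
  | base (τ : Ty) : Inc τ (.S τ.base) none
  | pair (τ : Ty) (ε : Bool) (h : τ.base = .a ε) : Inc τ .P none
  | blk (c : Col) (b : Fin 11) (ε : Bool) : Inc (.V c b ε) (.S (.a ε)) (some (.blk c b))
  | pa (ε : Bool) (k : Fin 42) :
      Inc (.PA ε k) (.S (.f (tgtA ε k))) (some (.phi (.PA ε k)))
  | pf (j : Fin 4) (k : Fin 44) :
      Inc (.PF j k) (.S (.f (tgtF j))) (some (.phi (.PF j k)))
  | ff (τ : Ty) (j : Bool) (h : τ.isFil = true) (hj : τ.half = j) :
      Inc τ (.FF j) (some (.ff τ))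
  | kin (A : Finset Ty) (α : Fin 600) (τ : Ty) (hA : KT A) (h : τ ∈ A) : Inc τ (.K A α) none
  | kout (A : Finset Ty) (α : Fin 600) (τ : Ty) (hA : KT A) (h : τ ∈ fil A) :
      Inc τ (.K A α) (some (.slot A α τ))

/-- elements, stars and colours of the model -/
abbrev WW := Ty × Pos
abbrev SS := Nu × Pos
abbrev II := Col × Pos

open Classical in
/-- a star as a set of elements -/
noncomputable def starM (n : SS) : Finset WW :=
  univ.filter (fun w => ∃ o, Inc w.1 n.1 o ∧ n.2 = w.2 + E o)

theorem mem_starM (w : WW) (n : SS) : w ∈ starM n ↔ ∃ o, Inc w.1 n.1 o ∧ n.2 = w.2 + E o := by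
  simp [starM]

def fullM (n : SS) : Prop := (∃ c, n.1 = .S c) ∨ n.1 = .P

def zM (i : II) : WW := (.Z i.1, i.2)

def baseM (w : WW) : II := (w.1.base, w.2)

open Classical in
noncomputable def YM (i : II) : Finset WW := univ.filter (fun w => ∃ b ε, w = (.V i.1 b ε, i.2))

def vM (i : II) (b : Fin 11) (ε : Bool) : WW := (.V i.1 b ε, i.2)

def kkM (i : II) (b : Fin 11) (ε : Bool) : II := (.a ε, i.2 + E (some (.blk i.1 b)))

def ppM (i : II) (b : Fin 11) : SS := (.P, i.2 + E (some (.blk i.1 b)))

end Pool.Agent.H40.SD.Model
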