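import Pool.Agent.H40.SD.Model

/-! # The model: sizes of the stars -/

set_option autoImplicit false

namespace Pool.Agent.H40.SD.Model

open Finset

theorem E_inj : Function.Injective E := by
  intro a b h
  cases a with
  | none =>
    cases b with
    | none => rfl
    | some l =>
      exfalso
      have h1 := congrFun h l
      simp only [E, Pi.single_eq_same, Pi.zero_apply] at h1
      revert h1; decide
  | some l =>
    cases b with
    | none =>
      exfalso
      have h1 := congrFun h l
      simp only [E, Pi.single_eq_same, Pi.zero_apply] at h1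
      revert h1; decide
    | some l' =>
      have h1 := congrFun h l
      simp only [E, Pi.single_eq_same] at h1
      by_cases hl : l = l'
      · rw [hl]
      · exfalso
        rw [Pi.single_eq_of_ne hl] at h1
        revert h1; decide

/-- a part of a star: the elements of type in `T`, attached with label `l τ` -/
noncomputable def part (T : Finset Ty) (l : Ty → Option Lab) (y : Pos) : Finset WW :=
  T.image (fun τ => (τ, y - E (l τ)))

theorem card_part (T : Finset Ty) (l : Ty → Option Lab) (y : Pos) :
    (part T l y).card = T.card := by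
  apply Finset.card_image_of_injOn
  intro a _ b _ h
  exact (Prod.ext_iff.mp h).1

theorem mem_part (T : Finset Ty) (l : Ty → Option Lab) (y : Pos) (w : WW) :
    w ∈ part T l y ↔ w.1 ∈ T ∧ y = w.2 + E (l w.1) := by
  simp only [part, mem_image]
  constructor
  · rintro ⟨τ, hτ, rfl⟩
    exact ⟨hτ, by simp⟩
  · rintro ⟨h, h'⟩
    exact ⟨w.1, h, by rw [h']; ext <;> simp⟩

theorem disj_part (T T' : Finset Ty) (l l' : Ty → Option Lab) (y : Pos)
    (h : ∀ τ ∈ T, τ ∈ T' → l τ ≠ l' τ) : Disjoint (part T l y) (part T' l' y) := by
  rw [Finset.disjoint_left]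
  intro w hw hw'
  rw [mem_part] at hw hw'
  apply h _ hw.1 hw'.1
  apply E_inj
  have := hw.2.symm.trans hw'.2
  exact add_left_cancel this

theorem card_star_of (ν : Nu) (y : Pos) (T T' : Finset Ty) (l' : Ty → Lab)
    (h : ∀ τ o, Inc τ ν o ↔ (τ ∈ T ∧ o = none) ∨ (τ ∈ T' ∧ o = some (l' τ))) :
    (starM (ν, y)).card = T.card + T'.card := by
  classical
  have h1 : starM (ν, y) = part T (fun _ => none) y ∪ part T' (fun τ => some (l' τ)) y := by
    ext w
    rw [mem_starM, mem_union, mem_part, mem_part]
    constructor
    · rintro ⟨o, ho, hy⟩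
      rcases (h _ _).1 ho with ⟨h2, rfl⟩ | ⟨h2, rfl⟩
      · exact Or.inl ⟨h2, hy⟩
      · exact Or.inr ⟨h2, hy⟩
    · rintro (⟨h2, hy⟩ | ⟨h2, hy⟩)
      · exact ⟨none, (h _ _).2 (Or.inl ⟨h2, rfl⟩), hy⟩
      · exact ⟨_, (h _ _).2 (Or.inr ⟨h2, rfl⟩), hy⟩
  rw [h1, Finset.card_union_of_disjoint, card_part, card_part]
  apply disj_part
  intro τ _ _ h2
  cases h2

theorem card_Sa (ε : Bool) (y : Pos) : (starM (.S (.a ε), y)).card = 132 := by
  rw [card_star_of (.S (.a ε)) y (univ.filter (fun τ => τ.base = .a ε))
    (univ.filter (fun τ => (match τ with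
      | .V _ _ ε' => decide (ε' = ε)
      | _ => false) = true))
    (fun τ => match τ with
      | .V c b _ => .blk c b
      | _ => .ff τ)]
  · revert ε; decide +kernel
  · intro τ o
    simp only [mem_filter, mem_univ, true_and]
    constructor
    · intro h
      generalize hν : Nu.S (.a ε) = ν at h
      cases h with
      | base => left; simp only [Nu.S.injEq] at hν; exact ⟨hν.symm, rfl⟩
      | blk c b => right; simp only [Nu.S.injEq, Col.a.injEq] at hν; simp [hν]
      | _ => simp at hν
    · rintro (⟨h, rfl⟩ | ⟨h, h'⟩)
      · rw [← h]; exact Inc.base _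
      · cases τ with
        | V c b ε' =>
          simp only [decide_eq_true_eq] at h
          subst h
          simp only at h'
          subst h'
          exact Inc.blk c b ε'
        | _ => simp at h

theorem card_Sf (j : Fin 4) (y : Pos) : (starM (.S (.f j), y)).card = 132 := by
  rw [card_star_of (.S (.f j)) y (univ.filter (fun τ => τ.base = .f j))
    (univ.filter (fun τ => (match τ with
      | .PA ε k => decide (tgtA ε k = j)
      | .PF j' _ => decide (tgtF j' = j)
      | _ => false) = true))
    (fun τ => .phi τ)]
  · revert j; decide +kernel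
  · intro τ o
    simp only [mem_filter, mem_univ, true_and]
    constructor
    · intro h
      generalize hν : Nu.S (.f j) = ν at h
      cases h with
      | base => left; simp only [Nu.S.injEq] at hν; exact ⟨hν.symm, rfl⟩
      | pa ε k => right; simp only [Nu.S.injEq, Col.f.injEq] at hν; simp [hν]
      | pf j' k => right; simp only [Nu.S.injEq, Col.f.injEq] at hν; simp [hν]
      | _ => simp at hν
    · rintro (⟨h, rfl⟩ | ⟨h, rfl⟩)
      · rw [← h]; exact Inc.base _
      · cases τ with
        | PA ε k =>
          simp only [decide_eq_true_eq] at h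
          rw [← h]
          exact Inc.pa ε k
        | PF j' k =>
          simp only [decide_eq_true_eq] at h
          rw [← h]
          exact Inc.pf j' k
        | _ => simp at h

theorem card_S (c : Col) (y : Pos) : (starM (.S c, y)).card = 132 := by
  cases c with
  | a ε => exact card_Sa ε y
  | f j => exact card_Sf j y

theorem card_P (y : Pos) : (starM (.P, y)).card = 132 := by
  rw [card_star_of .P y (univ.filter (fun τ => τ.base = .a false ∨ τ.base = .a true)) ∅
    (fun τ => .phi τ)]
  · decide +kernel
  · intro τ o
    simp only [mem_filter, mem_univ, true_and, notMem_empty, false_and, or_false]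
    constructor
    · intro h
      cases h with
      | pair τ ε h => cases ε <;> simp [h]
    · rintro ⟨h | h, rfl⟩
      · exact Inc.pair _ _ h
      · exact Inc.pair _ _ h

theorem card_FF (j : Bool) (y : Pos) : (starM (.FF j, y)).card = 131 := by
  rw [card_star_of (.FF j) y ∅ (univ.filter (fun τ => τ.isFil = true ∧ τ.half = j))
    (fun τ => .ff τ)]
  · revert j; decide +kernel
  · intro τ o
    simp only [mem_filter, mem_univ, true_and, notMem_empty, false_and, false_or]
    constructor
    · intro h
      cases h with
      | ff τ j h hj => exact ⟨⟨h, hj⟩, rfl⟩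
    · rintro ⟨h, rfl⟩
      exact Inc.ff _ _ h.1 h.2

theorem fil_spec (A : Finset Ty) (hA : KT A) :
    fil A ⊆ univ.filter (fun τ => τ.isFil = true ∧ τ ∉ A) ∧ (fil A).card = 131 - A.card := by
  have h : fil A = (exists_fil A hA).choose := by
    unfold fil
    rw [dif_pos hA]
  rw [h]
  exact (exists_fil A hA).choose_spec

theorem card_KT_le (A : Finset Ty) (hA : KT A) : A.card ≤ 22 := by
  rcases hA.2 with h | ⟨c, hc⟩
  · omega
  · have h1 : A ⊆ (univ : Finset (Fin 11 × Bool)).image (fun p => Ty.V c p.1 p.2) := by
      intro τ hτ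
      obtain ⟨b, ε, h⟩ := hc τ hτ
      rw [mem_image]
      exact ⟨(b, ε), mem_univ _, h.symm⟩
    have h2 := (Finset.card_le_card h1).trans Finset.card_image_le
    simpa using h2

theorem card_K (A : Finset Ty) (α : Fin 600) (y : Pos) (hA : KT A) :
    (starM (.K A α, y)).card = 131 := by
  rw [card_star_of (.K A α) y A (fil A) (fun τ => .slot A α τ)]
  · rw [(fil_spec A hA).2]
    have := card_KT_le A hA
    omega
  · intro τ o
    constructor
    · intro h
      cases h with
      | kin _ _ _ _ h => exact Or.inl ⟨h, rfl⟩
      | kout _ _ _ _ h => exact Or.inr ⟨h, rfl⟩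
    · rintro (⟨h, rfl⟩ | ⟨h, rfl⟩)
      · exact Inc.kin _ _ _ hA h
      · exact Inc.kout _ _ _ hA h

theorem card_K_not (A : Finset Ty) (α : Fin 600) (y : Pos) (hA : ¬ KT A) :
    (starM (.K A α, y)).card = 0 := by
  rw [card_star_of (.K A α) y ∅ ∅ (fun τ => .ff τ)]
  · rfl
  · intro τ o
    simp only [notMem_empty, false_and, or_false, iff_false]
    intro h
    cases h with
    | kin _ _ _ hA' h => exact hA hA'
    | kout _ _ _ hA' h => exact hA hA'

end Pool.Agent.H40.SD.Model
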