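import Pool.Agent.H40.SD.Model

/-! # The model: counting axiom -/

set_option autoImplicit false

namespace Pool.Agent.H40.SD.Model

open Finset

private lemma E_injective : Function.Injective E := by
  intro a b h
  rcases a with _ | a <;> rcases b with _ | b
  · rfl
  · have := congrFun h b
    simp only [E, Pi.zero_apply, Pi.single_eq_same] at this
    exact absurd this (by decide)
  · have := congrFun h a
    simp only [E, Pi.zero_apply, Pi.single_eq_same] at this
    exact absurd this (by decide)
  · congr 1
    by_contra hne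
    have := congrFun h a
    simp only [E, Pi.single_eq_same, Pi.single_eq_of_ne hne] at this
    exact absurd this (by decide)

private lemma phi_unique {τ τ' : Ty} {ν : Nu} (h : Inc τ' ν (some (.phi τ))) : τ' = τ := by
  generalize ho : some (Lab.phi τ) = o at h
  cases h <;> simp_all

private lemma ff_unique {τ τ' : Ty} {ν : Nu} (h : Inc τ' ν (some (.ff τ))) : τ' = τ := by
  generalize ho : some (Lab.ff τ) = o at h
  cases h <;> simp_all

private lemma slot_unique {τ τ' : Ty} {ν : Nu} {A : Finset Ty} {α : Fin 600}
    (h : Inc τ' ν (some (.slot A α τ))) : τ' = τ := by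
  generalize ho : some (Lab.slot A α τ) = o at h
  cases h <;> simp_all

private lemma base_mem_P {U : Finset WW} {P : Finset II}
    (hP : ∀ u ∈ U, ∀ i, (∀ n', fullM n' → zM i ∈ starM n' → u ∈ starM n') → i ∈ P)
    {u : WW} (hu : u ∈ U) : baseM u ∈ P := by
  refine hP u hu _ ?_
  rintro ⟨ν, y⟩ hfull hz
  rw [mem_starM] at hz ⊢
  obtain ⟨o, ho, hy⟩ := hz
  simp only [zM, baseM] at ho hy
  rcases hfull with ⟨c, hc⟩ | hc
  · simp only at hc
    subst hc
    generalize hτ : Ty.Z (u.1.base) = τ at ho
    cases ho with
    | base =>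
      subst hτ
      exact ⟨none, Inc.base _, hy⟩
    | blk => exact absurd hτ (by simp)
    | pa => exact absurd hτ (by simp)
    | pf => exact absurd hτ (by simp)
  · simp only at hc
    subst hc
    generalize hτ : Ty.Z (u.1.base) = τ at ho
    cases ho with
    | pair _ ε h =>
      subst hτ
      exact ⟨none, Inc.pair _ ε h, hy⟩

private lemma tgt_mem_P {U : Finset WW} {P : Finset II}
    (hP : ∀ u ∈ U, ∀ i, (∀ n', fullM n' → zM i ∈ starM n' → u ∈ starM n') → i ∈ P)
    {τ : Ty} {x : Pos} {j : Fin 4} (hu : (τ, x) ∈ U)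
    (hinc : Inc τ (.S (.f j)) (some (.phi τ))) :
    ((Col.f j, x + E (some (.phi τ))) : II) ∈ P := by
  refine hP _ hu _ ?_
  rintro ⟨ν, y⟩ hfull hz
  rw [mem_starM] at hz ⊢
  obtain ⟨o, ho, hy⟩ := hz
  simp only [zM] at ho hy
  rcases hfull with ⟨c, hc⟩ | hc
  · simp only at hc
    subst hc
    generalize hτ : Ty.Z (Col.f j) = τ' at ho
    cases ho with
    | base =>
      subst hτ
      refine ⟨_, hinc, ?_⟩
      simpa [E] using hy
    | blk => exact absurd hτ (by simp)
    | pa => exact absurd hτ (by simp)
    | pf => exact absurd hτ (by simp)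
  · simp only at hc
    subst hc
    generalize hτ : Ty.Z (Col.f j) = τ' at ho
    cases ho with
    | pair _ ε h =>
      subst hτ
      simp [Ty.base] at h

/-- the types `V` -/
private def isV : Ty → Prop
  | .V _ _ _ => True
  | _ => False

/-- the types `PA`, `PF` -/
private def isPhi : Ty → Prop
  | .PA _ _ => True
  | .PF _ _ => True
  | _ => False

private def tgtC : Ty → Col
  | .PA ε k => .f (tgtA ε k)
  | .PF j _ => .f (tgtF j)
  | τ => τ.base

open Classical in
theorem count (n : SS) (U : Finset WW) (P : Finset II) (hU : U ⊆ starM n)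
    (hY : ∀ i, (U ∩ YM i).card ≤ 1)
    (hP : ∀ u ∈ U, ∀ i, (∀ n', fullM n' → zM i ∈ starM n' → u ∈ starM n') → i ∈ P) :
    U.card ≤ 3 * P.card + 4 := by
  obtain ⟨ν, y⟩ := n
  -- the four parts
  have hA : (U.filter (fun u => isV u.1)).card ≤ P.card := by
    refine Finset.card_le_card_of_injOn baseM ?_ ?_
    · intro u hu
      exact base_mem_P hP (Finset.mem_filter.1 hu).1
    · rintro ⟨τ, x⟩ hu ⟨τ', x'⟩ hu' h
      simp only [coe_filter, Set.mem_ofPred_eq] at hu hu'
      obtain ⟨hu1, hu2⟩ := hu
      obtain ⟨hu1', hu2'⟩ := hu'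
      cases τ <;> simp only [isV] at hu2
      rename_i c b ε
      cases τ' <;> simp only [isV] at hu2'
      rename_i c' b' ε'
      simp only [baseM, Ty.base, Prod.mk.injEq] at h
      obtain ⟨hc, hx⟩ := h
      subst hc
      subst hx
      exact Finset.card_le_one.1 (hY (c, x)) _
        (mem_inter.2 ⟨hu1, mem_filter.2 ⟨mem_univ _, b, ε, rfl⟩⟩) _
        (mem_inter.2 ⟨hu1', mem_filter.2 ⟨mem_univ _, b', ε', rfl⟩⟩)
  have hB : (U.filter (fun u => isPhi u.1 ∧ u.2 = y)).card ≤ P.card := by
    refine Finset.card_le_card_of_injOn (fun u => ((tgtC u.1, u.2 + E (some (.phi u.1))) : II)) ?_ ?_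
    · rintro ⟨τ, x⟩ hu
      simp only [coe_filter, Set.mem_ofPred_eq] at hu
      obtain ⟨hu1, hu2, hu3⟩ := hu
      cases τ <;> simp only [isPhi] at hu2
      · exact tgt_mem_P hP hu1 (Inc.pa _ _)
      · exact tgt_mem_P hP hu1 (Inc.pf _ _)
    · rintro ⟨τ, x⟩ hu ⟨τ', x'⟩ hu' h
      simp only [coe_filter, Set.mem_ofPred_eq] at hu hu'
      obtain ⟨hu1, hu2, hu3⟩ := hu
      obtain ⟨hu1', hu2', hu3'⟩ := hu'
      subst hu3
      subst hu3'
      simp only [Prod.mk.injEq, add_right_inj] at h
      have := E_injective h.2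
      simp only [Option.some.injEq, Lab.phi.injEq] at this
      rw [this]
  have hC : (U.filter (fun u => ¬ isV u.1 ∧ u.2 ≠ y)).card ≤ P.card := by
    refine Finset.card_le_card_of_injOn baseM ?_ ?_
    · intro u hu
      exact base_mem_P hP (Finset.mem_filter.1 hu).1
    · -- the label determines the type
      have key : ∀ τ x, ¬ isV τ → x ≠ y → (τ, x) ∈ U → ∃ l : Lab, y = x + E (some l) ∧
          (∀ τ' x', ¬ isV τ' → x' ≠ y → (τ', x') ∈ U → y = x' + E (some l) → τ' = τ) := by
        intro τ x hV hx hu
        have h1 := hU hu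
        rw [mem_starM] at h1
        obtain ⟨o, ho, hy⟩ := h1
        simp only at ho hy
        have hne : o ≠ none := by
          rintro rfl
          exact hx (by simpa [E] using hy.symm)
        obtain ⟨l, rfl⟩ := Option.ne_none_iff_exists'.1 hne
        refine ⟨l, hy, ?_⟩
        intro τ' x' hV' hx' hu' hy'
        have h1' := hU hu'
        rw [mem_starM] at h1'
        obtain ⟨o', ho', hy''⟩ := h1'
        simp only at ho' hy''
        have : o' = some l := E_injective (add_left_cancel (hy''.symm.trans hy'))
        subst this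
        cases ho with
        | blk => exact absurd trivial hV
        | pa => exact phi_unique ho'
        | pf => exact phi_unique ho'
        | ff => exact ff_unique ho'
        | kout => exact slot_unique ho'
      rintro ⟨τ, x⟩ hu ⟨τ', x'⟩ hu' h
      simp only [coe_filter, Set.mem_ofPred_eq] at hu hu'
      obtain ⟨hu1, hu2, hu3⟩ := hu
      obtain ⟨hu1', hu2', hu3'⟩ := hu'
      simp only [baseM, Prod.mk.injEq] at h
      obtain ⟨_, hx⟩ := h
      subst hx
      obtain ⟨l, hl, hkey⟩ := key τ x hu2 hu3 hu1
      rw [hkey τ' x hu2' hu3' hu1' hl]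
  have hD : (U.filter (fun u => ¬ isV u.1 ∧ ¬ isPhi u.1 ∧ u.2 = y)).card ≤ 4 := by
    have key : ∀ τ, (τ, y) ∈ U → Inc τ ν none := by
      intro τ hu
      have h1 := hU hu
      rw [mem_starM] at h1
      obtain ⟨o, ho, hy⟩ := h1
      simp only at ho hy
      have : E o = E none := by
        have h2 : y + E none = y + E o := by rw [← hy]; simp [E]
        exact (add_left_cancel h2).symm
      rw [E_injective this] at ho
      exact ho
    cases ν with
    | S c =>
      have hsub : U.filter (fun u => ¬ isV u.1 ∧ ¬ isPhi u.1 ∧ u.2 = y) ⊆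
          {(.Z c, y), (.I true, y), (.I false, y)} := by
        rintro ⟨τ, x⟩ hu
        simp only [mem_filter] at hu
        obtain ⟨hu1, hu2, hu3, hu4⟩ := hu
        subst hu4
        have hi := key τ hu1
        cases hi with
        | base =>
          cases τ with
          | Z c => simp [Ty.base]
          | V c b ε => exact absurd trivial hu2
          | I ε => cases ε <;> simp
          | PA ε k => exact absurd trivial hu3
          | PF j k => exact absurd trivial hu3
      exact (Finset.card_le_card hsub).trans ((Finset.card_le_three).trans (by norm_num))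
    | P =>
      have hsub : U.filter (fun u => ¬ isV u.1 ∧ ¬ isPhi u.1 ∧ u.2 = y) ⊆
          {(.Z (.a true), y), (.Z (.a false), y), (.I true, y), (.I false, y)} := by
        rintro ⟨τ, x⟩ hu
        simp only [mem_filter] at hu
        obtain ⟨hu1, hu2, hu3, hu4⟩ := hu
        subst hu4
        have hi := key τ hu1
        cases hi with
        | pair _ ε h =>
          cases τ with
          | Z c =>
            simp only [Ty.base] at h
            subst h
            cases ε <;> simp
          | V c b ε => exact absurd trivial hu2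
          | I ε => cases ε <;> simp
          | PA ε k => exact absurd trivial hu3
          | PF j k => exact absurd trivial hu3
      exact (Finset.card_le_card hsub).trans Finset.card_le_four
    | FF j =>
      have hsub : U.filter (fun u => ¬ isV u.1 ∧ ¬ isPhi u.1 ∧ u.2 = y) ⊆ ∅ := by
        rintro ⟨τ, x⟩ hu
        simp only [mem_filter] at hu
        obtain ⟨hu1, hu2, hu3, hu4⟩ := hu
        subst hu4
        have hi := key τ hu1
        cases hi
      exact (Finset.card_le_card hsub).trans (by simp)
    | K A α =>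
      have hmem : ∀ τ, (τ, y) ∈ U → τ ∈ A ∧ KT A := by
        intro τ hu
        have hi := key τ hu
        cases hi with
        | kin _ _ _ hA h => exact ⟨h, hA⟩
      by_cases hA : KT A
      · rcases hA.2 with h1 | ⟨c, h1⟩
        · obtain ⟨τ0, h0⟩ := Finset.card_eq_one.1 h1
          have hsub : U.filter (fun u => ¬ isV u.1 ∧ ¬ isPhi u.1 ∧ u.2 = y) ⊆ {(τ0, y)} := by
            rintro ⟨τ, x⟩ hu
            simp only [mem_filter] at hu
            obtain ⟨hu1, hu2, hu3, hu4⟩ := hu
            subst hu4
            have := (hmem τ hu1).1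
            rw [h0, mem_singleton] at this
            simp [this]
          exact (Finset.card_le_card hsub).trans (by simp)
        · have hsub : U.filter (fun u => ¬ isV u.1 ∧ ¬ isPhi u.1 ∧ u.2 = y) ⊆ ∅ := by
            rintro ⟨τ, x⟩ hu
            simp only [mem_filter] at hu
            obtain ⟨hu1, hu2, hu3, hu4⟩ := hu
            subst hu4
            obtain ⟨b, ε, hτ⟩ := h1 τ (hmem τ hu1).1
            subst hτ
            exact absurd trivial hu2
          exact (Finset.card_le_card hsub).trans (by simp)
      · have hsub : U.filter (fun u => ¬ isV u.1 ∧ ¬ isPhi u.1 ∧ u.2 = y) ⊆ ∅ := by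
          rintro ⟨τ, x⟩ hu
          simp only [mem_filter] at hu
          obtain ⟨hu1, hu2, hu3, hu4⟩ := hu
          subst hu4
          exact absurd (hmem τ hu1).2 hA
        exact (Finset.card_le_card hsub).trans (by simp)
  have hcover : U ⊆ U.filter (fun u => isV u.1) ∪ U.filter (fun u => isPhi u.1 ∧ u.2 = y) ∪
      U.filter (fun u => ¬ isV u.1 ∧ u.2 ≠ y) ∪
      U.filter (fun u => ¬ isV u.1 ∧ ¬ isPhi u.1 ∧ u.2 = y) := by
    intro u hu
    simp only [mem_union, mem_filter, hu, true_and]
    tauto
  have h1 := Finset.card_le_card hcover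
  have h2 := Finset.card_union_le (U.filter (fun u => isV u.1) ∪ U.filter (fun u => isPhi u.1 ∧ u.2 = y) ∪
      U.filter (fun u => ¬ isV u.1 ∧ u.2 ≠ y)) (U.filter (fun u => ¬ isV u.1 ∧ ¬ isPhi u.1 ∧ u.2 = y))
  have h3 := Finset.card_union_le (U.filter (fun u => isV u.1) ∪ U.filter (fun u => isPhi u.1 ∧ u.2 = y))
      (U.filter (fun u => ¬ isV u.1 ∧ u.2 ≠ y))
  have h4 := Finset.card_union_le (U.filter (fun u => isV u.1)) (U.filter (fun u => isPhi u.1 ∧ u.2 = y))
  omega

end Pool.Agent.H40.SD.Model
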