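import Pool.Agent.H40.SD.ModelCard

/-! # The model: kill stars -/

set_option autoImplicit false

namespace Pool.Agent.H40.SD.Model

open Finset

theorem fil_isFil {A : Finset Ty} {τ : Ty} (h : τ ∈ fil A) : τ.isFil = true ∧ τ ∉ A := by
  unfold fil at h
  split_ifs at h with hA
  · have h2 := (exists_fil A hA).choose_spec.1 h
    simpa using h2
  · simp at h

theorem E_none (l : Lab) : E none l = 0 := rfl

theorem E_self (l : Lab) : E (some l) l = 1 := by
  simp [E]

theorem E_ne {l l' : Lab} (h : l ≠ l') : E (some l') l = 0 := by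
  simp only [E]
  rw [Pi.single_apply, if_neg h]

theorem E_val (o : Option Lab) (l : Lab) : E o l = 0 ∨ E o l = 1 := by
  cases o with
  | none => left; rfl
  | some l' =>
    by_cases h : l = l'
    · right; rw [h, E_self]
    · left; exact E_ne h

/-- the label of a second representation -/
theorem lab_mem {o o0 : Option Lab} {l l0 : Lab}
    (h : E o + E (some l) = E o0 + E (some l0)) : l = l0 ∨ o0 = some l := by
  by_contra hcon
  push Not at hcon
  have h1 := congrFun h l
  simp only [Pi.add_apply] at h1
  rw [E_self, E_ne hcon.1] at h1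
  have h2 : E o0 l = 0 := by
    cases o0 with
    | none => rfl
    | some l' => exact E_ne (fun h => hcon.2 (by rw [h]))
  rw [h2] at h1
  rcases E_val o l with h3 | h3 <;> rw [h3] at h1 <;> revert h1 <;> decide

open Classical in
/-- the values `α` that are bad for an element at position `q` -/
noncomputable def badset (A : Finset Ty) (x q : Pos) : Finset (Fin 600) :=
  univ.filter (fun α => ∃ ψ o, x = q + E o + E (some (.slot A α ψ)))

theorem card_badset (A : Finset Ty) (x q : Pos) : (badset A x q).card ≤ 2 := by
  classical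
  by_cases hne : (badset A x q).Nonempty
  · obtain ⟨α0, h0⟩ := hne
    simp only [badset, mem_filter, mem_univ, true_and] at h0
    obtain ⟨ψ0, o0, h0⟩ := h0
    let g : Option Lab → Fin 600 := fun o => match o with
      | some (.slot _ α _) => α
      | _ => α0
    have hsub : badset A x q ⊆ {α0, g o0} := by
      intro α hα
      simp only [badset, mem_filter, mem_univ, true_and] at hα
      obtain ⟨ψ, o, hα⟩ := hα
      have h1 : E o + E (some (.slot A α ψ)) = E o0 + E (some (.slot A α0 ψ0)) := by
        have : q + (E o + E (some (.slot A α ψ))) = q + (E o0 + E (some (.slot A α0 ψ0))) := by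
          rw [← add_assoc, ← add_assoc, ← hα, ← h0]
        exact add_left_cancel this
      rcases lab_mem h1 with h2 | h2
      · simp only [Lab.slot.injEq, true_and] at h2
        simp [h2.1]
      · rw [mem_insert, mem_singleton]
        right
        rw [h2]
    calc (badset A x q).card ≤ ({α0, g o0} : Finset (Fin 600)).card := card_le_card hsub
      _ ≤ 2 := card_le_two
  · rw [not_nonempty_iff_eq_empty] at hne
    rw [hne]
    simp

theorem kill (A B : Finset WW) (hne : A.Nonempty) (hA : A.card = 1 ∨ ∃ i, A ⊆ YM i)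
    (hB : B.card ≤ 265) :
    ∃ n, A ⊆ starM n ∧ 131 ≤ (starM n).card ∧ ∀ φ ∈ starM n, φ ∉ A →
      (∀ i, φ ∉ YM i) ∧ zM (baseM φ) ∉ starM n ∧
      ∀ n', zM (baseM φ) ∈ starM n' → Disjoint (starM n') B := by
  classical
  -- normal form of `A`
  obtain ⟨A', x, hKT, hAeq⟩ : ∃ (A' : Finset Ty) (x : Pos), KT A' ∧
      ∀ w : WW, w ∈ A ↔ w.1 ∈ A' ∧ w.2 = x := by
    rcases hA with h1 | ⟨i, hi⟩
    · obtain ⟨w, rfl⟩ := card_eq_one.mp h1
      refine ⟨{w.1}, w.2, ⟨singleton_nonempty _, Or.inl (card_singleton _)⟩, fun w' => ?_⟩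
      rw [mem_singleton, mem_singleton, Prod.ext_iff]
    · refine ⟨A.image Prod.fst, i.2, ⟨hne.image _, Or.inr ⟨i.1, ?_⟩⟩, ?_⟩
      · intro τ hτ
        obtain ⟨w, hw, rfl⟩ := mem_image.mp hτ
        have h1 := hi hw
        simp only [YM, mem_filter, mem_univ, true_and] at h1
        obtain ⟨b, ε, h2⟩ := h1
        exact ⟨b, ε, by rw [h2]⟩
      · intro w
        have hpos : ∀ w' ∈ A, w'.2 = i.2 := by
          intro w' hw'
          have h1 := hi hw'
          simp only [YM, mem_filter, mem_univ, true_and] at h1
          obtain ⟨b, ε, h2⟩ := h1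
          rw [h2]
        constructor
        · intro hw
          exact ⟨mem_image_of_mem _ hw, hpos w hw⟩
        · rintro ⟨h1, h2⟩
          obtain ⟨w', hw', h3⟩ := mem_image.mp h1
          have : w = w' := Prod.ext h3.symm (by rw [h2, hpos w' hw'])
          rw [this]
          exact hw'
  -- a good value of `α`
  obtain ⟨α, hα⟩ : ∃ α : Fin 600, ∀ u ∈ B, α ∉ badset A' x u.2 := by
    by_contra hcon
    push Not at hcon
    have h1 : (univ : Finset (Fin 600)) ⊆ B.biUnion (fun u => badset A' x u.2) := by
      intro α _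
      obtain ⟨u, hu, hu2⟩ := hcon α
      exact mem_biUnion.mpr ⟨u, hu, hu2⟩
    have h2 := card_le_card h1
    have h3 := card_biUnion_le_card_mul B (fun u => badset A' x u.2) 2
      (fun u _ => card_badset A' x u.2)
    rw [card_univ, Fintype.card_fin] at h2
    omega
  refine ⟨(.K A' α, x), ?_, (card_K A' α x hKT).ge, ?_⟩
  · intro w hw
    obtain ⟨h1, h2⟩ := (hAeq w).mp hw
    rw [mem_starM]
    exact ⟨none, Inc.kin A' α w.1 hKT h1, by simp [E, h2]⟩
  · intro φ hφ hφA
    rw [mem_starM] at hφ
    obtain ⟨o, ho, hpos⟩ := hφ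
    obtain ⟨ψ, p⟩ := φ
    simp only at ho hpos
    have hcase : ψ ∈ fil A' ∧ x = p + E (some (.slot A' α ψ)) := by
      cases ho with
      | kin _ _ _ _ h =>
        exfalso
        apply hφA
        rw [hAeq]
        exact ⟨h, by simpa [E] using hpos.symm⟩
      | kout _ _ _ _ h => exact ⟨h, hpos⟩
    obtain ⟨hψ, hx⟩ := hcase
    obtain ⟨hfil, hψA⟩ := fil_isFil hψ
    have hZfil : ∀ (c : Col) (A'' : Finset Ty), Ty.Z c ∉ fil A'' := by
      intro c A'' h
      have := (fil_isFil h).1
      simp [Ty.isFil] at this
    refine ⟨?_, ?_, ?_⟩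
    · intro i hi
      simp only [YM, mem_filter, mem_univ, true_and] at hi
      obtain ⟨b, ε, h2⟩ := hi
      have h3 : ψ = .V i.1 b ε := congrArg Prod.fst h2
      rw [h3] at hfil
      simp [Ty.isFil] at hfil
    · intro h
      rw [mem_starM] at h
      obtain ⟨o', ho', hp'⟩ := h
      simp only [zM, baseM] at ho' hp'
      cases ho' with
      | kin _ _ _ _ h =>
        have h1 : p + E (some (.slot A' α ψ)) = p + 0 := by
          rw [← hx, hp']; rfl
        have h2 := congrFun (add_left_cancel h1) (.slot A' α ψ)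
        rw [E_self] at h2
        change (1 : ZMod 5) = 0 at h2
        exact absurd h2 (by decide)
      | kout _ _ _ _ h => exact hZfil _ _ h
    · intro n' hn'
      rw [mem_starM] at hn'
      obtain ⟨o', ho', hp'⟩ := hn'
      simp only [zM, baseM] at ho' hp'
      have hn2 : n'.2 = p := by
        obtain ⟨ν, y⟩ := n'
        simp only at ho' hp' ⊢
        cases ho' with
        | base => simpa [E] using hp'
        | pair => simpa [E] using hp'
        | ff _ _ h => simp [Ty.isFil] at h
        | kin => simpa [E] using hp'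
        | kout _ _ _ _ h => exact absurd h (hZfil _ _)
      rw [disjoint_left]
      intro u hu huB
      rw [mem_starM] at hu
      obtain ⟨o'', -, hp''⟩ := hu
      apply hα u huB
      simp only [badset, mem_filter, mem_univ, true_and]
      exact ⟨ψ, o'', by rw [← hp'', hn2, ← hx]⟩

end Pool.Agent.H40.SD.Model
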