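import Pool.Agent.H40.SD.ModelHelly
import Pool.Agent.H40.SD.ModelKill
import Pool.Agent.H40.SD.ModelCount

/-! # The model: remaining axioms and the design -/

set_option autoImplicit false

namespace Pool.Agent.H40.SD.Model

open Finset

theorem fin_E_apply (o : Option Lab) (l : Lab) : E o l = 0 ∨ E o l = 1 := by
  cases o with
  | none => exact Or.inl rfl
  | some l' =>
    change Pi.single (M := fun _ => ZMod 5) l' 1 l = 0 ∨ Pi.single (M := fun _ => ZMod 5) l' 1 l = 1
    by_cases h : l = l'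
    · subst h
      rw [Pi.single_eq_same]; exact Or.inr rfl
    · rw [Pi.single_eq_of_ne h]; exact Or.inl rfl

theorem fin_E_some_self (l : Lab) : E (some l) l = 1 := by
  change Pi.single (M := fun _ => ZMod 5) l 1 l = 1
  rw [Pi.single_eq_same]

theorem fin_E_some_ne {l l' : Lab} (h : l ≠ l') : E (some l) l' = 0 := by
  change Pi.single (M := fun _ => ZMod 5) l 1 l' = 0
  rw [Pi.single_eq_of_ne h.symm]

theorem fin_E_some_inj {l l' : Lab} (h : E (some l) = E (some l')) : l = l' := by
  by_contra hne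
  have h1 := congrFun h l
  rw [fin_E_some_self, fin_E_some_ne (Ne.symm hne)] at h1
  exact absurd h1 (by decide)

theorem fin_E_some_ne_zero (l : Lab) : E (some l) ≠ 0 := by
  intro h
  have h1 := congrFun h l
  rw [fin_E_some_self, Pi.zero_apply] at h1
  exact absurd h1 (by decide)

theorem fin_isFil {A : Finset Ty} {τ : Ty} (h : τ ∈ fil A) : τ.isFil = true ∧ τ ∉ A := by
  unfold fil at h
  split_ifs at h with hA
  · have h1 := (exists_fil A hA).choose_spec.1 h
    rw [Finset.mem_filter] at h1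
    exact h1.2
  · exact absurd h (Finset.notMem_empty _)

/-- the stars containing a `z`-element -/
theorem fin_inc_Z {c : Col} {ν : Nu} {o : Option Lab} (h : Inc (.Z c) ν o) : o = none := by
  generalize hτ : Ty.Z c = τ at h
  cases h with
  | base => rfl
  | pair => rfl
  | blk => cases hτ
  | pa => cases hτ
  | pf => cases hτ
  | ff _ _ h => subst hτ; cases h
  | kin => rfl
  | kout A α _ hA h => subst hτ; cases (fin_isFil h).1

theorem fin_mem_Z {i : II} {n : SS} (h : zM i ∈ starM n) : Inc (.Z i.1) n.1 none ∧ n.2 = i.2 := by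
  rw [mem_starM] at h
  obtain ⟨o, h1, h2⟩ := h
  have h3 := fin_inc_Z h1
  subst h3
  refine ⟨h1, ?_⟩
  rw [h2]
  change i.2 + 0 = i.2
  rw [add_zero]

theorem fin_inc_S {τ : Ty} {c : Col} (h : Inc τ (.S c) none) : c = τ.base := by
  cases h; rfl

theorem fin_inc_P {τ : Ty} {o : Option Lab} (h : Inc τ .P o) : o = none ∧ ∃ ε, τ.base = .a ε := by
  cases h with
  | pair _ ε h => exact ⟨rfl, ε, h⟩

theorem fin_inc_FF {τ : Ty} {j : Bool} {o : Option Lab} (h : Inc τ (.FF j) o) :
    o = some (.ff τ) ∧ τ.isFil = true ∧ τ.half = j := by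
  cases h with
  | ff _ _ h1 h2 => exact ⟨rfl, h1, h2⟩

theorem away (w : WW) : ∃ i, ∀ y ∈ YM i, ∀ n, ¬ (w ∈ starM n ∧ y ∈ starM n) := by
  refine ⟨(.a false, w.2 + Pi.single (Lab.ff (.I false)) 2), ?_⟩
  rintro y hy n ⟨h1, h2⟩
  unfold YM at hy
  rw [Finset.mem_filter] at hy
  obtain ⟨_, b, ε, rfl⟩ := hy
  rw [mem_starM] at h1 h2
  obtain ⟨o, _, h3⟩ := h1
  obtain ⟨o', _, h4⟩ := h2
  rw [h3] at h4
  have h5 := congrFun h4 (Lab.ff (.I false))
  simp only [Pi.add_apply, Pi.single_eq_same] at h5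
  rw [add_assoc, add_right_inj] at h5
  rcases fin_E_apply o (Lab.ff (.I false)) with h6 | h6 <;>
    rcases fin_E_apply o' (Lab.ff (.I false)) with h7 | h7 <;>
    rw [h6, h7] at h5 <;> exact absurd h5 (by decide)

/-- the far colours sit at the positions `2 e_λ` -/
noncomputable def farM (a : Fin 136) : II :=
  (.a false, Pi.single (Lab.slot ∅ ⟨a.val, by omega⟩ (.I false)) 2)

theorem far_disj (a b : Fin 136) (hab : a ≠ b) (n n' : SS) (h : zM (farM a) ∈ starM n)
    (h' : zM (farM b) ∈ starM n') : Disjoint (starM n) (starM n') := by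
  rw [Finset.disjoint_left]
  intro w hw hw'
  have h1 := (fin_mem_Z h).2
  have h2 := (fin_mem_Z h').2
  rw [mem_starM] at hw hw'
  obtain ⟨o, _, h3⟩ := hw
  obtain ⟨o', _, h4⟩ := hw'
  have h5 : (farM a).2 + E o' = (farM b).2 + E o := by
    rw [← h1, ← h2, h3, h4, add_assoc, add_assoc, add_comm (E o) (E o')]
  have h6 := congrFun h5 (Lab.slot ∅ ⟨a.val, by omega⟩ (.I false))
  have hne : (Lab.slot ∅ ⟨a.val, by omega⟩ (.I false) : Lab) ≠
      Lab.slot ∅ ⟨b.val, by omega⟩ (.I false) := by
    intro h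
    injection h with _ h
    have := congrArg Fin.val h
    exact hab (Fin.ext this)
  simp only [farM, Pi.add_apply, Pi.single_eq_same, Pi.single_eq_of_ne hne, zero_add] at h6
  rcases fin_E_apply o (Lab.slot ∅ ⟨a.val, by omega⟩ (.I false)) with h7 | h7 <;>
    rcases fin_E_apply o' (Lab.slot ∅ ⟨a.val, by omega⟩ (.I false)) with h8 | h8 <;>
    rw [h7, h8] at h6 <;> exact absurd h6 (by decide)

theorem ff_disj (a b : Bool × Pos) (hab : a ≠ b) :
    Disjoint (starM (.FF a.1, a.2)) (starM (.FF b.1, b.2)) := by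
  rw [Finset.disjoint_left]
  intro w hw hw'
  rw [mem_starM] at hw hw'
  obtain ⟨o, h1, h3⟩ := hw
  obtain ⟨o', h2, h4⟩ := hw'
  obtain ⟨rfl, _, h5⟩ := fin_inc_FF h1
  obtain ⟨rfl, _, h6⟩ := fin_inc_FF h2
  apply hab
  apply Prod.ext
  · rw [← h5, ← h6]
  · change a.2 = _ at h3
    change b.2 = _ at h4
    rw [h3, h4]

/-- classes of colours -/
def clsM (i : II) : Option (Fin 4) × Pos :=
  (match i.1 with
    | .a _ => none
    | .f j => some j, i.2)

theorem cls_star (n : SS) (i j : II) (hi : zM i ∈ starM n) (hj : zM j ∈ starM n) :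
    clsM i = clsM j := by
  obtain ⟨h1, h2⟩ := fin_mem_Z hi
  obtain ⟨h3, h4⟩ := fin_mem_Z hj
  obtain ⟨ci, xi⟩ := i
  obtain ⟨cj, xj⟩ := j
  obtain ⟨ν, y⟩ := n
  dsimp only at h1 h2 h3 h4
  subst h2
  subst h4
  suffices h : ci = cj ∨ ((∃ ε, ci = .a ε) ∧ ∃ ε, cj = .a ε) by
    rcases h with rfl | ⟨⟨ε, rfl⟩, ε', rfl⟩
    · rfl
    · rfl
  cases ν with
  | S c =>
    left
    exact (fin_inc_S h1).symm.trans (fin_inc_S h3)
  | P =>
    right
    exact ⟨(fin_inc_P h1).2, (fin_inc_P h3).2⟩
  | FF j => cases (fin_inc_FF h1).1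
  | K A α =>
    left
    have key : ∀ c : Col, Inc (.Z c) (.K A α) none → KT A ∧ Ty.Z c ∈ A := by
      intro c h
      cases h with
      | kin _ _ _ hA h => exact ⟨hA, h⟩
    obtain ⟨hA, h5⟩ := key _ h1
    obtain ⟨_, h6⟩ := key _ h3
    rcases hA.2 with h7 | ⟨c, h7⟩
    · rw [Finset.card_eq_one] at h7
      obtain ⟨a, rfl⟩ := h7
      rw [Finset.mem_singleton] at h5 h6
      rw [← h6] at h5
      injection h5
    · obtain ⟨b, ε, h8⟩ := h7 _ h5
      cases h8

theorem fin_card_Pos : 625 ≤ Fintype.card Pos := by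
  have h1 : 4 ≤ Fintype.card Lab := by
    have h2 : Function.Injective (fun a : Fin 600 => Lab.slot ∅ a (.I false)) := by
      intro a b h
      injection h
    have h3 := Fintype.card_le_of_injective _ h2
    rw [Fintype.card_fin] at h3
    omega
  have h2 : Fintype.card Pos = 5 ^ Fintype.card Lab := by
    unfold Pos
    rw [Fintype.card_fun, ZMod.card]
  rw [h2]
  calc 625 = 5 ^ 4 := by norm_num
    _ ≤ 5 ^ Fintype.card Lab := Nat.pow_le_pow_right (by norm_num) h1

theorem numeric : Fintype.card II + 132 + 2 ≤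
    Fintype.card (Bool × Pos) + Fintype.card (Option (Fin 4) × Pos) := by
  have h := fin_card_Pos
  have h1 : Fintype.card Col = 6 := by decide
  unfold II
  rw [Fintype.card_prod, Fintype.card_prod, Fintype.card_prod, h1, Fintype.card_bool,
    Fintype.card_option, Fintype.card_fin]
  omega

theorem fin_card_full (n : SS) (h : fullM n) : (starM n).card = 132 := by
  obtain ⟨ν, y⟩ := n
  rcases h with ⟨c, h⟩ | h
  · dsimp only at h
    subst h
    exact card_S c y
  · dsimp only at h
    subst h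
    exact card_P y

theorem fin_card_le (n : SS) (h : ¬ fullM n) : (starM n).card ≤ 132 - 1 := by
  obtain ⟨ν, y⟩ := n
  cases ν with
  | S c => exact absurd (Or.inl ⟨c, rfl⟩) h
  | P => exact absurd (Or.inr rfl) h
  | FF j => exact (card_FF j y).le
  | K A α =>
    by_cases hA : KT A
    · exact (card_K A α y hA).le
    · rw [card_K_not A α y hA]; exact Nat.zero_le _

theorem fin_dom_base (w : WW) (n : SS) (hn : fullM n) (h : zM (baseM w) ∈ starM n) :
    w ∈ starM n := by
  obtain ⟨h1, h2⟩ := fin_mem_Z h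
  obtain ⟨τ, x⟩ := w
  obtain ⟨ν, y⟩ := n
  change Inc (.Z τ.base) ν none at h1
  change y = x at h2
  subst h2
  rw [mem_starM]
  refine ⟨none, ?_, (add_zero _).symm⟩
  rcases hn with ⟨c, h3⟩ | h3
  · dsimp only at h3
    subst h3
    have h4 := fin_inc_S h1
    change c = τ.base at h4
    subst h4
    exact Inc.base τ
  · dsimp only at h3
    subst h3
    obtain ⟨_, ε, h4⟩ := fin_inc_P h1
    exact Inc.pair τ ε h4

theorem fin_z_mem_S (i j : II) : zM i ∈ starM (.S j.1, j.2) ↔ i = j := by
  constructor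
  · intro h
    obtain ⟨h1, h2⟩ := fin_mem_Z h
    have h3 := fin_inc_S h1
    exact Prod.ext h3.symm h2.symm
  · rintro rfl
    rw [mem_starM]
    exact ⟨none, Inc.base (.Z i.1), (add_zero _).symm⟩

theorem fin_full_z (n : SS) (hn : fullM n) : ∃ i, zM i ∈ starM n := by
  obtain ⟨ν, y⟩ := n
  rcases hn with ⟨c, h3⟩ | h3
  · dsimp only at h3
    subst h3
    refine ⟨(c, y), ?_⟩
    rw [mem_starM]
    exact ⟨none, Inc.base (.Z c), (add_zero _).symm⟩
  · dsimp only at h3
    subst h3
    refine ⟨(.a false, y), ?_⟩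
    rw [mem_starM]
    exact ⟨none, Inc.pair (.Z (.a false)) false rfl, (add_zero _).symm⟩

theorem fin_v_stars (i : II) (b : Fin 11) (ε : Bool) (n : SS) (hn : fullM n)
    (h : vM i b ε ∈ starM n) : zM i ∈ starM n ∨ n = (.S (kkM i b ε).1, (kkM i b ε).2) := by
  rw [mem_starM] at h
  obtain ⟨o, h1, h2⟩ := h
  obtain ⟨ν, y⟩ := n
  obtain ⟨c0, x⟩ := i
  change Inc (.V c0 b ε) ν o at h1
  change y = x + E o at h2
  rcases hn with ⟨c, h3⟩ | h3
  · dsimp only at h3
    subst h3
    generalize hτ : Ty.V c0 b ε = τ at h1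
    cases h1 with
    | base =>
      left
      subst hτ
      rw [mem_starM]
      exact ⟨none, Inc.base (.Z c0), h2⟩
    | blk c' b' ε' =>
      right
      injection hτ with h4 h5 h6
      subst h4
      subst h5
      subst h6
      rw [h2]
      rfl
    | pa => cases hτ
    | pf => cases hτ
  · dsimp only at h3
    subst h3
    obtain ⟨rfl, ε', h4⟩ := fin_inc_P h1
    left
    rw [mem_starM]
    exact ⟨none, Inc.pair (.Z c0) ε' h4, h2⟩

theorem fin_mem_pp (i : II) (b : Fin 11) (w : WW) :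
    w ∈ starM (ppM i b) ↔ baseM w = kkM i b false ∨ baseM w = kkM i b true := by
  rw [mem_starM]
  obtain ⟨τ, x⟩ := w
  constructor
  · rintro ⟨o, h1, h2⟩
    obtain ⟨rfl, ε, h3⟩ := fin_inc_P h1
    have h4 : x = i.2 + E (some (.blk i.1 b)) := by
      have : (ppM i b).2 = x + 0 := h2
      rw [add_zero] at this
      exact this.symm
    cases ε with
    | false => exact Or.inl (Prod.ext h3 h4)
    | true => exact Or.inr (Prod.ext h3 h4)
  · rintro (h | h)
    · refine ⟨none, Inc.pair τ false (congrArg Prod.fst h), ?_⟩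
      have h4 : x = i.2 + E (some (.blk i.1 b)) := congrArg Prod.snd h
      change _ = x + 0
      rw [add_zero]
      exact h4.symm
    · refine ⟨none, Inc.pair τ true (congrArg Prod.fst h), ?_⟩
      have h4 : x = i.2 + E (some (.blk i.1 b)) := congrArg Prod.snd h
      change _ = x + 0
      rw [add_zero]
      exact h4.symm

theorem fin_z_stars (i : II) (b : Fin 11) (ε : Bool) (n : SS) (hn : fullM n)
    (h : zM (kkM i b ε) ∈ starM n) : n = (.S (kkM i b ε).1, (kkM i b ε).2) ∨ n = ppM i b := by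
  obtain ⟨h1, h2⟩ := fin_mem_Z h
  obtain ⟨ν, y⟩ := n
  rcases hn with ⟨c, h3⟩ | h3
  · dsimp only at h3
    subst h3
    left
    have h4 := fin_inc_S h1
    change c = _ at h4
    rw [h4]
    exact Prod.ext rfl h2
  · dsimp only at h3
    subst h3
    right
    exact Prod.ext rfl h2

/-- the design -/
noncomputable def model : Design where
  W := WW
  St := SS
  I := II
  star := starM
  full := fullM
  M := 132
  hM := by norm_num
  card_full := fin_card_full
  card_le := fin_card_le
  z := zM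
  z_inj := by
    intro i j h
    have h1 := congrArg Prod.fst h
    have h2 := congrArg Prod.snd h
    injection h1 with h3
    exact Prod.ext h3 h2
  base := baseM
  base_z := fun i => rfl
  dom_base := fin_dom_base
  Y := YM
  base_Y := by
    intro i y hy
    unfold YM at hy
    rw [Finset.mem_filter] at hy
    obtain ⟨_, b, ε, rfl⟩ := hy
    rfl
  z_notin_Y := by
    intro i j hy
    unfold YM at hy
    rw [Finset.mem_filter] at hy
    obtain ⟨_, b, ε, h⟩ := hy
    have h1 := congrArg Prod.fst h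
    cases h1
  S := fun i => (.S i.1, i.2)
  full_S := fun i => Or.inl ⟨i.1, rfl⟩
  z_mem_S := fin_z_mem_S
  full_z := fin_full_z
  helly := helly
  away := away
  β := 11
  hβ := by norm_num
  v := vM
  v_inj := by
    rintro i ⟨b, ε⟩ ⟨b', ε'⟩ h
    have h1 := congrArg Prod.fst h
    injection h1 with _ h2 h3
    exact Prod.ext h2 h3
  mem_Y := by
    intro i w
    unfold YM
    rw [Finset.mem_filter]
    exact ⟨fun h => h.2, fun h => ⟨Finset.mem_univ _, h⟩⟩
  kk := kkM
  kk_inj := by
    rintro i ⟨b, ε⟩ ⟨b', ε'⟩ h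
    have h1 := congrArg Prod.fst h
    have h2 := congrArg Prod.snd h
    injection h1 with h3
    have h4 : i.2 + E (some (.blk i.1 b)) = i.2 + E (some (.blk i.1 b')) := h2
    have h5 := fin_E_some_inj (add_left_cancel h4)
    injection h5 with _ h6
    exact Prod.ext h6 h3
  kk_ne := by
    intro i b ε h
    have h2 : i.2 + E (some (.blk i.1 b)) = i.2 := congrArg Prod.snd h
    exact fin_E_some_ne_zero _ (add_eq_left.1 h2)
  pp := ppM
  full_pp := fun i b => Or.inr rfl
  v_mem_S := by
    intro i b ε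
    rw [mem_starM]
    exact ⟨_, Inc.blk i.1 b ε, rfl⟩
  v_stars := fin_v_stars
  mem_pp := fin_mem_pp
  z_stars := fin_z_stars
  kill := kill
  count := count
  Cl := Option (Fin 4) × Pos
  cls := clsM
  cls_surj := by
    rintro ⟨o, x⟩
    cases o with
    | none => exact ⟨(.a false, x), rfl⟩
    | some j => exact ⟨(.f j, x), rfl⟩
  cls_star := cls_star
  Fi := Bool × Pos
  ff := fun a => (.FF a.1, a.2)
  ff_disj := ff_disj
  ff_card := fun a => (card_FF a.1 a.2).ge
  ff_z := by
    intro a i h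
    have h1 := (fin_inc_FF (fin_mem_Z h).1).1
    cases h1
  ff_Y := by
    intro a i
    rw [Finset.disjoint_left]
    intro w hw hY
    unfold YM at hY
    rw [Finset.mem_filter] at hY
    obtain ⟨_, b, ε, rfl⟩ := hY
    rw [mem_starM] at hw
    obtain ⟨o, h1, _⟩ := hw
    have h2 := (fin_inc_FF h1).2.1
    cases h2
  numeric := numeric
  far := farM
  far_disj := far_disj

end Pool.Agent.H40.SD.Model
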