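import Pool.Agent.H40.SD.Model

/-! # The model: Helly property -/

set_option autoImplicit false

namespace Pool.Agent.H40.SD.Model

open Finset

theorem E_apply (o : Option Lab) (l : Lab) :
    E o l = ((if o = some l then 1 else 0 : ℕ) : ZMod 5) := by
  cases o with
  | none => simp [E]
  | some l' =>
    simp only [E, Pi.single_apply, Option.some.injEq]
    by_cases h : l = l'
    · subst h; simp
    · have h' : ¬ l' = l := fun e => h e.symm
      simp [h, h']

/-- counting form of an equality of sums of shift vectors -/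
theorem E2_count {a b c d : Option Lab} (h : E a + E b = E c + E d) (l : Lab) :
    (if a = some l then 1 else 0) + (if b = some l then 1 else 0) =
      (if c = some l then 1 else 0) + (if d = some l then 1 else 0) := by
  have h1 := congrFun h l
  simp only [Pi.add_apply, E_apply] at h1
  rw [← Nat.cast_add, ← Nat.cast_add] at h1
  rw [ZMod.natCast_eq_natCast_iff'] at h1
  split_ifs at h1 ⊢ <;> simp_all

theorem E3_count {a b c a' b' c' : Option Lab}
    (h : E a + E b + E c = E a' + E b' + E c') (l : Lab) :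
    (if a = some l then 1 else 0) + (if b = some l then 1 else 0) +
      (if c = some l then 1 else 0) =
      (if a' = some l then 1 else 0) + (if b' = some l then 1 else 0) +
      (if c' = some l then 1 else 0) := by
  have h1 := congrFun h l
  simp only [Pi.add_apply, E_apply] at h1
  rw [← Nat.cast_add, ← Nat.cast_add, ← Nat.cast_add, ← Nat.cast_add] at h1
  rw [ZMod.natCast_eq_natCast_iff'] at h1
  split_ifs at h1 ⊢ <;> simp_all

theorem E2 {a b c d : Option Lab} (h : E a + E b = E c + E d) :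
    (a = c ∧ b = d) ∨ (a = d ∧ b = c) := by
  have H := E2_count h
  rcases a with _ | a <;> rcases b with _ | b <;> rcases c with _ | c <;> rcases d with _ | d <;>
    first
    | (have h1 := H a; have h2 := H b; have h3 := H c; have h4 := H d; grind)
    | (have h1 := H a; have h2 := H b; have h3 := H c; grind)
    | (have h1 := H a; have h2 := H b; have h3 := H d; grind)
    | (have h1 := H a; have h2 := H c; have h3 := H d; grind)
    | (have h1 := H b; have h2 := H c; have h3 := H d; grind)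
    | (have h1 := H a; have h2 := H b; grind)
    | (have h1 := H a; have h2 := H c; grind)
    | (have h1 := H a; have h2 := H d; grind)
    | (have h1 := H b; have h2 := H c; grind)
    | (have h1 := H b; have h2 := H d; grind)
    | (have h1 := H c; have h2 := H d; grind)
    | (have h1 := H a; grind)
    | (have h1 := H b; grind)
    | (have h1 := H c; grind)
    | (have h1 := H d; grind)
    | grind

theorem E_injH {a b : Option Lab} (h : E a = E b) : a = b := by
  have := E2 (a := a) (b := none) (c := b) (d := none) (by rw [h])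
  rcases this with h | h
  · exact h.1
  · rw [h.1, ← h.2]

theorem E3 {a b c a' b' c' : Option Lab}
    (h : E a + E b + E c = E a' + E b' + E c') :
    (a = a' ∧ ((b = b' ∧ c = c') ∨ (b = c' ∧ c = b'))) ∨
    (a = b' ∧ ((b = a' ∧ c = c') ∨ (b = c' ∧ c = a'))) ∨
    (a = c' ∧ ((b = a' ∧ c = b') ∨ (b = b' ∧ c = a'))) := by
  have key : a = a' ∨ a = b' ∨ a = c' := by
    rcases a with _ | l
    · rcases a' with _ | a'
      · exact Or.inl rfl
      rcases b' with _ | b'
      · exact Or.inr (Or.inl rfl)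
      rcases c' with _ | c'
      · exact Or.inr (Or.inr rfl)
      exfalso
      have h0 : E b + E c = E (some a') + E (some b') + E (some c') := by
        rw [← h]; simp [E]
      have h1 := E3_count h a'
      simp only [if_true, reduceCtorEq, if_false] at h1
      by_cases hb : b = some a'
      · rw [hb, add_assoc] at h0
        have h2 := add_left_cancel h0
        have h3 : E c + E none = E (some b') + E (some c') := by rw [← h2]; simp [E]
        rcases E2 h3 with h4 | h4
        · exact absurd h4.2 (by simp)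
        · exact absurd h4.2 (by simp)
      · by_cases hc : c = some a'
        · rw [hc, add_comm (E b), add_assoc] at h0
          have h2 := add_left_cancel h0
          have h3 : E b + E none = E (some b') + E (some c') := by rw [← h2]; simp [E]
          rcases E2 h3 with h4 | h4
          · exact absurd h4.2 (by simp)
          · exact absurd h4.2 (by simp)
        · simp only [hb, hc, if_false] at h1
          split_ifs at h1 <;> omega
    · have h1 := E3_count h l
      by_contra hcon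
      push Not at hcon
      obtain ⟨h2, h3, h4⟩ := hcon
      have h2' : ¬ a' = some l := fun e => h2 e.symm
      have h3' : ¬ b' = some l := fun e => h3 e.symm
      have h4' : ¬ c' = some l := fun e => h4 e.symm
      simp [h2', h3', h4'] at h1
  rcases key with rfl | rfl | rfl
  · left
    refine ⟨rfl, ?_⟩
    rw [add_assoc, add_assoc] at h
    exact E2 (add_left_cancel h)
  · right; left
    refine ⟨rfl, ?_⟩
    have h' : E a + (E b + E c) = E a + (E a' + E c') := by
      rw [← add_assoc, h]; abel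
    exact E2 (add_left_cancel h')
  · right; right
    refine ⟨rfl, ?_⟩
    have h' : E a + (E b + E c) = E a + (E a' + E b') := by
      rw [← add_assoc, h]; abel
    exact E2 (add_left_cancel h')

theorem mem_fil_isFil {A : Finset Ty} {τ : Ty} (h : τ ∈ fil A) : τ.isFil = true ∧ τ ∉ A := by
  unfold fil at h
  split_ifs at h with hA
  · have h1 := (exists_fil A hA).choose_spec.1 h
    simpa using h1
  · simp at h

theorem L1 {τ τ' : Ty} {ν ν' : Nu} {l : Lab} (h : Inc τ ν (some l)) (h' : Inc τ' ν' (some l)) :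
    (τ = τ' ∧ ν = ν') ∨
    (∃ c b ε, l = .blk c b ∧ τ = .V c b ε ∧ τ' = .V c b (!ε) ∧ ν = .S (.a ε) ∧
      ν' = .S (.a (!ε))) := by
  cases h with
  | blk c b ε =>
    cases h' with
    | blk c' b' ε' =>
      by_cases he : ε' = ε
      · subst he; exact Or.inl ⟨rfl, rfl⟩
      · have he' : ε' = !ε := by cases ε <;> cases ε' <;> simp_all
        subst he'
        exact Or.inr ⟨c, b, ε, rfl, rfl, rfl, rfl, rfl⟩
  | pa ε k => cases h' with
    | pa ε' k' => exact Or.inl ⟨rfl, rfl⟩
  | pf j k => cases h' with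
    | pf j' k' => exact Or.inl ⟨rfl, rfl⟩
  | ff τ j h hj => cases h' with
    | ff τ' j' h' hj' => exact Or.inl ⟨rfl, by rw [← hj, ← hj']⟩
  | kout A α τ hA h => cases h' with
    | kout A' α' τ' hA' h' => exact Or.inl ⟨rfl, rfl⟩

theorem L3_aux {τ τ' : Ty} {ν ν' : Nu} {o o' : Option Lab} (h : Inc τ ν o) (h' : Inc τ' ν' o')
    (hτ : τ = τ') (hν : ν = ν') (ho : o ≠ none) (ho' : o' ≠ none) : o = o' := by
  cases h <;> cases h' <;> simp_all

theorem L3 {τ : Ty} {ν : Nu} {l l' : Lab} (h : Inc τ ν (some l)) (h' : Inc τ ν (some l')) :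
    l = l' := by
  have := L3_aux h h' rfl rfl (by simp) (by simp)
  simpa using this

theorem L4 {c : Col} {b : Fin 11} {ε : Bool} {ν : Nu} {l : Lab}
    (h : Inc (.V c b ε) ν (some l)) : l = .blk c b := by
  cases h with
  | blk => rfl
  | ff _ j h hj => simp [Ty.isFil] at h
  | kout A α _ hA h => have := (mem_fil_isFil h).1; simp [Ty.isFil] at this

theorem L5 {τ : Ty} {c : Col} (h : Inc τ (.S c) none) : c = τ.base := by
  cases h; rfl

theorem L2 {τ τ' : Ty} {ν : Nu} (h : Inc τ ν none) (h' : Inc τ' ν none) (hne : τ ≠ τ') :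
    τ.base = τ'.base ∨ ((∃ ε, τ.base = .a ε) ∧ ∃ ε, τ'.base = .a ε) := by
  cases h with
  | base => left; exact L5 h'
  | pair _ ε h =>
    cases h' with
    | pair _ ε' h' => exact Or.inr ⟨⟨ε, h⟩, ⟨ε', h'⟩⟩
  | kin A α _ hA h =>
    cases h' with
    | kin _ _ _ _ h' =>
      rcases hA.2 with h1 | ⟨c, hc⟩
      · rw [Finset.card_eq_one] at h1
        obtain ⟨x, rfl⟩ := h1
        rw [Finset.mem_singleton] at h h'
        exact absurd (h.trans h'.symm) hne
      · obtain ⟨b, ε, rfl⟩ := hc _ h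
        obtain ⟨b', ε', rfl⟩ := hc _ h'
        left; rfl

/-- a common nonempty label at one element makes two stars at the same position equal -/
theorem nu_eq {τ : Ty} {ν ν' : Nu} {l : Lab} (h : Inc τ ν (some l)) (h' : Inc τ ν' (some l)) :
    ν = ν' := by
  rcases L1 h h' with h1 | ⟨c, b, ε, -, h2, h3, -, -⟩
  · exact h1.2
  · exfalso
    rw [h2] at h3
    injection h3 with _ _ h4
    cases ε <;> simp at h4

/-- two elements in different positions share at most one star -/
theorem star_unique {w w' : WW} (hx : w.2 ≠ w'.2) {n n' : SS}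
    (h1 : w ∈ starM n) (h2 : w' ∈ starM n) (h3 : w ∈ starM n') (h4 : w' ∈ starM n') : n = n' := by
  rw [mem_starM] at h1 h2 h3 h4
  obtain ⟨a, ia, ya⟩ := h1
  obtain ⟨b, ib, yb⟩ := h2
  obtain ⟨a', ia', ya'⟩ := h3
  obtain ⟨b', ib', yb'⟩ := h4
  have e1 : w.2 + E a = w'.2 + E b := ya.symm.trans yb
  have e2 : w.2 + E a' = w'.2 + E b' := ya'.symm.trans yb'
  have e3 : E a + E b' = E a' + E b := by linear_combination e1 - e2
  rcases E2 e3 with ⟨h5, h6⟩ | ⟨h5, -⟩
  · subst h5; subst h6
    have hy : n.2 = n'.2 := by rw [ya, ya']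
    rcases a with _ | a
    · rcases b' with _ | b
      · exfalso; apply hx; simpa [E] using e1
      · exact Prod.ext (nu_eq ib ib') hy
    · exact Prod.ext (nu_eq ia ia') hy
  · exfalso; apply hx; subst h5; exact add_right_cancel e1

/-- distinct elements at the same position share only internal stars -/
theorem same_pos {w w' : WW} (hne : w ≠ w') (hx : w.2 = w'.2) {n : SS}
    (h1 : w ∈ starM n) (h2 : w' ∈ starM n) : Inc w.1 n.1 none ∧ Inc w'.1 n.1 none := by
  rw [mem_starM] at h1 h2
  obtain ⟨a, ia, ya⟩ := h1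
  obtain ⟨b, ib, yb⟩ := h2
  have e1 : w.2 + E a = w'.2 + E b := ya.symm.trans yb
  rw [hx] at e1
  have e2 := E_injH (add_left_cancel e1)
  subst e2
  have hτ : w.1 ≠ w'.1 := fun h => hne (Prod.ext h hx)
  rcases a with _ | l
  · exact ⟨ia, ib⟩
  · exfalso
    rcases L1 ia ib with h3 | ⟨c, b, ε, -, -, -, h4, h5⟩
    · exact hτ h3.1
    · rw [h4] at h5
      injection h5 with h6
      injection h6 with h7
      cases ε <;> simp at h7

/-- Case (2b) with `w''` at the position of `w` -/
theorem third_same {w w' w'' : WW} (hx : w.2 ≠ w'.2) (hne : w'' ≠ w) (hx'' : w''.2 = w.2)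
    {n1 n3 : SS} (h1 : w ∈ starM n1) (h1' : w' ∈ starM n1)
    (h3 : w' ∈ starM n3) (h3' : w'' ∈ starM n3) : w'' ∈ starM n1 := by
  have hmem := h3'
  rw [mem_starM] at h1 h1' h3 h3'
  obtain ⟨a1, ia1, ya1⟩ := h1
  obtain ⟨b1, ib1, yb1⟩ := h1'
  obtain ⟨b3, ib3, yb3⟩ := h3
  obtain ⟨c3, ic3, yc3⟩ := h3'
  have e1 : w.2 + E a1 = w'.2 + E b1 := ya1.symm.trans yb1
  have e3 : w'.2 + E b3 = w''.2 + E c3 := yb3.symm.trans yc3
  rw [hx''] at e3
  have e4 : E b1 + E c3 = E b3 + E a1 := by linear_combination -e1 - e3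
  rcases E2 e4 with ⟨h5, h6⟩ | ⟨h5, -⟩
  · subst h5; subst h6
    have hy : n1.2 = n3.2 := by rw [yb1, yb3]
    rcases b1 with _ | b1
    · rcases c3 with _ | c3
      · exfalso; apply hx; simpa [E] using e1
      · rcases L1 ia1 ic3 with h7 | ⟨c, b, ε, -, -, -, h8, h9⟩
        · exact absurd (Prod.ext h7.1.symm hx'') hne
        · exfalso
          rw [h8] at ib1
          rw [h9] at ib3
          have h10 := (L5 ib1).trans (L5 ib3).symm
          injection h10 with h11
          cases ε <;> simp at h11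
    · have : n1 = n3 := Prod.ext (nu_eq ib1 ib3) hy
      rw [this]; exact hmem
  · exfalso; apply hx; subst h5; exact add_right_cancel e1

/-- two distinct nonempty labels at a common element `τ2`, whose other occurrences are at
`τ1`, `τ3` in the same star, are impossible -/
theorem two_labels {τ1 τ2 τ3 : Ty} {ν1 ν2 ν3 : Nu} {p r : Lab} (hpr : p ≠ r)
    (h1 : Inc τ2 ν1 (some p)) (h2 : Inc τ1 ν3 (some p))
    (h3 : Inc τ2 ν2 (some r)) (h4 : Inc τ3 ν3 (some r)) : False := by
  have hp : ¬ ∃ c b ε, p = .blk c b ∧ τ2 = .V c b ε := by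
    rintro ⟨c, b, ε, rfl, rfl⟩
    exact hpr (L4 h3).symm
  have hr : ¬ ∃ c b ε, r = .blk c b ∧ τ2 = .V c b ε := by
    rintro ⟨c, b, ε, rfl, rfl⟩
    exact hpr (L4 h1)
  rcases L1 h1 h2 with h5 | ⟨c, b, ε, h6, h7, -, -, -⟩
  · rcases L1 h3 h4 with h8 | ⟨c, b, ε, h9, h10, -, -, -⟩
    · rw [← h5.1] at h2
      rw [← h8.1] at h4
      exact hpr (L3 h2 h4)
    · exact hr ⟨c, b, ε, h9, h10⟩
  · exact hp ⟨c, b, ε, h6, h7⟩

/-- Case (2b) with three distinct positions -/
theorem third_diff {w w' w'' : WW} (hx : w.2 ≠ w'.2) (hx1 : w''.2 ≠ w.2) (hx2 : w''.2 ≠ w'.2)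
    {n1 n2 n3 : SS} (h1 : w ∈ starM n1) (h1' : w' ∈ starM n1)
    (h2 : w ∈ starM n2) (h2' : w'' ∈ starM n2)
    (h3 : w' ∈ starM n3) (h3' : w'' ∈ starM n3) : w'' ∈ starM n1 := by
  have m1 := h1
  have m1' := h1'
  have m2 := h2
  have m2' := h2'
  have m3 := h3
  have m3' := h3'
  rw [mem_starM] at h1 h1' h2 h2' h3 h3'
  obtain ⟨a1, ia1, ya1⟩ := h1
  obtain ⟨b1, ib1, yb1⟩ := h1'
  obtain ⟨a2, ia2, ya2⟩ := h2
  obtain ⟨c2, ic2, yc2⟩ := h2'
  obtain ⟨b3, ib3, yb3⟩ := h3
  obtain ⟨c3, ic3, yc3⟩ := h3'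
  have e1 : w.2 + E a1 = w'.2 + E b1 := ya1.symm.trans yb1
  have e2 : w.2 + E a2 = w''.2 + E c2 := ya2.symm.trans yc2
  have e3 : w'.2 + E b3 = w''.2 + E c3 := yb3.symm.trans yc3
  have d1 : a1 ≠ b1 := by rintro rfl; exact hx (add_right_cancel e1)
  have d2 : a2 ≠ c2 := by rintro rfl; exact hx1 (add_right_cancel e2).symm
  have d3 : b3 ≠ c3 := by rintro rfl; exact hx2 (add_right_cancel e3).symm
  have e4 : E b1 + E a2 + E c3 = E a1 + E c2 + E b3 := by linear_combination e2 - e1 - e3
  have key : (b1 = c2 ∧ a2 = b3 ∧ c3 = a1) ∨ (b1 = b3 ∧ a2 = a1 ∧ c3 = c2) := by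
    rcases E3 e4 with ⟨h, -⟩ | ⟨h, ⟨h', h''⟩ | ⟨h', h''⟩⟩ | ⟨h, ⟨h', h''⟩ | ⟨h', h''⟩⟩
    · exact absurd h.symm d1
    · exact absurd h''.symm d3
    · exact Or.inl ⟨h, h', h''⟩
    · exact Or.inr ⟨h, h', h''⟩
    · exact absurd h' d2
  rcases key with ⟨h4, h5, h6⟩ | ⟨h4, h5, h6⟩
  · -- `c3 = a1 = p`, `a2 = b3 = r`, `b1 = c2 = s`
    exfalso
    subst h4; subst h5; subst h6
    -- p = c3, r = a2, s = b1
    rcases c3 with _ | p
    · rcases a2 with _ | r
      · exact d3 rfl
      · rcases b1 with _ | s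
        · exact d1 rfl
        · -- r : (τ, ν2), (τ', ν3); s : (τ', ν1), (τ'', ν2)
          have hrs : r ≠ s := fun h => d2 (by rw [h])
          exact two_labels hrs ib3 ia2 ib1 ic2
    · rcases a2 with _ | r
      · rcases b1 with _ | s
        · exact d2 rfl
        · -- p : (τ, ν1), (τ'', ν3); s : (τ', ν1), (τ'', ν2)
          have hps : p ≠ s := fun h => d1 (by rw [h])
          exact two_labels hps ic3 ia1 ic2 ib1
      · -- p : (τ, ν1), (τ'', ν3); r : (τ, ν2), (τ', ν3)
        have hpr : p ≠ r := fun h => d3 (by rw [h])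
        exact two_labels hpr ia1 ic3 ia2 ib3
  · subst h4; subst h5; subst h6
    rcases a2 with _ | l
    · rcases b1 with _ | l
      · exact absurd rfl d1
      · have hy : n1.2 = n3.2 := by rw [yb1, yb3]
        have : n1 = n3 := Prod.ext (nu_eq ib1 ib3) hy
        rw [this]; exact m3'
    · have hy : n1.2 = n2.2 := by rw [ya1, ya2]
      have : n1 = n2 := Prod.ext (nu_eq ia1 ia2) hy
      rw [this]; exact m2'

theorem helly (U : Finset WW) (h : ∀ u ∈ U, ∀ w ∈ U, ∃ n, u ∈ starM n ∧ w ∈ starM n) :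
    ∃ n, U ⊆ starM n := by
  by_cases hpos : ∃ w ∈ U, ∃ w' ∈ U, w.2 ≠ w'.2
  · obtain ⟨w, hw, w', hw', hx⟩ := hpos
    obtain ⟨n1, h1, h1'⟩ := h w hw w' hw'
    refine ⟨n1, fun w'' hw'' => ?_⟩
    by_cases e1 : w'' = w
    · rw [e1]; exact h1
    by_cases e2 : w'' = w'
    · rw [e2]; exact h1'
    obtain ⟨n2, h2, h2'⟩ := h w hw w'' hw''
    obtain ⟨n3, h3, h3'⟩ := h w' hw' w'' hw''
    by_cases p1 : w''.2 = w.2
    · exact third_same hx e1 p1 h1 h1' h3 h3'
    by_cases p2 : w''.2 = w'.2
    · exact third_same (fun e => hx e.symm) e2 p2 h1' h1 h2 h2'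
    exact third_diff hx p1 p2 h1 h1' h2 h2' h3 h3'
  · push Not at hpos
    rcases U.eq_empty_or_nonempty with rfl | ⟨u0, hu0⟩
    · exact ⟨(.P, 0), by simp⟩
    have two : ∀ u ∈ U, ∀ w ∈ U, u.1.base ≠ w.1.base →
        (∃ ε, u.1.base = .a ε) ∧ ∃ ε, w.1.base = .a ε := by
      intro u hu w hw hb
      obtain ⟨n, hn, hn'⟩ := h u hu w hw
      have hne : u ≠ w := fun e => hb (by rw [e])
      have hτ : u.1 ≠ w.1 := fun e => hb (by rw [e])
      obtain ⟨i1, i2⟩ := same_pos hne (hpos u hu w hw) hn hn'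
      rcases L2 i1 i2 hτ with h1 | h1
      · exact absurd h1 hb
      · exact h1
    by_cases hall : ∀ u ∈ U, u.1.base = u0.1.base
    · refine ⟨(.S u0.1.base, u0.2), fun u hu => ?_⟩
      rw [mem_starM]
      refine ⟨none, ?_, ?_⟩
      · have := Inc.base u.1
        rw [hall u hu] at this
        exact this
      · simp [E, hpos u hu u0 hu0]
    · push Not at hall
      obtain ⟨u1, hu1, hb1⟩ := hall
      refine ⟨(.P, u0.2), fun u hu => ?_⟩
      rw [mem_starM]
      refine ⟨none, ?_, ?_⟩
      · have : ∃ ε, u.1.base = .a ε := by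
          by_cases hb : u.1.base = u0.1.base
          · rw [hb]; exact (two u1 hu1 u0 hu0 hb1).2
          · exact (two u hu u0 hu0 hb).1
        obtain ⟨ε, hε⟩ := this
        exact Inc.pair u.1 ε hε
      · simp [E, hpos u hu u0 hu0]

end Pool.Agent.H40.SD.Model
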