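import Pool.Agent.H40.SD.Top
import Pool.Agent.H40.SD.Alg

/-! # Reduction of `K_{c,s}(G)`, `G = H + E`, to the complexes `Γ` -/

set_option autoImplicit false

namespace Pool.Agent.H40.SD

section Transport

variable {α β : Type*} [DecidableEq α] [DecidableEq β]

theorem cb_mapR (ι : α ↪ β) (F : Finset β → ZMod 2) (τ : Finset α) :
    cb F (τ.map ι) = cb (fun τ => F (τ.map ι)) τ := by
  unfold cb
  rw [Finset.sum_map]
  apply Finset.sum_congr rfl
  intro w _
  beta_reduce
  rw [Finset.map_erase]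

theorem van_transport (ι : α ↪ β) (r : Finset β → Finset α)
    (hr : ∀ τ : Finset α, r (τ.map ι) = τ)
    {Δ : Finset α → Prop} {Δ' : Finset β → Prop} (h1 : ∀ σ, Δ' σ → ∃ τ : Finset α, σ = τ.map ι)
    (h2 : ∀ τ, Δ' (τ.map ι) ↔ Δ τ) (j : ℕ) : Van Δ' j ↔ Van Δ j := by
  have hcr : ∀ (f : Finset α → ZMod 2) (τ : Finset α), cb (fun σ => f (r σ)) (τ.map ι) = cb f τ := by
    intro f τ
    rw [cb_mapR]
    apply cb_congr
    intro w _
    rw [hr]
  constructor
  · intro h f hf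
    obtain ⟨g, hg⟩ := h (fun σ => f (r σ)) (by
      intro σ hσ hc
      obtain ⟨τ, rfl⟩ := h1 σ hσ
      rw [hcr]
      rw [Finset.card_map] at hc
      exact hf τ ((h2 τ).1 hσ) hc)
    refine ⟨fun τ => g (τ.map ι), fun τ hτ hc => ?_⟩
    have h3 := hg (τ.map ι) ((h2 τ).2 hτ) (by rw [Finset.card_map, hc])
    rw [cb_mapR, hr] at h3
    exact h3
  · intro h f hf
    obtain ⟨g, hg⟩ := h (fun τ => f (τ.map ι)) (by
      intro τ hτ hc
      rw [← cb_mapR]
      exact hf _ ((h2 τ).2 hτ) (by rw [Finset.card_map, hc]))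
    refine ⟨fun σ => g (r σ), fun σ hσ hc => ?_⟩
    obtain ⟨τ, rfl⟩ := h1 σ hσ
    rw [hcr]
    rw [Finset.card_map] at hc
    exact hg τ ((h2 τ).1 hσ) hc

end Transport

variable {W : Type} [Fintype W] [DecidableEq W]

/-- `H` together with one extra vertex for each `X ∈ 𝒳`, adjacent exactly to the elements
of `X`. -/
def GX (H : SimpleGraph W) (𝒳 : Finset (Finset W)) : SimpleGraph (W ⊕ {X // X ∈ 𝒳}) where
  Adj := fun p r => match p, r with
    | Sum.inl w, Sum.inl w' => H.Adj w w'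
    | Sum.inl w, Sum.inr X => w ∈ X.1
    | Sum.inr X, Sum.inl w => w ∈ X.1
    | Sum.inr _, Sum.inr _ => False
  symm := ⟨by
    rintro (w | X) (w' | X') h
    · exact H.adj_symm h
    · exact h
    · exact h
    · exact h⟩
  loopless := ⟨by
    rintro (w | X) h
    · exact H.loopless.irrefl w h
    · exact h⟩

/-- `Γ_{(b,e),s}`: the sets missed by some alive set. -/
def Gam (H : SimpleGraph W) (𝒳 : Finset (Finset W)) (b : W → ℕ) (e : Finset W → ℕ) (s : ℕ) :
    Finset W → Prop := fun U => ∃ A : Finset W, Indep H A ∧ Disjoint A U ∧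
      cost b A + ∑ X ∈ 𝒳.filter (fun X => ¬ Disjoint X A), e X < s

/-- the link of `U` in `Γ` -/
def GamLk (H : SimpleGraph W) (𝒳 : Finset (Finset W)) (b : W → ℕ) (e : Finset W → ℕ) (s : ℕ)
    (U : Finset W) : Finset W → Prop := fun D => Disjoint D U ∧ Gam H 𝒳 b e s (D ∪ U)

theorem isDown_gam (H : SimpleGraph W) (𝒳 : Finset (Finset W)) (b : W → ℕ) (e : Finset W → ℕ)
    (s : ℕ) : IsDown (Gam H 𝒳 b e s) := by
  rintro σ τ h ⟨A, hA, hd, hc⟩
  exact ⟨A, hA, Finset.disjoint_of_subset_right h hd, hc⟩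

/-- the union of the sets `X` with `inr X ∈ σ` -/
def vv {𝒳 : Finset (Finset W)} (σ : Finset (W ⊕ {X // X ∈ 𝒳})) : Finset W :=
  σ.toRight.biUnion (fun X => X.1)

theorem mem_vv {𝒳 : Finset (Finset W)} {σ : Finset (W ⊕ {X // X ∈ 𝒳})} {w : W} :
    w ∈ vv σ ↔ ∃ X : {X // X ∈ 𝒳}, Sum.inr X ∈ σ ∧ w ∈ X.1 := by
  unfold vv
  simp

theorem vv_mono {𝒳 : Finset (Finset W)} {σ τ : Finset (W ⊕ {X // X ∈ 𝒳})} (h : σ ⊆ τ) :
    vv σ ⊆ vv τ := by
  intro w hw
  rw [mem_vv] at hw ⊢
  obtain ⟨X, h1, h2⟩ := hw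
  exact ⟨X, h h1, h2⟩

theorem sum_filter_e (𝒳 : Finset (Finset W)) (e : Finset W → ℕ) (A : Finset W) :
    ∑ X ∈ 𝒳.filter (fun X => ¬ Disjoint X A), e X =
      ∑ X : {X // X ∈ 𝒳}, if Disjoint X.1 A then 0 else e X.1 := by
  rw [Finset.sum_filter]
  rw [← Finset.sum_coe_sort 𝒳 (fun X => if ¬ Disjoint X A then e X else 0)]
  apply Finset.sum_congr rfl
  intro X _
  by_cases h : Disjoint X.1 A
  · rw [if_pos h, if_neg (not_not.2 h)]
  · rw [if_neg h, if_pos h]

theorem cost_eq {V : Type*} [Fintype V] [DecidableEq V] (c : V → ℕ) (F : Finset V) :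
    cost c F = ∑ v, if v ∈ F then 0 else c v := by
  unfold cost
  rw [← Finset.sum_filter_add_sum_filter_not Finset.univ (fun v => v ∈ F)]
  rw [Finset.sum_congr rfl (g := fun _ => 0) (s₁ := Finset.univ.filter (fun v => v ∈ F))
    (by intro v hv; rw [Finset.mem_filter] at hv; exact if_pos hv.2)]
  rw [Finset.sum_const_zero, zero_add]
  apply Finset.sum_congr
  · ext v; simp
  · intro v hv
    rw [Finset.mem_filter] at hv
    exact (if_neg hv.2).symm

theorem cost_sum (𝒳 : Finset (Finset W)) (b : W → ℕ) (e : Finset W → ℕ)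
    (F : Finset (W ⊕ {X // X ∈ 𝒳})) :
    cost (Sum.elim b (fun X => e X.1)) F =
      cost b F.toLeft + ∑ X : {X // X ∈ 𝒳}, if Sum.inr X ∈ F then 0 else e X.1 := by
  rw [cost_eq, cost_eq, Fintype.sum_sum_type]
  simp only [Finset.mem_toLeft, Sum.elim_inl, Sum.elim_inr]

theorem KK_iff (H : SimpleGraph W) (𝒳 : Finset (Finset W)) (b : W → ℕ) (e : Finset W → ℕ)
    (s : ℕ) (T : Finset (W ⊕ {X // X ∈ 𝒳})) :
    KK (GX H 𝒳) (Sum.elim b (fun X => e X.1)) s T ↔
      ∃ A : Finset W, Indep H A ∧ T.toLeft ⊆ A ∧ Disjoint A (vv T) ∧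
        cost b A + ∑ X ∈ 𝒳.filter (fun X => ¬ Disjoint X A), e X < s := by
  constructor
  · rintro ⟨F, hF, hT, hc⟩
    refine ⟨F.toLeft, ?_, Finset.toLeft_subset_toLeft hT, ?_, ?_⟩
    · intro v hv w hw hvw
      rw [Finset.mem_toLeft] at hv hw
      exact hF hv hw hvw
    · rw [Finset.disjoint_left]
      intro w hw hw'
      rw [Finset.mem_toLeft] at hw
      rw [mem_vv] at hw'
      obtain ⟨X, hX, hwX⟩ := hw'
      exact hF hw (hT hX) hwX
    · refine lt_of_le_of_lt ?_ hc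
      rw [cost_sum, sum_filter_e]
      apply Nat.add_le_add_left
      apply Finset.sum_le_sum
      intro X _
      by_cases h : Disjoint X.1 F.toLeft
      · rw [if_pos h]; exact Nat.zero_le _
      · rw [if_neg h, if_neg]
        intro hX
        apply h
        rw [Finset.disjoint_left]
        intro w hw hw'
        rw [Finset.mem_toLeft] at hw'
        exact hF hX hw' hw
  · rintro ⟨A, hA, hT, hd, hc⟩
    refine ⟨A.disjSum (Finset.univ.filter (fun X => Disjoint X.1 A)), ?_, ?_, ?_⟩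
    · rintro (v | X) hv (w | Y) hw hvw
      · rw [Finset.inl_mem_disjSum] at hv hw
        exact hA hv hw hvw
      · rw [Finset.inl_mem_disjSum] at hv
        rw [Finset.inr_mem_disjSum, Finset.mem_filter] at hw
        exact Finset.disjoint_left.1 hw.2 hvw hv
      · rw [Finset.inl_mem_disjSum] at hw
        rw [Finset.inr_mem_disjSum, Finset.mem_filter] at hv
        exact Finset.disjoint_left.1 hv.2 hvw hw
      · exact hvw
    · rw [Finset.subset_disjSum]
      refine ⟨hT, ?_⟩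
      intro X hX
      rw [Finset.mem_toRight] at hX
      rw [Finset.mem_filter]
      refine ⟨Finset.mem_univ _, ?_⟩
      rw [Finset.disjoint_left]
      intro w hw hw'
      exact Finset.disjoint_left.1 hd hw' (mem_vv.2 ⟨X, hX, hw⟩)
    · refine lt_of_le_of_lt (le_of_eq ?_) hc
      rw [cost_sum, sum_filter_e, Finset.toLeft_disjSum]
      congr 1
      apply Finset.sum_congr rfl
      intro X _
      congr 1
      rw [Finset.inr_mem_disjSum, Finset.mem_filter]
      simp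

theorem isDown_KKR {V : Type} [Fintype V] [DecidableEq V] (G : SimpleGraph V) (c : V → ℕ) (s : ℕ) :
    IsDown (KK G c s) := by
  rintro σ τ h ⟨F, hF, hT, hc⟩
  exact ⟨F, hF, h.trans hT, hc⟩

section main

variable (H : SimpleGraph W) (𝒳 : Finset (Finset W)) (b : W → ℕ) (e : Finset W → ℕ) (s : ℕ)

/-- `K_U` -/
def KU (U : Finset W) : Finset (W ⊕ {X // X ∈ 𝒳}) → Prop :=
  fun σ => σ.toLeft = ∅ ∧ Gam H 𝒳 b e s (vv σ ∪ U)

/-- `P_U` -/
def PU (U : Finset W) : Finset (W ⊕ {X // X ∈ 𝒳}) → Prop :=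
  fun σ => Disjoint σ.toLeft U ∧ Gam H 𝒳 b e s (vv σ ∪ σ.toLeft ∪ U)

theorem isDown_PU (U : Finset W) : IsDown (PU H 𝒳 b e s U) := by
  rintro σ τ h ⟨h1, h2⟩
  refine ⟨Finset.disjoint_of_subset_left (Finset.toLeft_subset_toLeft h) h1,
    isDown_gam H 𝒳 b e s ?_ h2⟩
  exact Finset.union_subset_union_left (Finset.union_subset_union (vv_mono h)
    (Finset.toLeft_subset_toLeft h))

/-- the `W` side outside `U` -/
def YW (𝒳 : Finset (Finset W)) (U : Finset W) : Finset (W ⊕ {X // X ∈ 𝒳}) :=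
  (Finset.univ \ U).map Function.Embedding.inl

/-- the `𝒳` side -/
def YX (𝒳 : Finset (Finset W)) : Finset (W ⊕ {X // X ∈ 𝒳}) :=
  Finset.univ.map Function.Embedding.inr

theorem disjoint_YW (U : Finset W) (σ : Finset (W ⊕ {X // X ∈ 𝒳})) :
    Disjoint σ (YW 𝒳 U) ↔ σ.toLeft ⊆ U := by
  rw [Finset.disjoint_left]
  constructor
  · intro h w hw
    rw [Finset.mem_toLeft] at hw
    by_contra hU
    apply h hw
    unfold YW
    rw [Finset.mem_map]
    exact ⟨w, by simp [hU], rfl⟩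
  · intro h x hx hx'
    unfold YW at hx'
    rw [Finset.mem_map] at hx'
    obtain ⟨w, hw, rfl⟩ := hx'
    rw [Finset.mem_sdiff] at hw
    exact hw.2 (h (Finset.mem_toLeft.2 hx))

theorem disjoint_YX (σ : Finset (W ⊕ {X // X ∈ 𝒳})) :
    Disjoint σ (YX 𝒳) ↔ σ.toRight = ∅ := by
  rw [Finset.disjoint_left, Finset.eq_empty_iff_forall_notMem]
  constructor
  · intro h X hX
    rw [Finset.mem_toRight] at hX
    apply h hX
    unfold YX
    rw [Finset.mem_map]
    exact ⟨X, Finset.mem_univ _, rfl⟩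
  · intro h x hx hx'
    unfold YX at hx'
    rw [Finset.mem_map] at hx'
    obtain ⟨X, _, rfl⟩ := hx'
    exact h X (Finset.mem_toRight.2 hx)

/-- fibre over `B` on the `W` side -/
theorem fib_YW (U B : Finset W) (hB : Disjoint B U) (σ : Finset (W ⊕ {X // X ∈ 𝒳})) :
    fib (PU H 𝒳 b e s U) (YW 𝒳 U) (B.map Function.Embedding.inl) σ ↔
      KU H 𝒳 b e s (U ∪ B) σ := by
  have h1 : (B.map (Function.Embedding.inl : W ↪ W ⊕ {X // X ∈ 𝒳}) ∪ σ).toLeft =
      B ∪ σ.toLeft := by
    rw [Finset.toLeft_union]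
    congr 1
    ext w; simp
  have h2 : vv (B.map (Function.Embedding.inl : W ↪ W ⊕ {X // X ∈ 𝒳}) ∪ σ) = vv σ := by
    ext w
    rw [mem_vv, mem_vv]
    simp
  unfold fib PU KU
  rw [disjoint_YW, h1, h2]
  constructor
  · rintro ⟨h3, h4, h5⟩
    have h6 : σ.toLeft = ∅ := by
      rw [Finset.disjoint_union_left] at h4
      exact Finset.disjoint_self_iff_empty _ |>.1 (Finset.disjoint_of_subset_right h3 h4.2)
    refine ⟨h6, ?_⟩
    rw [h6, Finset.union_empty, Finset.union_assoc, Finset.union_comm B U] at h5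
    exact h5
  · rintro ⟨h6, h5⟩
    rw [h6, Finset.union_empty, Finset.union_assoc, Finset.union_comm B U]
    exact ⟨Finset.empty_subset _, hB, h5⟩

theorem cone_YX (U : Finset W) (hU : ∀ X ∈ 𝒳, ¬ X ⊆ U) (B : Finset (W ⊕ {X // X ∈ 𝒳}))
    (hB : B ⊆ YX 𝒳) (hne : B.Nonempty) (j : ℕ) : Van (fib (PU H 𝒳 b e s U) (YX 𝒳) B) j := by
  obtain ⟨y, hy⟩ := hne
  have hy' := hB hy
  unfold YX at hy'
  rw [Finset.mem_map] at hy'
  obtain ⟨X, _, rfl⟩ := hy'
  obtain ⟨x, hxX, hxU⟩ := Finset.not_subset.1 (hU X.1 X.2)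
  apply van_of_cone (Sum.inl x)
  rintro σ ⟨h1, h2, h3⟩ _
  have hBl : B.toLeft = ∅ := by
    rw [Finset.eq_empty_iff_forall_notMem]
    intro w hw
    rw [Finset.mem_toLeft] at hw
    have := hB hw
    unfold YX at this
    simp at this
  refine ⟨?_, ?_, ?_⟩
  · rw [Finset.disjoint_insert_left]
    refine ⟨?_, h1⟩
    unfold YX
    simp
  · rw [Finset.union_insert, Finset.toLeft_insert_inl, Finset.disjoint_insert_left]
    exact ⟨hxU, h2⟩
  · have h4 : vv (B ∪ insert (Sum.inl x) σ) = vv (B ∪ σ) := by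
      ext w
      rw [mem_vv, mem_vv]
      simp
    rw [h4]
    have h5 : x ∈ vv (B ∪ σ) := mem_vv.2 ⟨X, Finset.mem_union_left _ hy, hxX⟩
    have h6 : vv (B ∪ σ) ∪ (B ∪ insert (Sum.inl x) σ).toLeft ∪ U =
        vv (B ∪ σ) ∪ (B ∪ σ).toLeft ∪ U := by
      rw [Finset.union_insert, Finset.toLeft_insert_inl, Finset.union_insert,
        Finset.insert_eq_self.2]
      exact Finset.mem_union_left _ h5
    rw [h6]
    exact h3

theorem fib_YX_empty (U : Finset W) (j : ℕ) :
    Van (fib (PU H 𝒳 b e s U) (YX 𝒳) ∅) j ↔ Van (GamLk H 𝒳 b e s U) j := by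
  apply van_transport Function.Embedding.inl Finset.toLeft
  · intro τ
    ext w; simp
  · rintro σ ⟨h1, -⟩
    rw [disjoint_YX] at h1
    refine ⟨σ.toLeft, ?_⟩
    rw [← Finset.disjSum_empty, ← h1, Finset.toLeft_disjSum_toRight]
  · intro τ
    have h1 : (τ.map (Function.Embedding.inl : W ↪ W ⊕ {X // X ∈ 𝒳})).toLeft = τ := by
      ext w; simp
    have h2 : (τ.map (Function.Embedding.inl : W ↪ W ⊕ {X // X ∈ 𝒳})).toRight = ∅ := by
      ext w; simp
    have h3 : vv (τ.map (Function.Embedding.inl : W ↪ W ⊕ {X // X ∈ 𝒳})) = ∅ := by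
      unfold vv; rw [h2]; rfl
    unfold fib PU GamLk
    rw [disjoint_YX, Finset.empty_union, h1, h2, h3, Finset.empty_union]
    simp

theorem KU_acyc (Q : Finset W → Prop) (hQ : ∀ U U', U ⊆ U' → Q U → Q U') (n : ℕ)
    (hlink : ∀ U : Finset W, Q U → (∀ X ∈ 𝒳, ¬ X ⊆ U) → Acyc (GamLk H 𝒳 b e s U) n) :
    ∀ k, ∀ U : Finset W, (Finset.univ \ U).card = k → Q U → Acyc (KU H 𝒳 b e s U) n := by
  intro k
  induction k using Nat.strong_induction_on with
  | _ k ih =>
    intro U hk hQU j hj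
    by_cases hU : ∀ X ∈ 𝒳, ¬ X ⊆ U
    · have hP : Van (PU H 𝒳 b e s U) j := by
        apply van_of_fib (isDown_PU H 𝒳 b e s U) (YX 𝒳)
        intro B hB hc
        rcases Finset.eq_empty_or_nonempty B with rfl | hne
        · rw [fib_YX_empty, Finset.card_empty, Nat.sub_zero]
          exact hlink U hQU hU j hj
        · exact cone_YX H 𝒳 b e s U hU B hB hne _
      have h1 := van_fib_empty (isDown_PU H 𝒳 b e s U) (YW 𝒳 U) hP (by
        intro B hB hne hc
        obtain ⟨B0, hB0, rfl⟩ : ∃ B0 : Finset W, Disjoint B0 U ∧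
            B = B0.map Function.Embedding.inl := by
          refine ⟨B.toLeft, ?_, ?_⟩
          · rw [Finset.disjoint_left]
            intro w hw hwU
            rw [Finset.mem_toLeft] at hw
            have := hB hw
            unfold YW at this
            simp at this
            exact this hwU
          · ext (w | X)
            · simp
            · simp
              intro h
              have := hB h
              unfold YW at this
              simp at this
        rw [Finset.map_nonempty] at hne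
        rw [Finset.card_map] at hc ⊢
        have hpos := hne.card_pos
        apply van_congr (fun σ => (fib_YW H 𝒳 b e s U B0 hB0 σ).symm)
        refine ih _ ?_ (U ∪ B0) rfl (hQ U _ Finset.subset_union_left hQU) _ (by omega)
        rw [← hk]
        apply Finset.card_lt_card
        rw [Finset.ssubset_iff_of_subset (Finset.sdiff_subset_sdiff (Finset.Subset.refl _)
          Finset.subset_union_left)]
        obtain ⟨w, hw⟩ := hne
        refine ⟨w, ?_, ?_⟩
        · rw [Finset.mem_sdiff]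
          exact ⟨Finset.mem_univ _, Finset.disjoint_left.1 hB0 hw⟩
        · rw [Finset.mem_sdiff]
          rintro ⟨_, h2⟩
          exact h2 (Finset.mem_union_right _ hw))
      apply van_congr _ h1
      intro σ
      have := fib_YW H 𝒳 b e s U ∅ (Finset.disjoint_empty_left U) σ
      rw [Finset.map_empty, Finset.union_empty] at this
      exact this
    · push Not at hU
      obtain ⟨X, hX, hXU⟩ := hU
      apply van_of_cone (Sum.inr ⟨X, hX⟩)
      rintro σ ⟨h1, h2⟩ _
      refine ⟨by rw [Finset.toLeft_insert_inr]; exact h1, ?_⟩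
      have h3 : vv (insert (Sum.inr ⟨X, hX⟩) σ) ∪ U = vv σ ∪ U := by
        ext w
        rw [Finset.mem_union, Finset.mem_union, mem_vv, mem_vv]
        constructor
        · rintro (⟨Y, hY, hw⟩ | h)
          · rw [Finset.mem_insert] at hY
            rcases hY with hY | hY
            · rw [Sum.inr.injEq] at hY
              rw [hY] at hw
              exact Or.inr (hXU hw)
            · exact Or.inl ⟨Y, hY, hw⟩
          · exact Or.inr h
        · rintro (⟨Y, hY, hw⟩ | h)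
          · exact Or.inl ⟨Y, Finset.mem_insert_of_mem hY, hw⟩
          · exact Or.inr h
      rw [h3]
      exact h2

theorem van_KK_iff (hdom : ∀ w, ∃ X ∈ 𝒳, ∀ x ∈ X, H.Adj w x) (j : ℕ) :
    Van (KK (GX H 𝒳) (Sum.elim b (fun X => e X.1)) s) j ↔ Van (KU H 𝒳 b e s ∅) j := by
  rw [van_iff_fib_of_dom (isDown_KKR _ _ _) (YW 𝒳 ∅)]
  · apply van_iff
    intro σ
    unfold fib KU
    rw [disjoint_YW, KK_iff, Finset.empty_union, Finset.union_empty, Finset.subset_empty]
    apply and_congr_right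
    intro h
    unfold Gam
    rw [h]
    apply exists_congr
    intro A
    simp
  · intro x hx
    unfold YW at hx
    rw [Finset.mem_map] at hx
    obtain ⟨w, _, rfl⟩ := hx
    obtain ⟨X, hX, hw⟩ := hdom w
    refine ⟨Sum.inr ⟨X, hX⟩, ?_, ?_⟩
    · unfold YW; simp
    · intro σ hσ hK
      rw [KK_iff] at hK ⊢
      obtain ⟨A, hA, h1, h2, h3⟩ := hK
      have hwA : w ∈ A := h1 (Finset.mem_toLeft.2 hσ)
      refine ⟨A, hA, by rw [Finset.toLeft_insert_inr]; exact h1, ?_, h3⟩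
      rw [Finset.disjoint_left]
      intro a ha ha'
      rw [mem_vv] at ha'
      obtain ⟨Y, hY, haY⟩ := ha'
      rw [Finset.mem_insert] at hY
      rcases hY with hY | hY
      · rw [Sum.inr.injEq] at hY
        rw [hY] at haY
        exact hA hwA ha (hw a haY)
      · exact Finset.disjoint_left.1 h2 ha (mem_vv.2 ⟨Y, hY, haY⟩)

end main

theorem red_pos (H : SimpleGraph W) (𝒳 : Finset (Finset W))
    (hdom : ∀ w, ∃ X ∈ 𝒳, ∀ x ∈ X, H.Adj w x)
    (hne : ∀ X ∈ 𝒳, X.Nonempty)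
    (b : W → ℕ) (e : Finset W → ℕ) (s n : ℕ)
    (hlink : ∀ U : Finset W, (∀ X ∈ 𝒳, ¬ X ⊆ U) → Acyc (GamLk H 𝒳 b e s U) n) :
    Acyc (KK (GX H 𝒳) (Sum.elim b (fun X => e X.1)) s) n := by
  intro j hj
  rw [van_KK_iff H 𝒳 b e s hdom]
  exact KU_acyc H 𝒳 b e s (fun _ => True) (fun _ _ _ _ => trivial) n
    (fun U _ hU => hlink U hU) _ ∅ rfl trivial j hj

theorem red_neg (H : SimpleGraph W) (𝒳 : Finset (Finset W))
    (hdom : ∀ w, ∃ X ∈ 𝒳, ∀ x ∈ X, H.Adj w x)
    (hne : ∀ X ∈ 𝒳, X.Nonempty)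
    (b : W → ℕ) (e : Finset W → ℕ) (s n : ℕ) (hn : 1 ≤ n)
    (hlink : ∀ U : Finset W, U.Nonempty → (∀ X ∈ 𝒳, ¬ X ⊆ U) → Acyc (GamLk H 𝒳 b e s U) n)
    (hneg : ¬ Van (Gam H 𝒳 b e s) (n - 1)) :
    ¬ Van (KK (GX H 𝒳) (Sum.elim b (fun X => e X.1)) s) (n - 1) := by
  rw [van_KK_iff H 𝒳 b e s hdom]
  intro hK
  apply hneg
  have hP : Van (PU H 𝒳 b e s ∅) (n - 1) := by
    apply van_of_fib (isDown_PU H 𝒳 b e s ∅) (YW 𝒳 ∅)
    intro B hB hc
    obtain ⟨B0, rfl⟩ : ∃ B0 : Finset W, B = B0.map Function.Embedding.inl := by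
      refine ⟨B.toLeft, ?_⟩
      ext (w | X)
      · simp
      · simp
        intro h
        have := hB h
        unfold YW at this
        simp at this
    rw [Finset.card_map] at hc ⊢
    apply van_congr (fun σ => (fib_YW H 𝒳 b e s ∅ B0 (Finset.disjoint_empty_right _) σ).symm)
    rw [Finset.empty_union]
    rcases Finset.eq_empty_or_nonempty B0 with rfl | hne0
    · rw [Finset.card_empty, Nat.sub_zero]; exact hK
    · exact KU_acyc H 𝒳 b e s (fun U => U.Nonempty) (fun _ _ h h' => h'.mono h) n hlink _ B0 rfl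
        hne0 _ (by omega)
  have h1 := van_fib_empty (isDown_PU H 𝒳 b e s ∅) (YX 𝒳) hP (by
    intro B hB hneB hc
    apply cone_YX H 𝒳 b e s ∅ _ B hB hneB
    intro X hX hX'
    exact (hne X hX).ne_empty (Finset.subset_empty.1 hX'))
  rw [fib_YX_empty] at h1
  apply van_congr _ h1
  intro σ
  unfold GamLk
  simp

end Pool.Agent.H40.SD
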