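import Pool.Agent.H40.SD.Defs

/-! # Multigraded strands of the Koszul complex of a monomial quotient: part A -/

set_option autoImplicit false

open MvPolynomial

namespace Pool.Agent.H40.SD

variable {V : Type} [Fintype V] [DecidableEq V]

/-- `J` is the monomial ideal whose monomials are those with exponent in `𝒥`. -/
def IsMono (J : Ideal (MvPolynomial V (ZMod 2))) (𝒥 : (V → ℕ) → Prop) : Prop :=
  ∀ f, f ∈ J ↔ ∀ u ∈ f.support, 𝒥 (fun v => u v)

/-- add the indicator function of `τ` -/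
def addInd (c : V → ℕ) (τ : Finset V) : V → ℕ := fun v => c v + if v ∈ τ then 1 else 0

/-- the exponent of a function -/
noncomputable def expo (c : V → ℕ) : V →₀ ℕ := Finsupp.equivFunOnFinite.symm c

@[simp] lemma expo_apply (c : V → ℕ) (v : V) : expo c v = c v := rfl

lemma coeff_eq_zero_of_mem {J : Ideal (MvPolynomial V (ZMod 2))} {𝒥 : (V → ℕ) → Prop}
    (hJ : IsMono J 𝒥) {f : MvPolynomial V (ZMod 2)} (hf : f ∈ J) (u : V →₀ ℕ)
    (hu : ¬ 𝒥 (fun v => u v)) : coeff u f = 0 := by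
  by_contra hne
  exact hu ((hJ f).1 hf u (mem_support_iff.2 hne))

lemma mem_of_coeff {J : Ideal (MvPolynomial V (ZMod 2))} {𝒥 : (V → ℕ) → Prop}
    (hJ : IsMono J 𝒥) {f : MvPolynomial V (ZMod 2)}
    (h : ∀ u : V →₀ ℕ, ¬ 𝒥 (fun v => u v) → coeff u f = 0) : f ∈ J := by
  refine (hJ f).2 fun u hu => ?_
  by_contra hne
  exact (mem_support_iff.1 hu) (h u hne)

/-- the Koszul coboundary of a lift -/
noncomputable def kl (w : Finset V → MvPolynomial V (ZMod 2)) (σ : Finset V) :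
    MvPolynomial V (ZMod 2) := ∑ v ∈ σ, X v * w (σ.erase v)

lemma mk_kl (J : Ideal (MvPolynomial V (ZMod 2))) (w : Finset V → MvPolynomial V (ZMod 2))
    (ω : Finset V → MvPolynomial V (ZMod 2) ⧸ J) (hw : ∀ σ, Ideal.Quotient.mk J (w σ) = ω σ)
    (σ : Finset V) :
    Ideal.Quotient.mk J (kl w σ) = kcb (X : V → MvPolynomial V (ZMod 2)) ω σ := by
  unfold kl kcb
  rw [map_sum]
  refine Finset.sum_congr rfl fun v _ => ?_
  rw [← hw, ← Ideal.Quotient.mk_eq_mk, ← Ideal.Quotient.mk_eq_mk, ← smul_eq_mul]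
  rfl

lemma coeff_kl (w : Finset V → MvPolynomial V (ZMod 2)) (σ : Finset V) (u : V →₀ ℕ) :
    coeff u (kl w σ) =
      ∑ v ∈ σ, if u v = 0 then 0 else coeff (u - Finsupp.single v 1) (w (σ.erase v)) := by
  unfold kl
  rw [coeff_sum]
  refine Finset.sum_congr rfl fun v _ => ?_
  rw [coeff_X_mul']
  by_cases h : u v = 0
  · simp [h]
  · simp [h]

/-- the strand cochain -/
noncomputable def fstr (w : Finset V → MvPolynomial V (ZMod 2)) (c : V → ℕ) (S : Finset V)
    (τ : Finset V) : ZMod 2 := coeff (expo (addInd c τ)) (w (S ∪ τ))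

lemma cb_fstr (w : Finset V → MvPolynomial V (ZMod 2)) (c : V → ℕ) (S : Finset V)
    (hc : ∀ v ∈ S, c v = 0) (τ : Finset V) (hτ : Disjoint τ S) :
    coeff (expo (addInd c τ)) (kl w (S ∪ τ)) = cb (fstr w c S) τ := by
  rw [coeff_kl, cb, Finset.sum_union hτ.symm]
  have h0 : (∑ v ∈ S, if (expo (addInd c τ)) v = 0 then (0 : ZMod 2)
      else coeff (expo (addInd c τ) - Finsupp.single v 1) (w ((S ∪ τ).erase v))) = 0 := by
    refine Finset.sum_eq_zero fun v hv => ?_
    have hvτ : v ∉ τ := fun h => (Finset.disjoint_left.1 hτ h) hv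
    simp [addInd, hc v hv, hvτ]
  rw [h0, zero_add]
  refine Finset.sum_congr rfl fun v hv => ?_
  have hvS : v ∉ S := Finset.disjoint_left.1 hτ hv
  have h1 : (expo (addInd c τ)) v ≠ 0 := by simp [addInd, hv]
  rw [if_neg h1]
  have h2 : expo (addInd c τ) - Finsupp.single v 1 = expo (addInd c (τ.erase v)) := by
    ext z
    simp only [Finsupp.coe_tsub, Pi.sub_apply, expo_apply, addInd, Finset.mem_erase]
    by_cases hz : z = v
    · subst hz; simp [hv]
    · simp [hz]
  have h3 : (S ∪ τ).erase v = S ∪ τ.erase v := by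
    ext z
    simp only [Finset.mem_erase, Finset.mem_union]
    constructor
    · rintro ⟨h, h' | h'⟩
      · exact Or.inl h'
      · exact Or.inr ⟨h, h'⟩
    · rintro (h' | ⟨h, h'⟩)
      · exact ⟨fun h => hvS (h ▸ h'), Or.inl h'⟩
      · exact ⟨h, Or.inr h'⟩
  rw [h2, h3, fstr]

theorem kvan_of_strands (J : Ideal (MvPolynomial V (ZMod 2))) (𝒥 : (V → ℕ) → Prop)
    (hJ : IsMono J 𝒥) (_hup : ∀ u v : V → ℕ, 𝒥 u → u ≤ v → 𝒥 v) (i : ℕ)
    (h : ∀ (c : V → ℕ) (S : Finset V), (∀ v ∈ S, c v = 0) → S.card ≤ i →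
      Van (fun τ => Disjoint τ S ∧ ¬ 𝒥 (addInd c τ)) (i - S.card)) :
    KVan (X : V → MvPolynomial V (ZMod 2)) (MvPolynomial V (ZMod 2) ⧸ J) i := by
  classical
  intro ω hω
  -- lifts
  choose w hw using fun σ => Ideal.Quotient.mk_surjective (I := J) (ω σ)
  -- cocycle condition of strands
  have hcoc : ∀ (c : V → ℕ) (S : Finset V), (∀ v ∈ S, c v = 0) → S.card ≤ i →
      ∀ τ, (Disjoint τ S ∧ ¬ 𝒥 (addInd c τ)) → τ.card = (i - S.card) + 1 →
        cb (fstr w c S) τ = 0 := by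
    intro c S hc hS τ hτ hcard
    rw [← cb_fstr w c S hc τ hτ.1]
    have hk : kl w (S ∪ τ) ∈ J := by
      rw [← Ideal.Quotient.eq_zero_iff_mem, mk_kl J w ω hw]
      refine hω _ ?_
      rw [Finset.card_union_of_disjoint hτ.1.symm]
      omega
    exact coeff_eq_zero_of_mem hJ hk _ hτ.2
  have hex : ∀ (c : V → ℕ) (S : Finset V), ∃ g : Finset V → ZMod 2,
      ((∀ τ, fstr w c S τ = 0) → g = 0) ∧
      ((∀ v ∈ S, c v = 0) → S.card ≤ i →
        ∀ τ, (Disjoint τ S ∧ ¬ 𝒥 (addInd c τ)) → τ.card = i - S.card →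
          fstr w c S τ = cb g τ) := by
    intro c S
    by_cases h0 : ∀ τ, fstr w c S τ = 0
    · refine ⟨0, fun _ => rfl, fun _ _ τ _ _ => ?_⟩
      rw [h0]; simp [cb]
    · by_cases h1 : (∀ v ∈ S, c v = 0) ∧ S.card ≤ i
      · obtain ⟨g, hg⟩ := h c S h1.1 h1.2 (fstr w c S) (hcoc c S h1.1 h1.2)
        exact ⟨g, fun h => absurd h h0, fun _ _ => hg⟩
      · exact ⟨0, fun h => absurd h h0, fun ha hb => absurd ⟨ha, hb⟩ h1⟩
  choose g hg0 hg using hex
  -- bound on the exponents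
  obtain ⟨N, hN⟩ : ∃ N : ℕ, ∀ σ, ∀ u ∈ (w σ).support, ∀ v, u v ≤ N := by
    refine ⟨Finset.univ.sup fun σ => (w σ).totalDegree, fun σ u hu v => ?_⟩
    have h1 : u v ≤ (u.sum fun _ e => e) := by
      by_cases hv : v ∈ u.support
      · exact Finset.single_le_sum (f := fun v => u v) (fun _ _ => Nat.zero_le _) hv
      · simp only [Finsupp.mem_support_iff, not_not] at hv
        omega
    exact h1.trans ((le_totalDegree hu).trans
      (Finset.le_sup (f := fun σ => (w σ).totalDegree) (Finset.mem_univ σ)))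
  set B : Finset (V →₀ ℕ) := Finset.Iic (expo fun _ => N + 1) with hB
  let cc : (V →₀ ℕ) → Finset V → V → ℕ := fun u ρ v => u v - if v ∈ ρ then 1 else 0
  let ZZ : (V →₀ ℕ) → Finset V → Finset V := fun u ρ => ρ.filter fun v => u v = 0
  let val : Finset V → (V →₀ ℕ) → ZMod 2 := fun ρ u => g (cc u ρ) (ZZ u ρ) (ρ \ ZZ u ρ)
  let η : Finset V → MvPolynomial V (ZMod 2) := fun ρ => ∑ u ∈ B, monomial u (val ρ u)
  have hη : ∀ ρ u, coeff u (η ρ) = val ρ u := by
    intro ρ u
    have h1 : coeff u (η ρ) = ∑ u' ∈ B, if u' = u then val ρ u' else 0 := by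
      simp only [η, coeff_sum, coeff_monomial]
    rw [h1, Finset.sum_ite_eq']
    split_ifs with huB
    · rfl
    · have h2 : ∃ v, N + 1 < u v := by
        by_contra hcon
        push Not at hcon
        exact huB (by rw [hB, Finset.mem_Iic]; intro v; exact hcon v)
      obtain ⟨v, hv⟩ := h2
      have h3 : ∀ τ, fstr w (cc u ρ) (ZZ u ρ) τ = 0 := by
        intro τ
        unfold fstr
        by_contra hne
        have := hN _ _ (mem_support_iff.2 hne) v
        simp only [expo_apply, addInd, cc] at this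
        split_ifs at this <;> omega
      show (0 : ZMod 2) = g (cc u ρ) (ZZ u ρ) (ρ \ ZZ u ρ)
      rw [hg0 _ _ h3]; rfl
  refine ⟨fun σ => Ideal.Quotient.mk J (η σ), fun σ hσ => ?_⟩
  rw [← mk_kl J η _ (fun _ => rfl), ← hw, Ideal.Quotient.eq]
  refine mem_of_coeff hJ fun u hu => ?_
  rw [coeff_sub, sub_eq_zero, coeff_kl]
  -- rewrite the right side
  have hZσ : ZZ u σ ⊆ σ := Finset.filter_subset _ _
  have hc0 : ∀ v ∈ ZZ u σ, cc u σ v = 0 := by
    intro v hv
    have := (Finset.mem_filter.1 hv).2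
    simp [cc, this]
  have hadd : addInd (cc u σ) (σ \ ZZ u σ) = fun v => u v := by
    funext v
    simp only [addInd, cc, ZZ, Finset.mem_sdiff, Finset.mem_filter, not_and]
    by_cases hv : v ∈ σ
    · by_cases h0 : u v = 0
      · simp [hv, h0]
      · have : 1 ≤ u v := Nat.one_le_iff_ne_zero.2 h0
        simp [hv, h0]; omega
    · simp [hv]
  have hunion : ZZ u σ ∪ (σ \ ZZ u σ) = σ := Finset.union_sdiff_of_subset hZσ
  have hkey := hg (cc u σ) (ZZ u σ) hc0 ((Finset.card_le_card hZσ).trans hσ.le)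
    (σ \ ZZ u σ) ⟨Finset.sdiff_disjoint, by rw [hadd]; exact hu⟩
    (by rw [Finset.card_sdiff_of_subset hZσ, hσ])
  have hl : coeff u (w σ) = fstr w (cc u σ) (ZZ u σ) (σ \ ZZ u σ) := by
    unfold fstr
    rw [hunion, hadd]
    rw [show expo (fun v => u v) = u from Finsupp.ext fun v => rfl]
  rw [hl, hkey, cb]
  -- split the sum over σ
  rw [← Finset.sum_sdiff hZσ (f := fun v => if u v = 0 then (0 : ZMod 2)
    else coeff (u - Finsupp.single v 1) (η (σ.erase v)))]
  have hz : (∑ v ∈ ZZ u σ, if u v = 0 then (0 : ZMod 2)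
      else coeff (u - Finsupp.single v 1) (η (σ.erase v))) = 0 := by
    refine Finset.sum_eq_zero fun v hv => ?_
    rw [if_pos (Finset.mem_filter.1 hv).2]
  rw [hz, add_zero]
  refine Finset.sum_congr rfl fun v hv => ?_
  have hvσ : v ∈ σ := (Finset.mem_sdiff.1 hv).1
  have huv : u v ≠ 0 := by
    intro h0
    exact (Finset.mem_sdiff.1 hv).2 (Finset.mem_filter.2 ⟨hvσ, h0⟩)
  rw [if_neg huv, hη]
  show _ = g (cc (u - Finsupp.single v 1) (σ.erase v)) (ZZ (u - Finsupp.single v 1) (σ.erase v))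
    (σ.erase v \ ZZ (u - Finsupp.single v 1) (σ.erase v))
  have e1 : cc (u - Finsupp.single v 1) (σ.erase v) = cc u σ := by
    funext z
    simp only [cc, Finsupp.coe_tsub, Pi.sub_apply, Finset.mem_erase]
    by_cases hz : z = v
    · subst hz; simp [hvσ]
    · simp [hz, Finsupp.single_apply, Ne.symm hz]
  have e2 : ZZ (u - Finsupp.single v 1) (σ.erase v) = ZZ u σ := by
    ext z
    simp only [ZZ, Finset.mem_filter, Finset.mem_erase, Finsupp.coe_tsub, Pi.sub_apply]
    by_cases hz : z = v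
    · subst hz; simp [huv]
    · simp [hz, Finsupp.single_apply, Ne.symm hz]
  have e3 : σ.erase v \ ZZ u σ = (σ \ ZZ u σ).erase v := by
    ext z
    simp only [Finset.mem_sdiff, Finset.mem_erase]
    tauto
  rw [e1, e2, e3]

end Pool.Agent.H40.SD
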