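import Pool.Agent.H40.SD.Design

/-! # Theorem C, case κ < 0 -/

set_option autoImplicit false

namespace Pool.Agent.H40.SD

namespace Design

open Finset

variable (D : Design)

private theorem neg_card_star_le (n : D.St) : (D.star n).card ≤ D.M := by
  by_cases h : D.full n
  · exact (D.card_full n h).le
  · exact (D.card_le n h).trans (Nat.sub_le _ _)

theorem obj_neg (c : D.W → ℕ) (e : Finset D.W → ℕ) (k' : ℕ) (hk : 1 ≤ k') (U : Finset D.W)
    (hU : ∃ n, U ⊆ D.star n) (hC : ∑ w, c w ≤ U.card + 1 + k') (j : ℕ) :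
    Van (D.Obj c e 0 k' U ∅) j := by
  classical
  obtain ⟨n0, hn0⟩ := hU
  by_cases h : ∃ i, D.z i ∉ U ∧ ∀ n, D.z i ∈ D.star n → ∑ w ∈ D.star n, c w < k'
  · obtain ⟨i, hiU, hi⟩ := h
    refine van_of_cone (D.z i) ?_
    rintro σ ⟨hσ, A, hA, hAd⟩ _
    refine ⟨?_, A, hA, ?_⟩
    · rw [disjoint_insert_left, union_empty]
      rw [union_empty] at hσ
      exact ⟨hiU, hσ⟩
    · rw [disjoint_union_right] at hAd
      rw [disjoint_union_right, disjoint_insert_right]
      refine ⟨⟨?_, hAd.1⟩, hAd.2⟩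
      intro hz
      obtain ⟨⟨n, hn⟩, hA⟩ := hA
      have h1 := hi n (hn hz)
      have h2 : A.card ≤ D.M := (card_le_card hn).trans (D.neg_card_star_le n)
      have h3 : ∑ w ∈ A, c w ≤ ∑ w ∈ D.star n, c w := sum_le_sum_of_subset hn
      omega
  · exfalso
    push Not at h
    set S : Finset (Fin (D.M + 4)) := univ.filter (fun a => D.z (D.far a) ∉ U) with hS
    have hSc : D.M + 3 ≤ S.card := by
      have h1 : (univ.filter (fun a => ¬ D.z (D.far a) ∉ U)).card ≤ 1 := by
        rw [card_le_one]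
        intro a ha b hb
        rw [mem_filter, not_not] at ha hb
        by_contra hne
        have := D.far_disj a b hne n0 n0 (hn0 ha.2) (hn0 hb.2)
        rw [disjoint_self] at this
        have h1 := hn0 ha.2
        rw [this] at h1
        simp at h1
      have h2 := card_filter_add_card_filter_not (s := (univ : Finset (Fin (D.M + 4))))
        (fun a => D.z (D.far a) ∉ U)
      rw [card_univ, Fintype.card_fin] at h2
      rw [hS]
      omega
    have hex : ∀ a : Fin (D.M + 4), ∃ n, a ∈ S → D.z (D.far a) ∈ D.star n ∧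
        k' ≤ ∑ w ∈ D.star n, c w := by
      intro a
      by_cases ha : a ∈ S
      · obtain ⟨n, hn, hn'⟩ := h (D.far a) (by rw [hS, mem_filter] at ha; exact ha.2)
        exact ⟨n, fun _ => ⟨hn, hn'⟩⟩
      · exact ⟨n0, fun h => absurd h ha⟩
    choose ν hν using hex
    have hdis : Set.PairwiseDisjoint (S : Set (Fin (D.M + 4))) (fun a => D.star (ν a)) := by
      intro a ha b hb hab
      exact D.far_disj a b hab _ _ (hν a ha).1 (hν b hb).1
    have h1 : ∑ a ∈ S, k' ≤ ∑ a ∈ S, ∑ w ∈ D.star (ν a), c w :=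
      sum_le_sum fun a ha => (hν a ha).2
    rw [← sum_biUnion hdis, sum_const, smul_eq_mul] at h1
    have h2 : ∑ w ∈ S.biUnion (fun a => D.star (ν a)), c w ≤ ∑ w, c w :=
      sum_le_sum_of_subset (subset_univ _)
    have h3 : U.card ≤ D.M := (card_le_card hn0).trans (D.neg_card_star_le n0)
    have h4 : (D.M + 3) * k' ≤ S.card * k' := Nat.mul_le_mul_right _ hSc
    have h5 : (D.M + 3) * k' = (D.M + 2) * k' + k' := by ring
    have h6 : D.M + 2 ≤ (D.M + 2) * k' := Nat.le_mul_of_pos_right _ (by omega)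
    omega

end Design

end Pool.Agent.H40.SD
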