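import Pool.Agent.H40.SD.Design

/-! # Theorem C, case κ ≥ 1 -/

set_option autoImplicit false

namespace Pool.Agent.H40.SD

namespace Design

open Finset

variable (D : Design)

theorem pos_obj_down (c : D.W → ℕ) (e : Finset D.W → ℕ) (k k' : ℕ) (V Fr : Finset D.W) :
    IsDown (D.Obj c e k k' V Fr) := by
  rintro σ τ hστ ⟨h1, A, hA, h2⟩
  refine ⟨h1.mono_left hστ, A, hA, h2.mono_right ?_⟩
  exact union_subset_union hστ le_rfl

theorem pos_card_star_le (n : D.St) : (D.star n).card ≤ D.M := by
  by_cases h : D.full n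
  · exact (D.card_full n h).le
  · exact (D.card_le n h).trans (Nat.sub_le _ _)

theorem pos_e2_ff (e : Finset D.W → ℕ) (a : D.Fi) : D.e2 e (D.star (D.ff a)) = 0 := by
  unfold e2
  refine sum_eq_zero fun X hX => ?_
  exfalso
  rw [mem_filter] at hX
  obtain ⟨hX, hX'⟩ := hX
  unfold X2 at hX
  rw [mem_filter] at hX
  obtain ⟨_, _, i, hi⟩ := hX
  exact hX' ((D.ff_Y a i).symm.mono_left hi)

theorem pos_exists_z_notin (U : Finset D.W) (hU : ∃ n, U ⊆ D.star n) : ∃ i, D.z i ∉ U := by
  by_contra hcon
  push Not at hcon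
  obtain ⟨n0, hn0⟩ := hU
  have h0 : (⟨0, by omega⟩ : Fin (D.M + 4)) ≠ ⟨1, by omega⟩ := by
    intro h; simp at h
  have := D.far_disj _ _ h0 n0 n0 (hn0 (hcon _)) (hn0 (hcon _))
  rw [disjoint_self] at this
  have h1 := hn0 (hcon (D.far ⟨0, by omega⟩))
  rw [this] at h1
  simp at h1

theorem obj_pos (c : D.W → ℕ) (e : Finset D.W → ℕ) (k : ℕ) (hk : 1 ≤ k) (U : Finset D.W)
    (hU : ∃ n, U ⊆ D.star n) : Acyc (D.Obj c e k 0 U ∅) D.q := by
  classical
  intro j hj
  set Y : Finset D.W := univ.filter (fun w => w ∉ U ∧ ∀ i, w ≠ D.z i) with hY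
  refine van_of_fib (D.pos_obj_down _ _ _ _ _ _) Y ?_
  intro L hL hLj
  obtain ⟨i0, hi0⟩ := D.pos_exists_z_notin U hU
  have hzY : ∀ i, D.z i ∉ Y := by
    intro i hi
    rw [hY, mem_filter] at hi
    exact hi.2.2 i rfl
  have hLU : Disjoint L U := by
    rw [disjoint_left]
    intro w hw hw'
    have := hL hw
    rw [hY, mem_filter] at this
    exact this.2.1 hw'
  by_cases hff : ∃ a, Disjoint (D.star (D.ff a)) (L ∪ U)
  · obtain ⟨a, ha⟩ := hff
    refine van_of_cone (D.z i0) ?_
    rintro σ ⟨hσY, hσ, -⟩ _
    have hσU : Disjoint σ U := by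
      have := hσ.mono_left (subset_union_right (s₁ := L) (s₂ := σ))
      exact this.mono_right subset_union_left
    refine ⟨?_, ?_, D.star (D.ff a), ⟨⟨_, subset_rfl⟩, ?_⟩, ?_⟩
    · rw [disjoint_insert_left]
      exact ⟨hzY _, hσY⟩
    · rw [union_empty, disjoint_union_left, disjoint_insert_left]
      exact ⟨hLU, hi0, hσU⟩
    · rw [D.pos_e2_ff]
      have := D.ff_card a
      have := D.hM
      omega
    · rw [disjoint_right]
      intro w hw hw'
      rw [disjoint_right] at ha
      rw [mem_union, mem_union, mem_insert] at hw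
      rcases hw with (hw | hw | hw) | hw
      · exact ha (mem_union_left _ hw) hw'
      · exact D.ff_z a i0 (hw ▸ hw')
      · rw [disjoint_left] at hσY hσU
        have h1 := hσY hw
        rw [hY, mem_filter] at h1
        have h2 := hσU hw
        have : ¬ ∀ i, w ≠ D.z i := fun h => h1 ⟨mem_univ _, h2, h⟩
        push Not at this
        obtain ⟨i, hi⟩ := this
        exact D.ff_z a i (hi ▸ hw')
      · exact ha (mem_union_right _ hw) hw'
  · push Not at hff
    -- counting
    have hcard : Fintype.card D.Fi ≤ (L ∪ U).card := by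
      have hex : ∀ a : D.Fi, ∃ w ∈ L ∪ U, w ∈ D.star (D.ff a) := by
        intro a
        obtain ⟨w, hw, hw'⟩ := Finset.not_disjoint_iff.1 (hff a)
        exact ⟨w, hw', hw⟩
      choose g hg hg' using hex
      have hinj : Function.Injective g := by
        intro a b hab
        by_contra hne
        have := D.ff_disj a b hne
        rw [disjoint_left] at this
        exact this (hg' a) (hab ▸ hg' b)
      have := Finset.card_le_card_of_injOn (s := (univ : Finset D.Fi)) (t := L ∪ U) g
        (fun a _ => hg a) (fun a _ b _ h => hinj h)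
      simpa using this
    obtain ⟨n0, hn0⟩ := hU
    have hUM : U.card ≤ D.M := (card_le_card hn0).trans (D.pos_card_star_le n0)
    have hLUc := card_union_le L U
    have hnum := D.numeric
    have hq : j < Fintype.card D.I := hj
    have hCl : j - L.card + 3 ≤ Fintype.card D.Cl := by omega
    by_cases hcone : ∃ i, D.z i ∉ U ∧ ∀ σ, fib (D.Obj c e k 0 U ∅) Y L σ → σ.card = j - L.card →
        fib (D.Obj c e k 0 U ∅) Y L (insert (D.z i) σ)
    · obtain ⟨i, _, hi⟩ := hcone
      exact van_of_cone _ hi
    · push Not at hcone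
      have hA : ∀ i, D.z i ∉ U → ∃ A, D.Alive c e k 0 A ∧ D.z i ∈ A ∧ Disjoint A (L ∪ U) := by
        intro i hi
        obtain ⟨σ, ⟨hσ1, hσ2, A, hA, hAd⟩, _, hσ⟩ := hcone i hi
        refine ⟨A, hA, ?_, ?_⟩
        · by_contra hzA
          apply hσ
          refine ⟨?_, ?_, A, hA, ?_⟩
          · rw [disjoint_insert_left]
            exact ⟨hzY _, hσ1⟩
          · rw [union_empty, disjoint_union_left, disjoint_insert_left]
            rw [union_empty, disjoint_union_left] at hσ2
            exact ⟨hLU, hi, hσ2.2⟩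
          · rw [disjoint_union_right, disjoint_union_right, disjoint_insert_right]
            rw [disjoint_union_right, disjoint_union_right] at hAd
            exact ⟨⟨hAd.1.1, hzA, hAd.1.2⟩, hAd.2⟩
        · rw [disjoint_union_right, disjoint_union_right] at hAd
          rw [disjoint_union_right]
          exact ⟨hAd.1.1, hAd.2⟩
      have key : ∀ Z : Finset D.W, Disjoint Z Y → Disjoint Z U → Z.card + 2 ≤ Fintype.card D.Cl →
          fib (D.Obj c e k 0 U ∅) Y L Z := by
        intro Z hZY hZU hZc
        set T : Finset D.Cl := Z.image (fun w => D.cls (D.base w)) ∪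
          univ.filter (fun κ => ∃ i, D.cls i = κ ∧ D.z i ∈ U) with hT
        have hTc : T.card < Fintype.card D.Cl := by
          have h1 : (Z.image (fun w => D.cls (D.base w))).card ≤ Z.card := card_image_le
          have h2 : (univ.filter (fun κ => ∃ i, D.cls i = κ ∧ D.z i ∈ U)).card ≤ 1 := by
            rw [card_le_one]
            intro x hx y hy
            rw [mem_filter] at hx hy
            obtain ⟨_, i, rfl, hi⟩ := hx
            obtain ⟨_, i', rfl, hi'⟩ := hy
            exact D.cls_star n0 _ _ (hn0 hi) (hn0 hi')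
          have h3 := card_union_le (Z.image (fun w => D.cls (D.base w)))
            (univ.filter (fun κ => ∃ i, D.cls i = κ ∧ D.z i ∈ U))
          rw [← hT] at h3
          omega
        have hex : ∃ κ, κ ∉ T := by
          by_contra hcon
          push Not at hcon
          have : T = univ := eq_univ_iff_forall.2 hcon
          rw [this, card_univ] at hTc
          exact lt_irrefl _ hTc
        obtain ⟨κ, hκ⟩ := hex
        obtain ⟨i, hi⟩ := D.cls_surj κ
        rw [hT, mem_union, mem_image, mem_filter, not_or] at hκ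
        have hiU : D.z i ∉ U := fun h => hκ.2 ⟨mem_univ _, i, hi, h⟩
        obtain ⟨A, hAl, hzA, hAd⟩ := hA i hiU
        refine ⟨hZY, ?_, A, hAl, ?_⟩
        · rw [union_empty, disjoint_union_left]
          exact ⟨hLU, hZU⟩
        · rw [disjoint_union_right] at hAd
          rw [disjoint_union_right, disjoint_union_right]
          refine ⟨⟨hAd.1, ?_⟩, hAd.2⟩
          rw [disjoint_right]
          intro w hw hwA
          rw [disjoint_left] at hZY hZU
          have h1 := hZY hw
          rw [hY, mem_filter] at h1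
          have h2 := hZU hw
          have : ¬ ∀ i, w ≠ D.z i := fun h => h1 ⟨mem_univ _, h2, h⟩
          push Not at this
          obtain ⟨i', hi'⟩ := this
          obtain ⟨⟨n, hn⟩, _⟩ := hAl
          refine hκ.1 ⟨w, hw, ?_⟩
          rw [hi', D.base_z, ← hi]
          exact D.cls_star n _ _ (hn (hi' ▸ hwA)) (hn hzA)
      refine van_of_cone (D.z i0) ?_
      rintro σ ⟨hσY, hσ, -⟩ hσc
      apply key
      · rw [disjoint_insert_left]; exact ⟨hzY _, hσY⟩
      · rw [disjoint_insert_left]
        rw [union_empty, disjoint_union_left] at hσ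
        exact ⟨hi0, hσ.2⟩
      · have := card_insert_le (D.z i0) σ
        omega

end Design

end Pool.Agent.H40.SD
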