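import Pool.Agent.H40.SD.ThmCB

/-! # Theorem C, case κ = 0, final object with `V = ∅` -/

set_option autoImplicit false

namespace Pool.Agent.H40.SD

namespace Design

open Finset

variable (D : Design)

theorem cb2_z_star_Y {n : D.St} (hn : D.full n) {i : D.I} (hz : D.z i ∈ D.star n) :
    D.Y i ⊆ D.star n := by
  intro y hy
  apply D.dom_base y n hn
  rw [D.base_Y i y hy]
  exact hz

/-- `e2` is at least the weight of any pair that is hit -/
theorem cb2_le_e2 (e : Finset D.W → ℕ) {X A : Finset D.W} (hX : X ∈ D.X2)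
    (hXA : ¬ Disjoint X A) : e X ≤ D.e2 e A := by
  unfold e2
  exact single_le_sum (f := e) (fun _ _ => Nat.zero_le _) (mem_filter.2 ⟨hX, hXA⟩)

theorem cb2_mem_X2 {X : Finset D.W} : X ∈ D.X2 ↔ X.card = 2 ∧ ∃ i, X ⊆ D.Y i := by
  unfold X2
  simp

/-- the combinatorial heart: the complex of sets missed by a full star other than `S k` where
`k = kk i b ε` has no cohomology -/
theorem cb2_core (i : D.I) (b : Fin D.β) (ε : Bool) (j : ℕ) :
    Van (fun E : Finset D.W => ∃ n, D.full n ∧ n ≠ D.S (D.kk i b ε) ∧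
      Disjoint (D.star n) E) j := by
  set Δ : Finset D.W → Prop := fun E => ∃ n, D.full n ∧ n ≠ D.S (D.kk i b ε) ∧
      Disjoint (D.star n) E with hΔdef
  set k := D.kk i b ε with hk
  set k' := D.kk i b (!ε) with hk'
  have hkk' : k ≠ k' := by
    intro h
    have := D.kk_inj i (a₁ := (b, ε)) (a₂ := (b, !ε)) h
    have h2 : ε = !ε := congrArg Prod.snd this
    cases ε <;> simp at h2
  have hmem : ∀ w, w ∈ D.star (D.pp i b) ↔ D.base w = k ∨ D.base w = k' := by
    intro w
    rw [D.mem_pp, hk, hk']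
    cases ε
    · rfl
    · exact or_comm
  have hdown : IsDown Δ := by
    intro σ τ hστ hτ
    obtain ⟨n, hn, hn2, hd⟩ := hτ
    exact ⟨n, hn, hn2, hd.mono_right hστ⟩
  -- first removal
  set T1 : Finset D.W := (D.star (D.pp i b)).erase (D.z k) with hT1
  rw [van_iff_fib_of_dom hdown T1]
  swap
  · intro w hw
    refine ⟨D.z k, fun h => (mem_erase.1 h).1 rfl, ?_⟩
    rintro σ hwσ ⟨n, hn, hn2, hd⟩
    refine ⟨n, hn, hn2, ?_⟩
    rw [disjoint_insert_right]
    refine ⟨fun hz => ?_, hd⟩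
    rcases D.z_stars i b ε n hn hz with h | h
    · exact hn2 h
    · apply disjoint_right.1 hd hwσ
      rw [h]
      exact (mem_erase.1 hw).2
  have hdown1 : IsDown (fib Δ T1 ∅) := isDown_fib hdown _ _
  set T2 : Finset D.W := D.star (D.S k') \ D.star (D.pp i b) with hT2
  rw [van_iff_fib_of_dom hdown1 T2]
  swap
  · intro w hw
    rw [hT2, mem_sdiff, hmem, not_or] at hw
    have hzp : D.z (D.base w) ∉ D.star (D.pp i b) := by
      rw [hmem, D.base_z]
      exact fun h => h.elim hw.2.1 hw.2.2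
    have hzS : D.z (D.base w) ∉ D.star (D.S k') := by
      rw [D.z_mem_S]
      exact hw.2.2
    refine ⟨D.z (D.base w), fun h => hzS (mem_sdiff.1 h).1, ?_⟩
    rintro σ hwσ ⟨h1, n, hn, hn2, hd⟩
    refine ⟨?_, n, hn, hn2, ?_⟩
    · rw [disjoint_insert_left]
      exact ⟨fun h => hzp (mem_erase.1 h).2, h1⟩
    · rw [empty_union] at hd ⊢
      rw [disjoint_insert_right]
      refine ⟨fun hz => ?_, hd⟩
      exact disjoint_right.1 hd hwσ (D.dom_base w n hn hz)
  apply van_of_cone (D.z k)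
  rintro σ ⟨h2, h1, n, hn, hn2, hd⟩ -
  rw [empty_union] at h1
  have hzS : D.z k ∉ D.star (D.S k') := by
    rw [D.z_mem_S]
    exact hkk'
  have hzp : D.z k ∈ D.star (D.pp i b) := by
    rw [hmem, D.base_z]
    exact Or.inl rfl
  have hSne : D.S k' ≠ D.S k := by
    intro h
    apply hzS
    rw [h, D.z_mem_S]
  refine ⟨?_, ?_, D.S k', D.full_S _, hSne, ?_⟩
  · rw [disjoint_insert_left]
    exact ⟨fun h => (mem_sdiff.1 h).2 hzp, h2⟩
  · rw [empty_union, disjoint_insert_left]
    exact ⟨fun h => (mem_erase.1 h).1 rfl, h1⟩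
  · rw [empty_union, empty_union, disjoint_insert_right]
    refine ⟨hzS, ?_⟩
    rw [disjoint_right]
    intro w hw hwS
    by_cases hwp : w ∈ D.star (D.pp i b)
    · by_cases hwz : w = D.z k
      · exact hzS (hwz ▸ hwS)
      · exact disjoint_left.1 h1 hw (mem_erase.2 ⟨hwz, hwp⟩)
    · exact disjoint_left.1 h2 hw (mem_sdiff.2 ⟨hwS, hwp⟩)

theorem caseB_empty {c : D.W → ℕ} {e : Finset D.W → ℕ} (hC : ∑ w, c w = 1)
    (hF : D.Final c e ∅) (j : ℕ) : Van (D.Obj c e 0 0 ∅ ∅) j := by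
  classical
  -- the element of weight one
  obtain ⟨w1, hw1⟩ : ∃ w1, c w1 ≠ 0 := by
    by_contra hcon
    push Not at hcon
    rw [sum_eq_zero (fun w _ => hcon w)] at hC
    exact absurd hC (by norm_num)
  have hsplit := add_sum_erase univ c (mem_univ w1)
  have hc1 : c w1 = 1 := by
    have : 1 ≤ c w1 := Nat.one_le_iff_ne_zero.2 hw1
    omega
  have hrest : ∑ w ∈ univ.erase w1, c w = 0 := by omega
  have hc0 : ∀ w, w ≠ w1 → c w = 0 := by
    intro w hw
    exact (sum_eq_zero_iff.1 hrest) w (mem_erase.2 ⟨hw, mem_univ _⟩)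
  have hcA : ∀ A : Finset D.W, ∑ w ∈ A, c w = if w1 ∈ A then 1 else 0 := by
    intro A
    split_ifs with h
    · rw [sum_eq_single_of_mem w1 h (fun w _ hw => hc0 w hw), hc1]
    · exact sum_eq_zero (fun w hw => hc0 w (fun h' => h (h' ▸ hw)))
  -- a pair through `w1`
  have h1 := hF {w1} (singleton_nonempty _) (Or.inl (card_singleton _)) (disjoint_empty_right _)
  rw [hcA, if_pos (mem_singleton_self _)] at h1
  obtain ⟨X0, hX0, hX0w, hX0e⟩ : ∃ X ∈ D.X2, w1 ∈ X ∧ e X ≠ 0 := by
    by_contra hcon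
    push Not at hcon
    have : D.e2 e {w1} = 0 := by
      unfold e2
      apply sum_eq_zero
      intro X hX
      rw [mem_filter, disjoint_singleton_right, not_not] at hX
      exact hcon X hX.1 hX.2
    omega
  obtain ⟨hX0c, i, hX0Y⟩ := D.cb2_mem_X2.1 hX0
  have hw1Y : w1 ∈ D.Y i := hX0Y hX0w
  have hbase : ∀ j w, w ∈ D.Y j → w ∈ D.Y i → j = i := by
    intro j w h h'
    rw [← D.base_Y j w h, D.base_Y i w h']
  -- case (a)
  by_cases ha : ∃ X ∈ D.X2, e X ≠ 0 ∧ ∃ j, j ≠ i ∧ X ⊆ D.Y j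
  · obtain ⟨X, hX, hXe, j', hj', hXY⟩ := ha
    apply van_of_cone (D.z j')
    intro σ hσ _
    rw [D.obj_final_iff hF] at hσ ⊢
    obtain ⟨-, n, hn, hal, hd⟩ := hσ
    refine ⟨by simp, n, hn, hal, ?_⟩
    rw [union_empty] at hd ⊢
    rw [disjoint_insert_right]
    refine ⟨fun hz => ?_, hd⟩
    have hsub := D.cb2_z_star_Y hn hz
    have hg := D.gain_zero hF hn hal (disjoint_empty_right _) j'
    rw [inter_eq_right.2 hsub, hcA, if_neg (fun h => hj' (hbase j' w1 h hw1Y))] at hg
    have hne : ¬ Disjoint X (D.Y j') := by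
      rw [not_disjoint_iff]
      obtain ⟨hXc, -⟩ := D.cb2_mem_X2.1 hX
      obtain ⟨x, hx⟩ : X.Nonempty := by
        rw [← card_pos]; omega
      exact ⟨x, hx, hXY hx⟩
    have := D.cb2_le_e2 e hX hne
    omega
  push Not at ha
  -- case (b)
  by_cases hb : 2 ≤ D.e2 e (D.Y i)
  · apply van_of_cone (D.z i)
    intro σ hσ _
    rw [D.obj_final_iff hF] at hσ ⊢
    obtain ⟨-, n, hn, hal, hd⟩ := hσ
    refine ⟨by simp, n, hn, hal, ?_⟩
    rw [union_empty] at hd ⊢
    rw [disjoint_insert_right]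
    refine ⟨fun hz => ?_, hd⟩
    have hsub := D.cb2_z_star_Y hn hz
    have hg := D.gain_zero hF hn hal (disjoint_empty_right _) i
    rw [inter_eq_right.2 hsub, hcA, if_pos hw1Y] at hg
    omega
  -- case (c): `X0` is the only pair of positive weight
  have hX0i : ¬ Disjoint X0 (D.Y i) := not_disjoint_iff.2 ⟨w1, hX0w, hw1Y⟩
  have hle := D.cb2_le_e2 e hX0 hX0i
  have hX01 : e X0 = 1 := by
    have : 1 ≤ e X0 := Nat.one_le_iff_ne_zero.2 hX0e
    omega
  have hX0' : ∀ X ∈ D.X2, X ≠ X0 → e X = 0 := by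
    intro X hX hne
    by_contra hXe
    obtain ⟨hXc, j', hj'⟩ := D.cb2_mem_X2.1 hX
    have hXne : X.Nonempty := by rw [← card_pos]; omega
    have hji : j' = i := by
      by_contra hji
      exact (ha X hX hXe j' hji) hj'
    rw [hji] at hj'
    obtain ⟨x, hx⟩ := hXne
    have hXi : ¬ Disjoint X (D.Y i) := not_disjoint_iff.2 ⟨x, hx, hj' hx⟩
    have hsub : ({X, X0} : Finset (Finset D.W)) ⊆
        D.X2.filter (fun X => ¬ Disjoint X (D.Y i)) := by
      intro Z hZ
      rw [mem_insert, mem_singleton] at hZ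
      rw [mem_filter]
      rcases hZ with rfl | rfl
      · exact ⟨hX, hXi⟩
      · exact ⟨hX0, hX0i⟩
    have hle2 := sum_le_sum_of_subset (f := e) hsub
    rw [sum_pair hne] at hle2
    have hdef : D.e2 e (D.Y i) = ∑ X ∈ D.X2.filter (fun X => ¬ Disjoint X (D.Y i)), e X := rfl
    omega
  have he2 : ∀ A : Finset D.W, D.e2 e A = if Disjoint X0 A then 0 else 1 := by
    intro A
    unfold e2
    split_ifs with h
    · apply sum_eq_zero
      intro X hX
      rw [mem_filter] at hX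
      exact hX0' X hX.1 (fun h' => hX.2 (h' ▸ h))
    · rw [sum_eq_single_of_mem X0 (mem_filter.2 ⟨hX0, h⟩)
        (fun X hX hne => hX0' X (mem_filter.1 hX).1 hne), hX01]
  -- the second element
  obtain ⟨w2, hw2⟩ : ∃ w2, X0.erase w1 = {w2} := by
    rw [← card_eq_one, card_erase_of_mem hX0w, hX0c]
  have hw2X : w2 ∈ X0 ∧ w2 ≠ w1 := by
    have : w2 ∈ X0.erase w1 := by rw [hw2]; exact mem_singleton_self _
    rw [mem_erase] at this
    exact ⟨this.2, this.1⟩
  have hX0mem : ∀ x ∈ X0, x = w1 ∨ x = w2 := by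
    intro x hx
    by_cases hx1 : x = w1
    · exact Or.inl hx1
    · right
      have : x ∈ X0.erase w1 := mem_erase.2 ⟨hx1, hx⟩
      rw [hw2] at this
      exact mem_singleton.1 this
  obtain ⟨b1, ε1, hv1⟩ := (D.mem_Y i w1).1 hw1Y
  obtain ⟨b, ε, hv2⟩ := (D.mem_Y i w2).1 (hX0Y hw2X.1)
  have hw2S : w2 ∈ D.star (D.S (D.kk i b ε)) := by
    rw [hv2]; exact D.v_mem_S i b ε
  have hw1S : w1 ∉ D.star (D.S (D.kk i b ε)) := by
    intro h
    rw [hv1] at h
    rcases D.v_stars i b1 ε1 _ (D.full_S _) h with h | h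
    · rw [D.z_mem_S] at h
      exact D.kk_ne i b ε h.symm
    · have h3 : D.z (D.kk i b ε) ∈ D.star (D.S (D.kk i b1 ε1)) := by
        rw [← h, D.z_mem_S]
      rw [D.z_mem_S] at h3
      have h4 := D.kk_inj i (a₁ := (b, ε)) (a₂ := (b1, ε1)) h3
      apply hw2X.2
      rw [hv1, hv2]
      injection h4 with h5 h6
      rw [h5, h6]
  have halive : ∀ n, D.full n →
      (D.Alive c e 0 0 (D.star n) ↔ n ≠ D.S (D.kk i b ε)) := by
    intro n hn
    constructor
    · rintro hal rfl
      have hg := D.gain_zero hF hn hal (disjoint_empty_right _) i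
      rw [hcA, he2, if_neg (fun h => hw1S (mem_inter.1 h).1),
        if_neg (not_disjoint_iff.2 ⟨w2, hw2X.1, mem_inter.2 ⟨hw2S, hX0Y hw2X.1⟩⟩)] at hg
      exact absurd hg (by norm_num)
    · intro hne
      apply D.alive_of_gain_zero hn
      intro i'
      rw [hcA, he2]
      split_ifs with h3 h4 h5
      · exact Nat.zero_le _
      · exact Nat.zero_le _
      · exact le_refl _
      · exfalso
        rw [not_disjoint_iff] at h3
        obtain ⟨x, hx, hx2⟩ := h3
        rw [mem_inter] at hx2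
        have hi' : i' = i := hbase i' x hx2.2 (hX0Y hx)
        apply h5
        rw [mem_inter, hi']
        refine ⟨?_, hw1Y⟩
        rcases hX0mem x hx with rfl | rfl
        · exact hx2.1
        · rw [hv2] at hx2
          rcases D.v_stars i b ε n hn hx2.1 with h | h
          · exact D.cb2_z_star_Y hn h hw1Y
          · exact absurd h hne
  refine van_congr ?_ (D.cb2_core i b ε j)
  intro E
  rw [D.obj_final_iff hF]
  constructor
  · rintro ⟨n, hn, hne, hd⟩
    exact ⟨by simp, n, hn, (halive n hn).2 hne, by rw [union_empty]; exact hd⟩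
  · rintro ⟨-, n, hn, hal, hd⟩
    rw [union_empty] at hd
    exact ⟨n, hn, (halive n hn).1 hal, hd⟩

end Design

end Pool.Agent.H40.SD
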