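import Pool.Agent.H40.SD.ThmCB1
import Pool.Agent.H40.SD.ThmCB2

/-! # Theorem C, case κ = 0 -/

set_option autoImplicit false

namespace Pool.Agent.H40.SD

namespace Design

open Finset

variable (D : Design)

theorem card_star_le (n : D.St) : (D.star n).card ≤ D.M := by
  by_cases h : D.full n
  · exact (D.card_full n h).le
  · have := D.card_le n h
    omega

/-- a set `U` inside a star, a small set `Q` and another star do not cover all far `z`'s -/
theorem exists_far {U Q : Finset D.W} (hU : ∃ n, U ⊆ D.star n) (hQ : Q.card ≤ D.M + 1)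
    (n : D.St) : ∃ i, D.z i ∉ U ∧ D.z i ∉ Q ∧ D.z i ∉ D.star n := by
  classical
  obtain ⟨n0, hn0⟩ := hU
  by_contra hcon
  push Not at hcon
  have hone : ∀ m : D.St, (univ.filter fun a => D.z (D.far a) ∈ D.star m).card ≤ 1 := by
    intro m
    rw [Finset.card_le_one]
    intro a ha b hb
    rw [Finset.mem_filter] at ha hb
    by_contra hab
    have := D.far_disj a b hab m m ha.2 hb.2
    exact Finset.disjoint_left.1 this ha.2 ha.2
  have hinj : Function.Injective (fun a => D.z (D.far a)) := by
    intro a b hab
    by_contra hne
    have h1 : D.z (D.far a) ∈ D.star (D.S (D.far a)) := (D.z_mem_S _ _).2 rfl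
    have h2 : D.z (D.far b) ∈ D.star (D.S (D.far a)) := by
      have hab' : D.z (D.far a) = D.z (D.far b) := hab
      rw [← hab']; exact h1
    have := D.far_disj a b hne _ _ h1 h2
    exact Finset.disjoint_left.1 this h1 h1
  have hQ' : (univ.filter fun a => D.z (D.far a) ∈ Q).card ≤ Q.card := by
    rw [← Finset.card_image_of_injective _ hinj]
    apply Finset.card_le_card
    intro w hw
    rw [Finset.mem_image] at hw
    obtain ⟨a, ha, rfl⟩ := hw
    exact (Finset.mem_filter.1 ha).2
  have hcov : (univ : Finset (Fin (D.M + 4))) ⊆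
      (univ.filter fun a => D.z (D.far a) ∈ D.star n0) ∪
      ((univ.filter fun a => D.z (D.far a) ∈ Q) ∪
        (univ.filter fun a => D.z (D.far a) ∈ D.star n)) := by
    intro a _
    simp only [Finset.mem_union, Finset.mem_filter, Finset.mem_univ, true_and]
    by_cases h1 : D.z (D.far a) ∈ U
    · left; exact hn0 h1
    · by_cases h2 : D.z (D.far a) ∈ Q
      · right; left; exact h2
      · right; right; exact hcon _ h1 h2
  have h1 := Finset.card_le_card hcov
  rw [Finset.card_univ, Fintype.card_fin] at h1
  have h2 := Finset.card_union_le (univ.filter fun a => D.z (D.far a) ∈ D.star n0)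
    ((univ.filter fun a => D.z (D.far a) ∈ Q) ∪
        (univ.filter fun a => D.z (D.far a) ∈ D.star n))
  have h3 := Finset.card_union_le (univ.filter fun a => D.z (D.far a) ∈ Q)
    (univ.filter fun a => D.z (D.far a) ∈ D.star n)
  have h4 := hone n0
  have h5 := hone n
  omega

theorem obj_zero_aux (c : D.W → ℕ) (e : Finset D.W → ℕ) (U : Finset D.W) (m : ℕ) :
    ∀ (Q Fr : Finset D.W), D.Inv c U Q Fr →
      (U ∪ Q = ∅ → Fr = ∅ ∧ ∑ w, c w = 1) →
      (univ \ (U ∪ Q ∪ Fr)).card = m → ∀ j, Van (D.Obj c e 0 0 (U ∪ Q) Fr) j := by
  classical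
  induction m using Nat.strong_induction_on with
  | _ m ih =>
  intro Q Fr hI h0 hm j
  by_cases hF : D.Final c e (U ∪ Q)
  · by_cases hne : (U ∪ Q).Nonempty
    · exact D.caseB_nonempty hI hF hne j
    · rw [Finset.not_nonempty_iff_eq_empty] at hne
      obtain ⟨h1, h2⟩ := h0 hne
      rw [hne] at hF ⊢
      rw [h1]
      exact D.caseB_empty h2 hF j
  · -- a minimal kill-type set with positive gain
    have hex : ∃ k, ∃ A : Finset D.W, A.card = k ∧ A.Nonempty ∧
        (A.card = 1 ∨ ∃ i, A ⊆ D.Y i) ∧ Disjoint A (U ∪ Q) ∧ D.e2 e A < ∑ w ∈ A, c w := by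
      unfold Final at hF
      push Not at hF
      obtain ⟨A, h1, h2, h3, h4⟩ := hF
      exact ⟨A.card, A, rfl, h1, h2, h3, h4⟩
    obtain ⟨A, hAk, hAne, hAt, hAV, hAg⟩ := Nat.find_spec hex
    have hmin := fun (k : ℕ) (hk : k < Nat.find hex) => Nat.find_min hex hk
    have hAc : ∀ w ∈ A, c w ≠ 0 := by
      intro w hw hcw
      have hsum : ∑ x ∈ A.erase w, c x = ∑ x ∈ A, c x := by
        rw [← Finset.add_sum_erase A c hw, hcw, zero_add]
      have hlt : (A.erase w).card < A.card := Finset.card_erase_lt_of_mem hw
      have hne2 : (A.erase w).Nonempty := by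
        rw [Finset.nonempty_iff_ne_empty]
        intro hemp
        rw [hemp, Finset.sum_empty] at hsum
        omega
      have hpos : 0 < (A.erase w).card := Finset.card_pos.2 hne2
      apply hmin (A.erase w).card (by omega)
      refine ⟨A.erase w, rfl, hne2, ?_, hAV.mono_left (Finset.erase_subset _ _), ?_⟩
      · rcases hAt with h | ⟨i, h⟩
        · omega
        · exact Or.inr ⟨i, (Finset.erase_subset _ _).trans h⟩
      · rw [hsum]
        exact lt_of_le_of_lt (D.e2_mono e (Finset.erase_subset _ _)) hAg
    -- the kill star
    set B0 : Finset D.W := U ∪ univ.filter (fun w => c w ≠ 0) with hB0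
    obtain ⟨n0, hn0⟩ := hI.hU
    have hUM : U.card ≤ D.M := (Finset.card_le_card hn0).trans (D.card_star_le n0)
    have hsupp : (univ.filter (fun w => c w ≠ 0)).card ≤ ∑ w, c w := by
      rw [Finset.card_eq_sum_ones, Finset.sum_filter]
      apply Finset.sum_le_sum
      intro w _
      by_cases h : c w = 0
      · simp [h]
      · rw [if_pos h]; exact Nat.one_le_iff_ne_zero.2 h
    have hB0c : B0.card ≤ 2 * D.M + 1 := by
      have h1 := Finset.card_union_le U (univ.filter (fun w => c w ≠ 0))
      have h2 := hI.hC
      rw [← hB0] at h1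
      omega
    obtain ⟨n, hAn, hnM, hkill⟩ := D.kill A B0 hAne hAt hB0c
    have hVB0 : ∀ w ∈ U ∪ Q, w ∈ B0 := by
      intro w hw
      rw [Finset.mem_union] at hw
      rw [hB0, Finset.mem_union, Finset.mem_filter]
      rcases hw with hw | hw
      · left; exact hw
      · right; exact ⟨Finset.mem_univ _, hI.hQ w hw⟩
    have hzF : ∀ i, D.z i ∉ Fr := by
      intro i hi
      obtain ⟨l, hl⟩ := hI.hFrY _ hi
      exact D.z_notin_Y i l hl
    have hzbase : ∀ φ, D.z (D.base φ) ∈ D.star (D.S (D.base φ)) := fun φ => (D.z_mem_S _ _).2 rfl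
    have hphi : ∀ φ ∈ D.star n, φ ∉ A → φ ∉ B0 := by
      intro φ hφ hφA hB
      exact Finset.disjoint_left.1 ((hkill φ hφ hφA).2.2 _ (hzbase φ)) (D.z_mem_base φ) hB
    have hzphi : ∀ φ ∈ D.star n, φ ∉ A → D.z (D.base φ) ∉ B0 := by
      intro φ hφ hφA hB
      exact Finset.disjoint_left.1 ((hkill φ hφ hφA).2.2 _ (hzbase φ)) (hzbase φ) hB
    have hnV : Disjoint (D.star n) (U ∪ Q) := by
      rw [Finset.disjoint_left]
      intro w hw hwV
      by_cases hwA : w ∈ A
      · exact Finset.disjoint_left.1 hAV hwA hwV
      · exact hphi w hw hwA (hVB0 w hwV)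
    have hnal : D.Alive c e 0 0 (D.star n) := by
      refine ⟨⟨n, Finset.Subset.refl _⟩, ?_⟩
      have h1 : D.e2 e (D.star n) ≤ D.e2 e A := by
        unfold e2
        apply Finset.sum_le_sum_of_subset
        intro X hX
        rw [Finset.mem_filter] at hX ⊢
        refine ⟨hX.1, fun hd => hX.2 ?_⟩
        rw [Finset.disjoint_left]
        intro w hwX hwn
        by_cases hwA : w ∈ A
        · exact Finset.disjoint_left.1 hd hwX hwA
        · obtain ⟨_, i, hi⟩ := (D.mem_X2 X).1 hX.1
          exact (hkill w hwn hwA).1 i (hi hwX)
      have h2 : ∑ w ∈ A, c w ≤ ∑ w ∈ D.star n, c w := Finset.sum_le_sum_of_subset hAn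
      have h3 := D.hM
      omega
    have hdown := D.isDown_obj c e 0 0 (U ∪ Q) Fr
    -- filtration over `A \ Fr`
    apply van_of_fib hdown (A \ Fr)
    intro B hB _
    by_cases hBne : B.Nonempty
    · -- induction
      have hBA : B ⊆ A := hB.trans Finset.sdiff_subset
      have hBF : Disjoint B Fr := by
        rw [Finset.disjoint_left]
        intro w hw
        exact (Finset.mem_sdiff.1 (hB hw)).2
      have hBV : Disjoint B (U ∪ Q) := hAV.mono_left hBA
      have hI' : D.Inv c U (Q ∪ B) (Fr ∪ (A \ B)) := by
        refine ⟨hI.hU, hI.hUY, hI.hcU, hI.hC, ?_, ?_, ?_, ?_⟩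
        · intro w hw
          rw [Finset.mem_union] at hw
          rcases hw with hw | hw
          · exact hI.hQ w hw
          · exact hAc w (hBA hw)
        · intro w hw
          rw [Finset.mem_union, Finset.mem_sdiff] at hw
          rcases hw with hw | hw
          · exact hI.hFr w hw
          · exact hAc w hw.1
        · rw [Finset.disjoint_left]
          intro w hw hw'
          rw [Finset.mem_union] at hw
          rw [Finset.mem_union, Finset.mem_sdiff] at hw'
          rcases hw with hw | hw
          · rcases hw' with hw' | hw'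
            · exact Finset.disjoint_left.1 hI.hdisj hw hw'
            · exact Finset.disjoint_left.1 hAV hw'.1 (Finset.mem_union_right _ hw)
          · rcases hw' with hw' | hw'
            · exact Finset.disjoint_left.1 hBF hw hw'
            · exact hw'.2 hw
        · intro w hw
          rw [Finset.mem_union, Finset.mem_sdiff] at hw
          rcases hw with hw | hw
          · exact hI.hFrY w hw
          · rcases hAt with h | ⟨i, h⟩
            · exfalso
              have h1 : B = A := by
                apply Finset.eq_of_subset_of_card_le hBA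
                have := Finset.card_pos.2 hBne
                omega
              exact hw.2 (h1 ▸ hw.1)
            · exact ⟨i, h hw.1⟩
      have hlt : (univ \ (U ∪ (Q ∪ B) ∪ (Fr ∪ (A \ B)))).card < m := by
        rw [← hm]
        apply Finset.card_lt_card
        rw [Finset.ssubset_iff_of_subset]
        · obtain ⟨w, hw⟩ := hBne
          refine ⟨w, ?_, ?_⟩
          · rw [Finset.mem_sdiff, Finset.mem_union]
            refine ⟨Finset.mem_univ _, ?_⟩
            rintro (h | h)
            · exact Finset.disjoint_left.1 hBV hw h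
            · exact Finset.disjoint_left.1 hBF hw h
          · rw [Finset.mem_sdiff]
            rintro ⟨_, h⟩
            apply h
            simp [hw]
        · intro w hw
          rw [Finset.mem_sdiff] at hw ⊢
          refine ⟨Finset.mem_univ _, fun h => hw.2 ?_⟩
          simp only [Finset.mem_union] at h ⊢
          tauto
      have h1 := ih _ hlt (Q ∪ B) (Fr ∪ (A \ B)) hI' (by
        intro h
        exfalso
        obtain ⟨w, hw⟩ := hBne
        have : w ∈ U ∪ (Q ∪ B) := by simp [hw]
        rw [h] at this
        simp at this) rfl (j - B.card)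
      refine van_congr ?_ h1
      intro σ
      unfold Obj fib
      constructor
      · rintro ⟨h2, A0, hA0, hd⟩
        refine ⟨?_, ?_, A0, hA0, ?_⟩
        · rw [Finset.disjoint_left] at h2 ⊢
          intro w hw hwA
          apply h2 hw
          rw [Finset.mem_sdiff] at hwA
          by_cases hwB : w ∈ B
          · simp [hwB]
          · simp [hwB, hwA.1]
        · rw [Finset.disjoint_union_left]
          refine ⟨?_, ?_⟩
          · rw [Finset.disjoint_union_right]
            exact ⟨hBV, hBF⟩
          · rw [Finset.disjoint_left] at h2 ⊢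
            intro w hw hw'
            apply h2 hw
            simp only [Finset.mem_union] at hw' ⊢
            tauto
        · refine hd.mono_right ?_
          intro w hw
          simp only [Finset.mem_union] at hw ⊢
          tauto
      · rintro ⟨h2, h3, A0, hA0, hd⟩
        refine ⟨?_, A0, hA0, ?_⟩
        · rw [Finset.disjoint_left] at h2 h3 ⊢
          intro w hw hw'
          have h4 := h3 (Finset.mem_union_right B hw)
          simp only [Finset.mem_union, not_or] at h4
          have h5 : w ∈ A := by
            simp only [Finset.mem_union, Finset.mem_sdiff] at hw'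
            rcases hw' with (h | h | h) | (h | h)
            · exact absurd h h4.1.1
            · exact absurd h h4.1.2
            · exact hBA h
            · exact absurd h h4.2
            · exact h.1
          exact h2 hw (Finset.mem_sdiff.2 ⟨h5, h4.2⟩)
        · refine hd.mono_right ?_
          intro w hw
          simp only [Finset.mem_union] at hw ⊢
          tauto
    · -- the deletion of `A`
      rw [Finset.not_nonempty_iff_eq_empty] at hBne
      subst hBne
      rw [Finset.card_empty, Nat.sub_zero]
      apply van_of_fib (isDown_fib hdown _ _) (D.star n \ A)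
      intro B2 hB2 _
      by_cases hB2ne : B2.Nonempty
      · obtain ⟨φ, hφ⟩ := hB2ne
        have hφ' := Finset.mem_sdiff.1 (hB2 hφ)
        obtain ⟨_, hk2, hk3⟩ := hkill φ hφ'.1 hφ'.2
        apply van_of_cone (D.z (D.base φ))
        rintro σ ⟨hσ1, hσ2, hσ3, A0, hA0, hd⟩ _
        refine ⟨?_, ?_, ?_, A0, hA0, ?_⟩
        · rw [Finset.disjoint_insert_left]
          exact ⟨fun h => hk2 (Finset.mem_sdiff.1 h).1, hσ1⟩
        · rw [Finset.union_insert, Finset.disjoint_insert_left]
          exact ⟨fun h => hk2 (hAn (Finset.mem_sdiff.1 h).1), hσ2⟩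
        · rw [Finset.union_insert, Finset.union_insert, Finset.disjoint_insert_left]
          refine ⟨?_, hσ3⟩
          rw [Finset.mem_union]
          rintro (h | h)
          · exact hzphi φ hφ'.1 hφ'.2 (hVB0 _ h)
          · exact hzF _ h
        · have hzA0 : D.z (D.base φ) ∉ A0 := by
            intro hz
            obtain ⟨⟨n', hn'⟩, hal⟩ := hA0
            have hdis := hk3 n' (hn' hz)
            have hc0 : ∑ w ∈ A0, c w = 0 := by
              apply Finset.sum_eq_zero
              intro w hw
              by_contra hcw
              apply Finset.disjoint_left.1 hdis (hn' hw)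
              rw [hB0, Finset.mem_union, Finset.mem_filter]
              exact Or.inr ⟨Finset.mem_univ _, hcw⟩
            have hcard := Finset.card_le_card hn'
            have hfull : D.full n' := by
              by_contra hnf
              have h1 := D.card_le n' hnf
              have h2 := D.hM
              omega
            have h3 := D.card_full n' hfull
            have h4 : A0 = D.star n' := Finset.eq_of_subset_of_card_le hn' (by omega)
            have h5 := D.dom_base φ n' hfull (hn' hz)
            rw [← h4] at h5
            apply Finset.disjoint_left.1 hd h5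
            simp [hφ]
          rw [Finset.union_insert, Finset.union_insert, Finset.insert_union,
            Finset.disjoint_insert_right]
          exact ⟨hzA0, hd⟩
      · rw [Finset.not_nonempty_iff_eq_empty] at hB2ne
        subst hB2ne
        rw [Finset.card_empty, Nat.sub_zero]
        have hQ' : Q.card ≤ D.M + 1 := by
          have := hI.card_QFr
          omega
        obtain ⟨i, hi1, hi2, hi3⟩ := D.exists_far ⟨n0, hn0⟩ hQ' n
        apply van_of_cone (D.z i)
        rintro σ ⟨hσ1, hσ2, hσ3, -⟩ _
        rw [Finset.empty_union] at hσ2 hσ3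
        rw [Finset.empty_union] at hσ3
        refine ⟨?_, ?_, ?_, D.star n, hnal, ?_⟩
        · rw [Finset.disjoint_insert_left]
          exact ⟨fun h => hi3 (Finset.mem_sdiff.1 h).1, hσ1⟩
        · rw [Finset.empty_union, Finset.disjoint_insert_left]
          exact ⟨fun h => hi3 (hAn (Finset.mem_sdiff.1 h).1), hσ2⟩
        · rw [Finset.empty_union, Finset.empty_union, Finset.disjoint_insert_left]
          refine ⟨?_, hσ3⟩
          simp only [Finset.mem_union, not_or]
          exact ⟨⟨hi1, hi2⟩, hzF i⟩
        · rw [Finset.empty_union, Finset.empty_union, Finset.insert_union,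
            Finset.disjoint_insert_right]
          refine ⟨hi3, ?_⟩
          rw [Finset.disjoint_union_right]
          refine ⟨?_, hnV⟩
          rw [Finset.disjoint_left]
          intro w hw hwσ
          by_cases hwA : w ∈ A
          · have h1 : w ∉ Fr := by
              intro h
              exact Finset.disjoint_left.1 hσ3 hwσ (Finset.mem_union_right _ h)
            exact Finset.disjoint_left.1 hσ2 hwσ (Finset.mem_sdiff.2 ⟨hwA, h1⟩)
          · exact Finset.disjoint_left.1 hσ1 hwσ (Finset.mem_sdiff.2 ⟨hw, hwA⟩)

theorem obj_zero (c : D.W → ℕ) (e : Finset D.W → ℕ) (U : Finset D.W)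
    (hU : ∃ n, U ⊆ D.star n) (hUY : ∀ i, (U ∩ D.Y i).card ≤ 1) (hcU : ∀ w ∈ U, c w = 0)
    (hC : ∑ w, c w ≤ U.card + 1) (h0 : U = ∅ → ∑ w, c w = 1) (j : ℕ) :
    Van (D.Obj c e 0 0 U ∅) j := by
  have hI : D.Inv c U ∅ ∅ := by
    refine ⟨hU, hUY, hcU, hC, ?_, ?_, ?_, ?_⟩
    · intro w hw; simp at hw
    · intro w hw; simp at hw
    · exact Finset.disjoint_empty_left _
    · intro w hw; simp at hw
  have := D.obj_zero_aux c e U _ ∅ ∅ hI (by
    intro h
    rw [Finset.union_empty] at h
    exact ⟨rfl, h0 h⟩) rfl j
  rwa [Finset.union_empty] at this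

end Design

end Pool.Agent.H40.SD
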