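import Pool.Agent.H40.SD.Red
import Pool.Agent.H40.SD.ThmCPos
import Pool.Agent.H40.SD.ThmCNeg
import Pool.Agent.H40.SD.ThmCZero

/-! # Theorem C -/

set_option autoImplicit false

namespace Pool.Agent.H40.SD

namespace Design

open Finset

variable (D : Design)

theorem indep_iff (A : Finset D.W) : Indep D.H A ↔ ∃ n, A ⊆ D.star n := by
  constructor
  · intro h
    apply D.helly
    intro u hu w hw
    by_contra hcon
    push Not at hcon
    exact h hu hw (fun n hn => hcon n hn.1 hn.2)
  · rintro ⟨n, hn⟩ u hu w hw hadj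
    exact hadj n ⟨hn hu, hn hw⟩

theorem Y_sub_S (i : D.I) : D.Y i ⊆ D.star (D.S i) := by
  intro y hy
  apply D.dom_base y _ (D.full_S i)
  rw [D.base_Y i y hy, D.z_mem_S]

theorem disj_XE_X2 : Disjoint D.XE D.X2 := by
  classical
  rw [disjoint_left]
  intro X hX hX2
  unfold XE at hX
  unfold X2 at hX2
  rw [mem_filter] at hX hX2
  obtain ⟨_, w, w', hadj, rfl⟩ := hX
  obtain ⟨_, _, i, hi⟩ := hX2
  exact hadj (D.S i) ⟨D.Y_sub_S i (hi (by simp)), D.Y_sub_S i (hi (by simp))⟩

/-- the weight of the edges at `w` -/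
noncomputable def eE (e : Finset D.W → ℕ) (w : D.W) : ℕ :=
  ∑ X ∈ D.XE.filter (fun X => w ∈ X), e X

theorem XE_inter_card {A X : Finset D.W} (hA : Indep D.H A) (hX : X ∈ D.XE) :
    (A ∩ X).card ≤ 1 := by
  classical
  unfold XE at hX
  rw [mem_filter] at hX
  obtain ⟨_, w, w', hadj, rfl⟩ := hX
  rw [card_le_one]
  intro x hx y hy
  rw [mem_inter, mem_insert, mem_singleton] at hx hy
  obtain ⟨hxA, rfl | rfl⟩ := hx
  · obtain ⟨hyA, rfl | rfl⟩ := hy
    · rfl
    · exact absurd hadj (hA hxA hyA)
  · obtain ⟨hyA, rfl | rfl⟩ := hy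
    · exact absurd hadj (hA hyA hxA)
    · rfl

theorem sum_eE (e : Finset D.W → ℕ) (A : Finset D.W) :
    ∑ w ∈ A, D.eE e w = ∑ X ∈ D.XE, (A ∩ X).card * e X := by
  unfold eE
  have h1 : ∀ w ∈ A, ∑ X ∈ D.XE.filter (fun X => w ∈ X), e X =
      ∑ X ∈ D.XE, if w ∈ X then e X else 0 := fun w _ => sum_filter _ _
  rw [sum_congr rfl h1, sum_comm]
  apply sum_congr rfl
  intro X _
  rw [← sum_filter, sum_const, smul_eq_mul, filter_mem_eq_inter]

theorem sum_XE (e : Finset D.W → ℕ) {A : Finset D.W} (hA : Indep D.H A) :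
    ∑ X ∈ D.XE.filter (fun X => ¬ Disjoint X A), e X = ∑ w ∈ A, D.eE e w := by
  rw [sum_eE, sum_filter]
  apply sum_congr rfl
  intro X hX
  by_cases h : Disjoint X A
  · rw [if_neg (not_not.2 h), disjoint_iff_inter_eq_empty.1 h.symm, card_empty, zero_mul]
  · rw [if_pos h]
    have h1 := D.XE_inter_card hA hX
    have h2 : 0 < (A ∩ X).card := by
      rw [card_pos, Finset.nonempty_iff_ne_empty]
      intro h3
      exact h (disjoint_iff_inter_eq_empty.2 h3).symm
    have h3 : (A ∩ X).card = 1 := by omega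
    rw [h3, one_mul]

theorem sum_hit (e : Finset D.W → ℕ) {A : Finset D.W} (hA : Indep D.H A) :
    ∑ X ∈ D.XX.filter (fun X => ¬ Disjoint X A), e X = ∑ w ∈ A, D.eE e w + D.e2 e A := by
  classical
  unfold XX
  rw [filter_union, sum_union (disjoint_filter_filter D.disj_XE_X2), D.sum_XE e hA]
  rfl

theorem e2_mono' (e : Finset D.W → ℕ) {A B : Finset D.W} (h : A ⊆ B) : D.e2 e A ≤ D.e2 e B := by
  unfold e2
  apply sum_le_sum_of_subset
  intro X hX
  rw [mem_filter] at hX ⊢
  exact ⟨hX.1, fun h1 => hX.2 (h1.mono_right h)⟩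

theorem sum_eE_univ (e : Finset D.W → ℕ) : ∑ w, D.eE e w = 2 * ∑ X ∈ D.XE, e X := by
  classical
  rw [sum_eE, mul_sum]
  apply sum_congr rfl
  intro X hX
  congr 1
  rw [univ_inter]
  unfold XE at hX
  rw [mem_filter] at hX
  obtain ⟨_, w, w', hadj, rfl⟩ := hX
  exact card_pair (D.H.ne_of_adj hadj)

theorem cost_add (b : D.W → ℕ) (A : Finset D.W) : cost b A + ∑ w ∈ A, b w = ∑ w, b w := by
  unfold cost
  exact sum_sdiff (subset_univ A)

theorem M_le_card : D.M ≤ Fintype.card D.W := by
  rw [← D.card_full _ (D.full_S (D.far ⟨0, by omega⟩))]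
  exact card_le_univ _

/-- Theorem C: all links of `Γ` at level `t + 1` are acyclic. -/
theorem thmC (b : D.W → ℕ) (e : Finset D.W → ℕ) (U : Finset D.W)
    (hU : ∀ X ∈ D.XX, ¬ X ⊆ U) : Acyc (GamLk D.H D.XX b e (D.t + 1) U) D.q := by
  classical
  intro j hj
  by_cases hcone : ∃ w, w ∉ U ∧ b w ≤ D.eE e w
  · obtain ⟨w, hwU, hw⟩ := hcone
    apply van_of_cone w
    rintro σ ⟨h1, A, hA, hd, hc⟩ _
    have hA' : Indep D.H (A.erase w) := fun u hu v hv => hA (mem_of_mem_erase hu) (mem_of_mem_erase hv)
    refine ⟨?_, A.erase w, hA', ?_, ?_⟩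
    · rw [disjoint_insert_left]
      exact ⟨hwU, h1⟩
    · rw [disjoint_union_right] at hd
      rw [disjoint_union_right, disjoint_insert_right]
      exact ⟨⟨notMem_erase w A, hd.1.mono_left (erase_subset w A)⟩,
        hd.2.mono_left (erase_subset w A)⟩
    · by_cases hwA : w ∈ A
      · rw [D.sum_hit e hA] at hc
        rw [D.sum_hit e hA']
        have h2 := D.cost_add b A
        have h3 := D.cost_add b (A.erase w)
        have h4 := add_sum_erase A b hwA
        have h5 := add_sum_erase A (D.eE e) hwA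
        have h6 := D.e2_mono' e (erase_subset w A)
        omega
      · rw [erase_eq_of_notMem hwA]
        exact hc
  · push Not at hcone
    set c : D.W → ℕ := fun w => if w ∈ U then 0 else b w - D.eE e w - 1 with hcdef
    have hcU : ∀ w ∈ U, c w = 0 := fun w hw => if_pos hw
    have hcb : ∀ w, w ∉ U → b w = c w + D.eE e w + 1 := by
      intro w hw
      have h1 := hcone w hw
      have h2 : c w = b w - D.eE e w - 1 := if_neg hw
      omega
    have hUi : Indep D.H U := by
      intro u hu w hw hadj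
      apply hU {u, w}
      · unfold XX XE
        rw [mem_union, mem_filter]
        exact Or.inl ⟨mem_univ _, u, w, hadj, rfl⟩
      · intro x hx
        rw [mem_insert, mem_singleton] at hx
        rcases hx with rfl | rfl
        · exact hu
        · exact hw
    have hUn := (D.indep_iff U).1 hUi
    have hUY : ∀ i, (U ∩ D.Y i).card ≤ 1 := by
      intro i
      rw [card_le_one]
      intro x hx y hy
      by_contra hne
      rw [mem_inter] at hx hy
      apply hU {x, y}
      · unfold XX X2
        rw [mem_union, mem_filter]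
        refine Or.inr ⟨mem_univ _, card_pair hne, i, ?_⟩
        intro u hu
        rw [mem_insert, mem_singleton] at hu
        rcases hu with rfl | rfl
        · exact hx.2
        · exact hy.2
      · intro u hu
        rw [mem_insert, mem_singleton] at hu
        rcases hu with rfl | rfl
        · exact hx.1
        · exact hy.1
    have hM := D.M_le_card
    have hsum : ∀ A : Finset D.W, Disjoint A U →
        ∑ w ∈ A, b w = ∑ w ∈ A, c w + ∑ w ∈ A, D.eE e w + A.card := by
      intro A hA
      rw [card_eq_sum_ones, ← sum_add_distrib, ← sum_add_distrib]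
      apply sum_congr rfl
      intro w hw
      exact hcb w (disjoint_left.1 hA hw)
    have htot : ∑ w, b w + U.card = ∑ w ∈ U, b w + ∑ w, c w + ∑ w ∈ univ \ U, D.eE e w +
        Fintype.card D.W := by
      have h1 := sum_sdiff (f := b) (subset_univ U)
      have h2 := sum_sdiff (f := c) (subset_univ U)
      have h3 := hsum (univ \ U) disjoint_sdiff_self_left
      have h4 : ∑ w ∈ U, c w = 0 := sum_eq_zero hcU
      have h5 := card_sdiff_add_card_eq_card (subset_univ U)
      rw [card_univ] at h5
      omega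
    have hiff : ∀ σ, D.Obj c e (Fintype.card D.W + 1 - ∑ w, b w)
        (∑ w, b w - (Fintype.card D.W + 1)) U ∅ σ ↔ GamLk D.H D.XX b e (D.t + 1) U σ := by
      intro σ
      unfold Obj GamLk Gam Alive
      rw [union_empty]
      apply and_congr_right
      intro hσ
      apply exists_congr
      intro A
      rw [← D.indep_iff]
      have key : ∀ (hA : Indep D.H A) (hd : Disjoint A (σ ∪ U)),
          (D.M + (∑ w, b w - (Fintype.card D.W + 1)) + D.e2 e A ≤ A.card + ∑ w ∈ A, c w +
            (Fintype.card D.W + 1 - ∑ w, b w) ↔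
          cost b A + ∑ X ∈ D.XX.filter (fun X => ¬ Disjoint X A), e X < D.t + 1) := by
        intro hA hd
        rw [D.sum_hit e hA]
        rw [disjoint_union_right] at hd
        have h1 := D.cost_add b A
        have h2 := hsum A hd.2
        unfold t
        omega
      constructor
      · rintro ⟨⟨hA, h1⟩, hd⟩
        exact ⟨hA, hd, (key hA hd).1 h1⟩
      · rintro ⟨hA, hd, h1⟩
        exact ⟨⟨hA, (key hA hd).2 h1⟩, hd⟩
    apply van_congr hiff
    rcases Nat.lt_trichotomy (∑ w, b w) (Fintype.card D.W + 1) with h | h | h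
    · have h1 : ∑ w, b w - (Fintype.card D.W + 1) = 0 := by omega
      rw [h1]
      exact D.obj_pos c e _ (by omega) U hUn j hj
    · have h1 : ∑ w, b w - (Fintype.card D.W + 1) = 0 := by omega
      have h2 : Fintype.card D.W + 1 - ∑ w, b w = 0 := by omega
      rw [h1, h2]
      apply D.obj_zero c e U hUn hUY hcU (by omega)
      rintro rfl
      rw [sdiff_empty, D.sum_eE_univ, sum_empty, card_empty] at htot
      omega
    · have h2 : Fintype.card D.W + 1 - ∑ w, b w = 0 := by omega
      rw [h2]
      exact D.obj_neg c e _ (by omega) U hUn (by omega) j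

end Design

end Pool.Agent.H40.SD
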