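import Pool.Agent.H40.SD.Design

/-! # Theorem C, case κ = 0, final objects: only full stars matter -/

set_option autoImplicit false

namespace Pool.Agent.H40.SD

namespace Design

open Finset

variable (D : Design)

/-- no kill-type set outside `V` has positive gain -/
def Final (c : D.W → ℕ) (e : Finset D.W → ℕ) (V : Finset D.W) : Prop :=
  ∀ A : Finset D.W, A.Nonempty → (A.card = 1 ∨ ∃ i, A ⊆ D.Y i) → Disjoint A V →
    ∑ w ∈ A, c w ≤ D.e2 e A

theorem mem_X2 (X : Finset D.W) : X ∈ D.X2 ↔ X.card = 2 ∧ ∃ i, X ⊆ D.Y i := by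
  classical
  simp [X2]

theorem e2_eq (e : Finset D.W → ℕ) (A : Finset D.W) :
    D.e2 e A = ∑ X ∈ D.X2, if Disjoint X A then 0 else e X := by
  unfold e2
  rw [Finset.sum_filter]
  apply Finset.sum_congr rfl
  intro X _
  by_cases h : Disjoint X A <;> simp [h]

theorem e2_mono (e : Finset D.W → ℕ) {A B : Finset D.W} (h : A ⊆ B) : D.e2 e A ≤ D.e2 e B := by
  unfold e2
  apply Finset.sum_le_sum_of_subset
  intro X hX
  rw [Finset.mem_filter] at hX ⊢
  exact ⟨hX.1, fun hd => hX.2 (hd.mono_right h)⟩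

theorem Y_disj {i j : D.I} {w : D.W} (hi : w ∈ D.Y i) (hj : w ∈ D.Y j) : i = j :=
  (D.base_Y i w hi).symm.trans (D.base_Y j w hj)

/-- `e2` splits over the sets `Y i` -/
theorem e2_split (e : Finset D.W → ℕ) (A : Finset D.W) :
    D.e2 e A = ∑ i, D.e2 e (A ∩ D.Y i) := by
  simp_rw [e2_eq]
  rw [Finset.sum_comm]
  apply Finset.sum_congr rfl
  intro X hX
  rw [mem_X2] at hX
  obtain ⟨hc, i, hi⟩ := hX
  rw [Finset.sum_eq_single i]
  · have : Disjoint X A ↔ Disjoint X (A ∩ D.Y i) := by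
      rw [Finset.disjoint_left, Finset.disjoint_left]
      constructor
      · intro h w hw hw'
        exact h hw (Finset.mem_inter.1 hw').1
      · intro h w hw hw'
        exact h hw (Finset.mem_inter.2 ⟨hw', hi hw⟩)
    by_cases h : Disjoint X A
    · rw [if_pos h, if_pos (this.1 h)]
    · rw [if_neg h, if_neg (fun h' => h (this.2 h'))]
  · intro j _ hj
    rw [if_pos]
    rw [Finset.disjoint_left]
    intro w hw hw'
    exact hj (D.Y_disj (Finset.mem_inter.1 hw').2 (hi hw))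
  · intro h
    exact absurd (Finset.mem_univ i) h

theorem sum_Y_le (c : D.W → ℕ) (A : Finset D.W) :
    ∑ i, ∑ w ∈ A ∩ D.Y i, c w ≤ ∑ w ∈ A, c w := by
  rw [← Finset.sum_fiberwise A D.base c]
  apply Finset.sum_le_sum
  intro i _
  apply Finset.sum_le_sum_of_subset
  intro w hw
  rw [Finset.mem_inter] at hw
  rw [Finset.mem_filter]
  exact ⟨hw.1, D.base_Y i w hw.2⟩

theorem Final.zero {c : D.W → ℕ} {e : Finset D.W → ℕ} {V : Finset D.W}
    (hF : D.Final c e V) {w : D.W} (hw : w ∉ V) (hY : ∀ i, w ∉ D.Y i) : c w = 0 := by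
  have h := hF {w} ⟨w, Finset.mem_singleton_self w⟩ (Or.inl (Finset.card_singleton w))
    (by simpa using hw)
  rw [Finset.sum_singleton] at h
  have h0 : D.e2 e {w} = 0 := by
    rw [e2_eq]
    apply Finset.sum_eq_zero
    intro X hX
    rw [mem_X2] at hX
    obtain ⟨hc, i, hi⟩ := hX
    rw [if_pos]
    rw [Finset.disjoint_singleton_right]
    intro hwX
    exact hY i (hi hwX)
  omega

theorem Final.sum_eq {c : D.W → ℕ} {e : Finset D.W → ℕ} {V : Finset D.W}
    (hF : D.Final c e V) {A : Finset D.W} (hA : Disjoint A V) :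
    ∑ w ∈ A, c w = ∑ i, ∑ w ∈ A ∩ D.Y i, c w := by
  rw [← Finset.sum_fiberwise A D.base c]
  apply Finset.sum_congr rfl
  intro i _
  symm
  apply Finset.sum_subset
  · intro w hw
    rw [Finset.mem_inter] at hw
    rw [Finset.mem_filter]
    exact ⟨hw.1, D.base_Y i w hw.2⟩
  · intro w hw hw'
    rw [Finset.mem_filter] at hw
    apply Final.zero D hF (Finset.disjoint_left.1 hA hw.1)
    intro j hj
    have : j = i := (D.base_Y j w hj).symm.trans hw.2
    subst this
    exact hw' (Finset.mem_inter.2 ⟨hw.1, hj⟩)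

theorem Final.sum_Y_le {c : D.W → ℕ} {e : Finset D.W → ℕ} {V : Finset D.W}
    (hF : D.Final c e V) {A : Finset D.W} (hA : Disjoint A V) (i : D.I) :
    ∑ w ∈ A ∩ D.Y i, c w ≤ D.e2 e (A ∩ D.Y i) := by
  by_cases h : (A ∩ D.Y i).Nonempty
  · exact hF _ h (Or.inr ⟨i, Finset.inter_subset_right⟩) (hA.mono_left Finset.inter_subset_left)
  · rw [Finset.not_nonempty_iff_eq_empty] at h
    rw [h]
    simp

theorem Final.sum_le {c : D.W → ℕ} {e : Finset D.W → ℕ} {V : Finset D.W}
    (hF : D.Final c e V) {A : Finset D.W} (hA : Disjoint A V) :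
    ∑ w ∈ A, c w ≤ D.e2 e A := by
  rw [Final.sum_eq D hF hA, D.e2_split e A]
  exact Finset.sum_le_sum fun i _ => Final.sum_Y_le D hF hA i

/-- in a final object only full stars matter -/
theorem obj_final_iff {c : D.W → ℕ} {e : Finset D.W → ℕ} {V : Finset D.W}
    (hF : D.Final c e V) (Fr E : Finset D.W) :
    D.Obj c e 0 0 V Fr E ↔ Disjoint E (V ∪ Fr) ∧
      ∃ n, D.full n ∧ D.Alive c e 0 0 (D.star n) ∧ Disjoint (D.star n) (E ∪ V) := by
  constructor
  · rintro ⟨hE, A, ⟨⟨n, hAn⟩, hA⟩, hd⟩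
    refine ⟨hE, n, ?_⟩
    have hAV : Disjoint A V := hd.mono_right Finset.subset_union_right
    have h1 := Final.sum_le D hF hAV
    have h2 := Finset.card_le_card hAn
    have h3 : D.M ≤ A.card := by omega
    have hfull : D.full n := by
      by_contra hn
      have := D.card_le n hn
      have := D.hM
      omega
    have h4 := D.card_full n hfull
    have h5 : A = D.star n := Finset.eq_of_subset_of_card_le hAn (by omega)
    subst h5
    exact ⟨hfull, ⟨⟨n, hAn⟩, hA⟩, hd⟩
  · rintro ⟨hE, n, _, ha, hd⟩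
    exact ⟨hE, D.star n, ha, hd⟩

/-- the gain of an alive full star vanishes on every `Y i` -/
theorem gain_zero {c : D.W → ℕ} {e : Finset D.W → ℕ} {V : Finset D.W}
    (hF : D.Final c e V) {n : D.St} (hn : D.full n) (ha : D.Alive c e 0 0 (D.star n))
    (hd : Disjoint (D.star n) V) (i : D.I) :
    ∑ w ∈ D.star n ∩ D.Y i, c w = D.e2 e (D.star n ∩ D.Y i) := by
  have h1 : D.e2 e (D.star n) ≤ ∑ w ∈ D.star n, c w := by
    have := ha.2
    rw [D.card_full n hn] at this
    omega
  rw [Final.sum_eq D hF hd, D.e2_split e (D.star n)] at h1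
  have h2 : ∀ i ∈ (Finset.univ : Finset D.I),
      ∑ w ∈ D.star n ∩ D.Y i, c w ≤ D.e2 e (D.star n ∩ D.Y i) :=
    fun i _ => Final.sum_Y_le D hF hd i
  have h3 := Finset.sum_le_sum h2
  have h4 := (Finset.sum_eq_sum_iff_of_le h2).1 (le_antisymm h3 h1)
  exact h4 i (Finset.mem_univ i)

/-- conversely, a full star outside `V` with gain zero on every `Y i` is alive -/
theorem alive_of_gain_zero {c : D.W → ℕ} {e : Finset D.W → ℕ} {n : D.St} (hn : D.full n)
    (h : ∀ i, D.e2 e (D.star n ∩ D.Y i) ≤ ∑ w ∈ D.star n ∩ D.Y i, c w) :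
    D.Alive c e 0 0 (D.star n) := by
  refine ⟨⟨n, Finset.Subset.refl _⟩, ?_⟩
  have h1 := D.sum_Y_le c (D.star n)
  have h2 := Finset.sum_le_sum (s := Finset.univ) fun i _ => h i
  rw [← D.e2_split] at h2
  rw [D.card_full n hn]
  omega

end Design

end Pool.Agent.H40.SD
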