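import Pool.Agent.H40.SD.ThmCB

/-! # Theorem C, case κ = 0, final objects with `V ≠ ∅` -/

set_option autoImplicit false

namespace Pool.Agent.H40.SD

namespace Design

open Finset

variable (D : Design)

/-- invariants of the objects `(V = U ∪ Q, Fr)` of the induction -/
structure Inv (c : D.W → ℕ) (U Q Fr : Finset D.W) : Prop where
  hU : ∃ n, U ⊆ D.star n
  hUY : ∀ i, (U ∩ D.Y i).card ≤ 1
  hcU : ∀ w ∈ U, c w = 0
  hC : ∑ w, c w ≤ U.card + 1
  hQ : ∀ w ∈ Q, c w ≠ 0
  hFr : ∀ w ∈ Fr, c w ≠ 0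
  hdisj : Disjoint Q Fr
  hFrY : ∀ w ∈ Fr, ∃ i, w ∈ D.Y i

theorem isDown_obj (c : D.W → ℕ) (e : Finset D.W → ℕ) (k k' : ℕ) (V Fr : Finset D.W) :
    IsDown (D.Obj c e k k' V Fr) := by
  rintro σ τ h ⟨h1, A, hA, hd⟩
  exact ⟨h1.mono_left h, A, hA, hd.mono_right (Finset.union_subset_union_left h)⟩

theorem z_mem_base (w : D.W) : w ∈ D.star (D.S (D.base w)) :=
  D.dom_base w _ (D.full_S _) ((D.z_mem_S _ _).2 rfl)

theorem v_mem_Y (i : D.I) (b : Fin D.β) (ε : Bool) : D.v i b ε ∈ D.Y i :=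
  (D.mem_Y i _).2 ⟨b, ε, rfl⟩

theorem base_v (i : D.I) (b : Fin D.β) (ε : Bool) : D.base (D.v i b ε) = i :=
  D.base_Y i _ (D.v_mem_Y i b ε)

theorem v_ne_z (i : D.I) (b : Fin D.β) (ε : Bool) (j : D.I) : D.v i b ε ≠ D.z j := by
  intro h
  exact D.z_notin_Y j i (h ▸ D.v_mem_Y i b ε)

theorem Inv.card_QFr {c : D.W → ℕ} {U Q Fr : Finset D.W} (hI : D.Inv c U Q Fr) :
    Q.card + Fr.card ≤ U.card + 1 := by
  have h1 : (Q ∪ Fr).card = Q.card + Fr.card := Finset.card_union_of_disjoint hI.hdisj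
  have h2 : (Q ∪ Fr).card ≤ ∑ w ∈ Q ∪ Fr, c w := by
    rw [Finset.card_eq_sum_ones]
    apply Finset.sum_le_sum
    intro w hw
    rw [Finset.mem_union] at hw
    rcases hw with hw | hw
    · exact Nat.one_le_iff_ne_zero.2 (hI.hQ w hw)
    · exact Nat.one_le_iff_ne_zero.2 (hI.hFr w hw)
  have h3 : ∑ w ∈ Q ∪ Fr, c w ≤ ∑ w, c w :=
    Finset.sum_le_sum_of_subset (Finset.subset_univ _)
  have h4 := hI.hC
  omega

/-- the counting argument: a block outside `V ∪ Fr` over a colour of `V` -/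
theorem exists_block {c : D.W → ℕ} {U Q Fr : Finset D.W}
    (hI : D.Inv c U Q Fr) (hne : (U ∪ Q).Nonempty)
    (hdm : ∀ u ∈ U ∪ Q, ∀ i, (∀ n, D.full n → D.z i ∈ D.star n → u ∈ D.star n) →
      D.z i ∈ U ∪ Q) :
    ∃ i b, D.z i ∈ U ∪ Q ∧ ∀ ε, D.v i b ε ∉ U ∪ Q ∪ Fr := by
  classical
  set P : Finset D.I := univ.filter (fun i => D.z i ∈ U ∪ Q) with hP
  have hbase : ∀ u ∈ U ∪ Q, D.base u ∈ P := by
    intro u hu
    rw [hP, Finset.mem_filter]
    exact ⟨Finset.mem_univ _, hdm u hu _ (fun n hn hz => D.dom_base u n hn hz)⟩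
  have hPne : 1 ≤ P.card := by
    obtain ⟨u, hu⟩ := hne
    exact Finset.card_pos.2 ⟨_, hbase u hu⟩
  obtain ⟨n, hn⟩ := hI.hU
  have hcount : U.card ≤ 3 * P.card + 4 := by
    apply D.count n U P hn hI.hUY
    intro u hu i hi
    rw [hP, Finset.mem_filter]
    exact ⟨Finset.mem_univ _, hdm u (Finset.mem_union_left _ hu) i hi⟩
  have hQF := hI.card_QFr
  by_contra hcon
  push Not at hcon
  have hex : ∀ i b, ∃ ε, D.z i ∈ U ∪ Q → D.v i b ε ∈ U ∪ Q ∪ Fr := by
    intro i b
    by_cases h : D.z i ∈ U ∪ Q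
    · obtain ⟨ε, hε⟩ := hcon i b h
      exact ⟨ε, fun _ => hε⟩
    · exact ⟨true, fun h' => absurd h' h⟩
  choose ε hε using hex
  have hinj : Function.Injective (fun p : D.I × Fin D.β => D.v p.1 p.2 (ε p.1 p.2)) := by
    rintro ⟨i, b⟩ ⟨i', b'⟩ h
    simp only at h
    have hi : i = i' := by
      have := congrArg D.base h
      rwa [D.base_v, D.base_v] at this
    subst hi
    have := D.v_inj i (a₁ := (b, ε i b)) (a₂ := (b', ε i b')) h
    rw [Prod.mk.injEq] at this
    rw [this.1]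
  have hsub : (P ×ˢ (univ : Finset (Fin D.β))).image
      (fun p : D.I × Fin D.β => D.v p.1 p.2 (ε p.1 p.2)) ⊆
      (P.biUnion fun i => U ∩ D.Y i) ∪ (Q ∪ Fr) := by
    intro w hw
    rw [Finset.mem_image] at hw
    obtain ⟨⟨i, b⟩, hib, rfl⟩ := hw
    rw [Finset.mem_product] at hib
    have hi : D.z i ∈ U ∪ Q := by
      have := hib.1
      rw [hP, Finset.mem_filter] at this
      exact this.2
    have h1 := hε i b hi
    simp only [Finset.mem_union] at h1 ⊢
    rcases h1 with (h1 | h1) | h1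
    · left
      rw [Finset.mem_biUnion]
      exact ⟨i, hib.1, Finset.mem_inter.2 ⟨h1, D.v_mem_Y i b _⟩⟩
    · right; left; exact h1
    · right; right; exact h1
  have h1 := Finset.card_le_card hsub
  rw [Finset.card_image_of_injective _ hinj, Finset.card_product, Finset.card_univ,
    Fintype.card_fin] at h1
  have h2 : (P.biUnion fun i => U ∩ D.Y i).card ≤ P.card := by
    refine Finset.card_biUnion_le.trans ?_
    calc ∑ i ∈ P, (U ∩ D.Y i).card ≤ ∑ _i ∈ P, 1 := Finset.sum_le_sum fun i _ => hI.hUY i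
      _ = P.card := by simp
  have h3 := Finset.card_union_le (P.biUnion fun i => U ∩ D.Y i) (Q ∪ Fr)
  have h4 := Finset.card_union_le Q Fr
  have h5 : P.card * 10 ≤ P.card * D.β := Nat.mul_le_mul_left _ D.hβ
  omega

theorem caseB_nonempty {c : D.W → ℕ} {e : Finset D.W → ℕ} {U Q Fr : Finset D.W}
    (hI : D.Inv c U Q Fr) (hF : D.Final c e (U ∪ Q)) (hne : (U ∪ Q).Nonempty) (j : ℕ) :
    Van (D.Obj c e 0 0 (U ∪ Q) Fr) j := by
  classical
  set V := U ∪ Q with hV
  -- good stars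
  set G : D.St → Prop := fun n => D.full n ∧ D.Alive c e 0 0 (D.star n) ∧ Disjoint (D.star n) V
    with hG
  have hobj : ∀ E, D.Obj c e 0 0 V Fr E ↔ Disjoint E (V ∪ Fr) ∧
      ∃ n, G n ∧ Disjoint (D.star n) E := by
    intro E
    rw [D.obj_final_iff hF]
    apply and_congr_right
    intro _
    apply exists_congr
    intro n
    rw [hG, Finset.disjoint_union_right]
    tauto
  -- cone points
  have hcone : ∀ w, w ∉ V → w ∉ Fr → (∀ n, G n → w ∉ D.star n) →
      Van (D.Obj c e 0 0 V Fr) j := by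
    intro w hwV hwF hw
    apply van_of_cone w
    intro E hE _
    rw [hobj] at hE ⊢
    obtain ⟨hE1, n, hn, hE2⟩ := hE
    refine ⟨?_, n, hn, ?_⟩
    · rw [Finset.disjoint_insert_left]
      exact ⟨by simp [hwV, hwF], hE1⟩
    · rw [Finset.disjoint_insert_right]
      exact ⟨hw n hn, hE2⟩
  have hzF : ∀ i, D.z i ∉ Fr := by
    intro i hi
    obtain ⟨j, hj⟩ := hI.hFrY _ hi
    exact D.z_notin_Y i j hj
  by_cases hdm : ∀ u ∈ V, ∀ i, (∀ n, D.full n → D.z i ∈ D.star n → u ∈ D.star n) → D.z i ∈ V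
  swap
  · push Not at hdm
    obtain ⟨u, hu, i, hi, hzi⟩ := hdm
    apply hcone (D.z i) hzi (hzF i)
    intro n hn hz
    exact Finset.disjoint_left.1 hn.2.2 (hi n hn.1 hz) hu
  obtain ⟨i, b, hzi, hv⟩ := D.exists_block hI hne hdm
  have hvV : ∀ ε, D.v i b ε ∉ V := fun ε h => hv ε (Finset.mem_union_left _ h)
  have hvF : ∀ ε, D.v i b ε ∉ Fr := fun ε h => hv ε (Finset.mem_union_right _ h)
  have hvG : ∀ ε n, G n → D.v i b ε ∈ D.star n → n = D.S (D.kk i b ε) := by
    intro ε n hn h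
    rcases D.v_stars i b ε n hn.1 h with h1 | h1
    · exact absurd hzi (Finset.disjoint_left.1 hn.2.2 h1)
    · exact h1
  by_cases hGk : ∀ ε, G (D.S (D.kk i b ε))
  swap
  · push Not at hGk
    obtain ⟨ε, hε⟩ := hGk
    apply hcone (D.v i b ε) (hvV ε) (hvF ε)
    intro n hn h
    exact hε (hvG ε n hn h ▸ hn)
  -- the star `pp i b`
  have hYS : ∀ j, D.Y j ⊆ D.star (D.S j) := by
    intro j y hy
    have := D.z_mem_base y
    rwa [D.base_Y j y hy] at this
  have hppS : ∀ w ∈ D.star (D.pp i b), ∃ ε, w ∈ D.star (D.S (D.kk i b ε)) := by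
    intro w hw
    have h1 := D.z_mem_base w
    rcases (D.mem_pp i b w).1 hw with h | h
    · exact ⟨false, h ▸ h1⟩
    · exact ⟨true, h ▸ h1⟩
  have hYpp : ∀ ε, D.Y (D.kk i b ε) ⊆ D.star (D.pp i b) := by
    intro ε y hy
    rw [D.mem_pp]
    have := D.base_Y _ y hy
    cases ε
    · left; exact this
    · right; exact this
  have hGp : G (D.pp i b) := by
    refine ⟨D.full_pp i b, ?_, ?_⟩
    · apply D.alive_of_gain_zero (D.full_pp i b)
      intro l
      by_cases hl : ∃ ε, l = D.kk i b ε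
      · obtain ⟨ε, rfl⟩ := hl
        have h1 := D.gain_zero hF (hGk ε).1 (hGk ε).2.1 (hGk ε).2.2 (D.kk i b ε)
        rw [Finset.inter_eq_right.2 (hYS _)] at h1
        rw [Finset.inter_eq_right.2 (hYpp ε), h1]
      · have h0 : D.star (D.pp i b) ∩ D.Y l = ∅ := by
          rw [Finset.eq_empty_iff_forall_notMem]
          intro w hw
          rw [Finset.mem_inter] at hw
          apply hl
          have h2 := D.base_Y l w hw.2
          rcases (D.mem_pp i b w).1 hw.1 with h | h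
          · exact ⟨false, h2.symm.trans h⟩
          · exact ⟨true, h2.symm.trans h⟩
        rw [h0, e2_eq]
        simp
    · rw [Finset.disjoint_left]
      intro w hw
      obtain ⟨ε, hε⟩ := hppS w hw
      exact Finset.disjoint_left.1 (hGk ε).2.2 hε
  have hzk_pp : ∀ ε, D.z (D.kk i b ε) ∈ D.star (D.pp i b) := by
    intro ε
    rw [D.mem_pp, D.base_z]
    cases ε
    · left; rfl
    · right; rfl
  have hzk_S : ∀ ε, D.z (D.kk i b ε) ∈ D.star (D.S (D.kk i b ε)) := fun ε => (D.z_mem_S _ _).2 rfl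
  have hv_pp : ∀ ε, D.v i b ε ∉ D.star (D.pp i b) := by
    intro ε h
    rw [D.mem_pp, D.base_v] at h
    rcases h with h | h
    · exact D.kk_ne i b false h.symm
    · exact D.kk_ne i b true h.symm
  -- domination of the two z's
  have hdown := D.isDown_obj c e 0 0 V Fr
  rw [van_iff_fib_of_dom hdown {D.z (D.kk i b false), D.z (D.kk i b true)}]
  swap
  · intro w hw
    have hw' : ∃ ε, w = D.z (D.kk i b ε) := by
      rw [Finset.mem_insert, Finset.mem_singleton] at hw
      rcases hw with h | h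
      · exact ⟨false, h⟩
      · exact ⟨true, h⟩
    obtain ⟨ε, rfl⟩ := hw'
    refine ⟨D.v i b ε, ?_, ?_⟩
    · rw [Finset.mem_insert, Finset.mem_singleton]
      rintro (h | h)
      · exact D.v_ne_z _ _ _ _ h
      · exact D.v_ne_z _ _ _ _ h
    · intro σ hσ hE
      rw [hobj] at hE ⊢
      obtain ⟨hE1, n, hn, hE2⟩ := hE
      refine ⟨?_, n, hn, ?_⟩
      · rw [Finset.disjoint_insert_left]
        exact ⟨hv ε, hE1⟩
      · rw [Finset.disjoint_insert_right]
        refine ⟨?_, hE2⟩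
        intro h
        have h1 := hvG ε n hn h
        subst h1
        exact Finset.disjoint_left.1 hE2 (hzk_S ε) hσ
  set T : Finset D.W := {D.z (D.kk i b false), D.z (D.kk i b true)} with hT
  have hvT : ∀ ε, D.v i b ε ∉ T := by
    intro ε h
    rw [hT, Finset.mem_insert, Finset.mem_singleton] at h
    rcases h with h | h
    · exact D.v_ne_z _ _ _ _ h
    · exact D.v_ne_z _ _ _ _ h
  have hTpp : ∀ w ∈ T, w ∉ D.star (D.pp i b) → False := by
    intro w hw h
    rw [hT, Finset.mem_insert, Finset.mem_singleton] at hw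
    rcases hw with rfl | rfl
    · exact h (hzk_pp false)
    · exact h (hzk_pp true)
  -- fibres over the complement of the two v's
  apply van_of_fib (isDown_fib hdown _ _) (univ \ {D.v i b false, D.v i b true})
  intro L _ _
  have hmem : ∀ σ : Finset D.W, Disjoint σ (univ \ {D.v i b false, D.v i b true}) →
      ∀ w ∈ σ, ∃ ε, w = D.v i b ε := by
    intro σ hσ w hw
    by_contra hcon
    push Not at hcon
    apply Finset.disjoint_left.1 hσ hw
    rw [Finset.mem_sdiff, Finset.mem_insert, Finset.mem_singleton]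
    refine ⟨Finset.mem_univ _, ?_⟩
    rintro (h | h)
    · exact hcon false h
    · exact hcon true h
  have hnotin : ∀ ε, D.v i b ε ∉ univ \ {D.v i b false, D.v i b true} := by
    intro ε h
    rw [Finset.mem_sdiff, Finset.mem_insert, Finset.mem_singleton] at h
    apply h.2
    cases ε
    · left; rfl
    · right; rfl
  -- the general extension step
  have hext : ∀ ε, (∀ σ : Finset D.W, Disjoint σ (univ \ {D.v i b false, D.v i b true}) →
      (∃ n, G n ∧ Disjoint (D.star n) (L ∪ σ)) →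
      ∃ n, G n ∧ Disjoint (D.star n) (L ∪ σ) ∧ D.v i b ε ∉ D.star n) →
      ∀ m, Van (fib (fib (D.Obj c e 0 0 V Fr) T ∅) (univ \ {D.v i b false, D.v i b true}) L) m := by
    intro ε hε m
    apply van_of_cone (D.v i b ε)
    rintro σ ⟨hσ1, hσ2, hσ3⟩ _
    rw [Finset.empty_union, hobj] at hσ3
    obtain ⟨hσ4, hσ5⟩ := hσ3
    obtain ⟨n, hn, hn1, hn2⟩ := hε σ hσ1 hσ5
    refine ⟨?_, ?_, ?_⟩
    · rw [Finset.disjoint_insert_left]
      exact ⟨hnotin ε, hσ1⟩
    · rw [Finset.union_insert, Finset.disjoint_insert_left]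
      exact ⟨hvT ε, hσ2⟩
    · rw [Finset.empty_union, hobj, Finset.union_insert, Finset.disjoint_insert_left]
      refine ⟨⟨hv ε, hσ4⟩, n, hn, ?_⟩
      rw [Finset.disjoint_insert_right]
      exact ⟨hn2, hn1⟩
  by_cases hL : ∀ ε, Disjoint (D.star (D.S (D.kk i b ε))) L
  · apply hext false
    intro σ hσ _
    refine ⟨D.pp i b, hGp, ?_, hv_pp false⟩
    rw [Finset.disjoint_union_right]
    constructor
    · rw [Finset.disjoint_left]
      intro w hw
      obtain ⟨ε, hε⟩ := hppS w hw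
      exact Finset.disjoint_left.1 (hL ε) hε
    · rw [Finset.disjoint_right]
      intro w hw
      obtain ⟨ε, rfl⟩ := hmem σ hσ w hw
      exact hv_pp ε
  · push Not at hL
    obtain ⟨ε, hε⟩ := hL
    apply hext ε
    rintro σ _ ⟨n, hn, hn1⟩
    refine ⟨n, hn, hn1, ?_⟩
    intro h
    have h1 := hvG ε n hn h
    subst h1
    exact hε (hn1.mono_right Finset.subset_union_left)

end Design

end Pool.Agent.H40.SD
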