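import Pool.Agent.H40.SD.Defs

/-! # Topological toolkit (cohomology of set families over `ZMod 2`) -/

set_option autoImplicit false

namespace Pool.Agent.H40.SD

variable {α β : Type*} [DecidableEq α] [DecidableEq β]

theorem z2_add_self (a : ZMod 2) : a + a = 0 := CharTwo.add_self_eq_zero a

theorem z2_eq_of_add {a b : ZMod 2} (h : a + b = 0) : a = b := by
  have := CharTwo.add_self_eq_zero b
  calc a = a + b + b := by rw [add_assoc, this, add_zero]
    _ = b := by rw [h, zero_add]

theorem cb_cb (f : Finset α → ZMod 2) (σ : Finset α) : cb (cb f) σ = 0 := by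
  unfold cb
  rw [Finset.sum_sigma']
  refine Finset.sum_involution (fun p _ => ⟨p.2, p.1⟩) ?_ ?_ ?_ ?_
  · rintro ⟨w, v⟩ h
    change f ((σ.erase w).erase v) + f ((σ.erase v).erase w) = 0
    rw [Finset.erase_right_comm]
    exact z2_add_self _
  · rintro ⟨w, v⟩ h _ he
    rw [Finset.mem_sigma, Finset.mem_erase] at h
    exact h.2.1 (congrArg Sigma.fst he)
  · rintro ⟨w, v⟩ h
    rw [Finset.mem_sigma, Finset.mem_erase] at h ⊢
    exact ⟨h.2.2, h.2.1.symm, h.1⟩
  · rintro ⟨w, v⟩ h
    rfl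

theorem cb_insert (f : Finset α → ZMod 2) {v : α} {σ : Finset α} (hv : v ∉ σ) :
    cb f (insert v σ) = f σ + ∑ w ∈ σ, f (insert v (σ.erase w)) := by
  unfold cb
  rw [Finset.sum_insert hv, Finset.erase_insert hv]
  congr 1
  apply Finset.sum_congr rfl
  intro w hw
  have hne : v ≠ w := by rintro rfl; exact hv hw
  rw [Finset.erase_insert_of_ne hne]

theorem cb_add (f g : Finset α → ZMod 2) (σ : Finset α) :
    cb (fun τ => f τ + g τ) σ = cb f σ + cb g σ := by
  unfold cb
  exact Finset.sum_add_distrib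

theorem cb_congr {f g : Finset α → ZMod 2} {σ : Finset α}
    (h : ∀ w ∈ σ, f (σ.erase w) = g (σ.erase w)) : cb f σ = cb g σ :=
  Finset.sum_congr rfl h

theorem cb_empty (f : Finset α → ZMod 2) : cb f ∅ = 0 := by
  unfold cb
  exact Finset.sum_empty

theorem van_congr {Δ Δ' : Finset α → Prop} (h : ∀ σ, Δ σ ↔ Δ' σ) {j : ℕ} (hv : Van Δ j) :
    Van Δ' j := by
  intro f hf
  obtain ⟨g, hg⟩ := hv f (fun σ hσ hc => hf σ ((h σ).1 hσ) hc)
  exact ⟨g, fun σ hσ hc => hg σ ((h σ).2 hσ) hc⟩

theorem van_iff {Δ Δ' : Finset α → Prop} (h : ∀ σ, Δ σ ↔ Δ' σ) {j : ℕ} : Van Δ j ↔ Van Δ' j :=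
  ⟨van_congr h, van_congr (fun σ => (h σ).symm)⟩

/-- cone lemma (only faces of cardinality `j` have to be extendable) -/
theorem van_of_cone {Δ : Finset α → Prop} (v : α) {j : ℕ}
    (h : ∀ σ, Δ σ → σ.card = j → Δ (insert v σ)) : Van Δ j := by
  intro f hf
  refine ⟨fun σ => if v ∈ σ then 0 else f (insert v σ), fun σ hσ hc => ?_⟩
  by_cases hv : v ∈ σ
  · unfold cb
    rw [Finset.sum_eq_single v]
    · beta_reduce
      rw [if_neg (Finset.notMem_erase v σ), Finset.insert_erase hv]
    · intro w hw hne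
      beta_reduce
      rw [if_pos (Finset.mem_erase.2 ⟨hne.symm, hv⟩)]
    · intro h'; exact absurd hv h'
  · have h1 := hf (insert v σ) (h σ hσ hc) (by rw [Finset.card_insert_of_notMem hv, hc])
    rw [cb_insert f hv] at h1
    have h2 : cb (fun σ => if v ∈ σ then 0 else f (insert v σ)) σ =
        ∑ w ∈ σ, f (insert v (σ.erase w)) := by
      unfold cb
      apply Finset.sum_congr rfl
      intro w hw
      beta_reduce
      rw [if_neg (fun h' => hv (Finset.mem_of_mem_erase h'))]
    rw [h2]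
    exact z2_eq_of_add h1

/-- no faces at all in cardinality `j` -/
theorem van_of_void {Δ : Finset α → Prop} {j : ℕ} (h : ∀ σ, Δ σ → σ.card ≠ j) : Van Δ j := by
  intro f _
  exact ⟨fun _ => 0, fun σ hσ hc => absurd hc (h σ hσ)⟩

theorem van_of_del_lk {Δ : Finset α → Prop} (hΔ : IsDown Δ) (v : α) {j : ℕ}
    (hd : Van (del Δ v) j) (hl : ∀ i, i + 1 = j → Van (lk Δ v) i) : Van Δ j := by
  intro f hf
  obtain ⟨g1, hg1⟩ := hd f (fun σ hσ hc => hf σ hσ.2 hc)
  rcases Nat.eq_zero_or_pos j with hj | hj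
  · refine ⟨g1, fun σ hσ hc => hg1 σ ⟨?_, hσ⟩ hc⟩
    rw [hj, Finset.card_eq_zero] at hc
    rw [hc]; exact Finset.notMem_empty v
  obtain ⟨i, rfl⟩ : ∃ i, j = i + 1 := ⟨j - 1, by omega⟩
  let g1' : Finset α → ZMod 2 := fun σ => if v ∈ σ then 0 else g1 σ
  let f' : Finset α → ZMod 2 := fun σ => f σ + cb g1' σ
  have hf' : ∀ σ, Δ σ → σ.card = i + 1 + 1 → cb f' σ = 0 := by
    intro σ hσ hc
    change cb (fun τ => f τ + cb g1' τ) σ = 0
    rw [cb_add, hf σ hσ hc, cb_cb, add_zero]
  have hf'0 : ∀ σ, del Δ v σ → σ.card = i + 1 → f' σ = 0 := by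
    intro σ hσ hc
    change f σ + cb g1' σ = 0
    have : cb g1' σ = cb g1 σ := by
      apply cb_congr
      intro w hw
      change (if v ∈ σ.erase w then 0 else g1 (σ.erase w)) = _
      rw [if_neg (fun h' => hσ.1 (Finset.mem_of_mem_erase h'))]
    rw [this, hg1 σ hσ hc]
    exact z2_add_self _
  obtain ⟨g2, hg2⟩ := hl i rfl (fun τ => f' (insert v τ)) (by
    intro τ hτ hc
    have h1 := hf' (insert v τ) hτ.2 (by rw [Finset.card_insert_of_notMem hτ.1, hc])
    rw [cb_insert f' hτ.1, hf'0 τ ⟨hτ.1, hΔ (Finset.subset_insert v τ) hτ.2⟩ hc, zero_add] at h1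
    exact h1)
  refine ⟨fun σ => g1' σ + if v ∈ σ then g2 (σ.erase v) else 0, fun σ hσ hc => ?_⟩
  rw [cb_add g1' (fun σ => if v ∈ σ then g2 (σ.erase v) else 0)]
  by_cases hv : v ∈ σ
  · have hlk : lk Δ v (σ.erase v) := ⟨Finset.notMem_erase v σ, by rwa [Finset.insert_erase hv]⟩
    have h2 := hg2 (σ.erase v) hlk (by rw [Finset.card_erase_of_mem hv, hc]; rfl)
    rw [Finset.insert_erase hv] at h2
    change f σ + cb g1' σ = _ at h2
    have h3 : cb (fun σ => if v ∈ σ then g2 (σ.erase v) else 0) σ = cb g2 (σ.erase v) := by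
      unfold cb
      rw [← Finset.add_sum_erase σ _ hv]
      beta_reduce
      rw [if_neg (Finset.notMem_erase v σ), zero_add]
      apply Finset.sum_congr rfl
      intro w hw
      have hne : w ≠ v := Finset.ne_of_mem_erase hw
      rw [if_pos (Finset.mem_erase.2 ⟨hne.symm, hv⟩), Finset.erase_right_comm]
    rw [h3, ← h2]
    rw [add_comm (f σ), ← add_assoc, z2_add_self, zero_add]
  · have h1 := hf'0 σ ⟨hv, hσ⟩ hc
    change f σ + cb g1' σ = 0 at h1
    have h3 : cb (fun σ => if v ∈ σ then g2 (σ.erase v) else 0) σ = 0 := by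
      unfold cb
      apply Finset.sum_eq_zero
      intro w hw
      exact if_neg (fun h' => hv (Finset.mem_of_mem_erase h'))
    rw [h3, add_zero]
    exact z2_eq_of_add h1

theorem van_del {Δ : Finset α → Prop} (hΔ : IsDown Δ) (v : α) {j : ℕ}
    (h : Van Δ j) (hl : Van (lk Δ v) j) : Van (del Δ v) j := by
  intro f hf
  obtain ⟨g, hg⟩ := hl f (fun σ hσ hc => hf σ ⟨hσ.1, hΔ (Finset.subset_insert v σ) hσ.2⟩ hc)
  let F : Finset α → ZMod 2 := fun σ => if v ∈ σ then g (σ.erase v) else f σ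
  have hF : ∀ σ, Δ σ → σ.card = j + 1 → cb F σ = 0 := by
    intro σ hσ hc
    by_cases hv : v ∈ σ
    · have hlk : lk Δ v (σ.erase v) := ⟨Finset.notMem_erase v σ, by rwa [Finset.insert_erase hv]⟩
      have hc' : (σ.erase v).card = j := by rw [Finset.card_erase_of_mem hv, hc]; rfl
      have h2 := hg (σ.erase v) hlk hc'
      have h4 := cb_insert F (Finset.notMem_erase v σ)
      rw [Finset.insert_erase hv] at h4
      rw [h4]
      have h5 : F (σ.erase v) = f (σ.erase v) := if_neg (Finset.notMem_erase v σ)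
      have h6 : ∑ w ∈ σ.erase v, F (insert v ((σ.erase v).erase w)) = cb g (σ.erase v) := by
        unfold cb
        apply Finset.sum_congr rfl
        intro w hw
        have h7 : v ∉ (σ.erase v).erase w :=
          fun h' => Finset.notMem_erase v σ (Finset.mem_of_mem_erase h')
        change (if v ∈ insert v ((σ.erase v).erase w) then
          g ((insert v ((σ.erase v).erase w)).erase v) else _) = _
        rw [if_pos (Finset.mem_insert_self _ _), Finset.erase_insert h7]
      rw [h5, h6, h2]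
      exact z2_add_self _
    · rw [← hf σ ⟨hv, hσ⟩ hc]
      apply cb_congr
      intro w hw
      exact if_neg (fun h' => hv (Finset.mem_of_mem_erase h'))
  obtain ⟨G, hG⟩ := h F hF
  refine ⟨G, fun σ hσ hc => ?_⟩
  rw [← hG σ hσ.2 hc]
  exact (if_neg hσ.1).symm

theorem isDown_del {Δ : Finset α → Prop} (hΔ : IsDown Δ) (v : α) : IsDown (del Δ v) :=
  fun _ _ h h' => ⟨fun hv => h'.1 (h hv), hΔ h h'.2⟩

theorem isDown_lk {Δ : Finset α → Prop} (hΔ : IsDown Δ) (v : α) : IsDown (lk Δ v) :=
  fun _ _ h h' => ⟨fun hv => h'.1 (h hv), hΔ (Finset.insert_subset_insert v h) h'.2⟩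

theorem isDown_fib {Δ : Finset α → Prop} (hΔ : IsDown Δ) (Y B : Finset α) :
    IsDown (fib Δ Y B) :=
  fun _ _ h h' => ⟨Finset.disjoint_of_subset_left h h'.1,
    hΔ (Finset.union_subset_union_right h) h'.2⟩

theorem fib_empty_empty (Δ : Finset α → Prop) (σ : Finset α) : fib Δ ∅ ∅ σ ↔ Δ σ := by
  unfold fib
  simp

theorem fib_del {Δ : Finset α → Prop} {v : α} {Y B : Finset α} (hv : v ∉ Y) (hB : B ⊆ Y)
    (σ : Finset α) : fib (del Δ v) Y B σ ↔ fib Δ (insert v Y) B σ := by
  unfold fib del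
  rw [Finset.disjoint_insert_right, Finset.mem_union]
  have : v ∉ B := fun h => hv (hB h)
  tauto

theorem fib_lk {Δ : Finset α → Prop} {v : α} {Y B : Finset α} (hv : v ∉ Y) (hB : B ⊆ Y)
    (σ : Finset α) : fib (lk Δ v) Y B σ ↔ fib Δ (insert v Y) (insert v B) σ := by
  unfold fib lk
  rw [Finset.disjoint_insert_right, Finset.mem_union, Finset.insert_union]
  have : v ∉ B := fun h => hv (hB h)
  tauto

/-- (F1) -/
theorem van_of_fib {Δ : Finset α → Prop} (hΔ : IsDown Δ) (Y : Finset α) {j : ℕ}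
    (h : ∀ B ⊆ Y, B.card ≤ j → Van (fib Δ Y B) (j - B.card)) : Van Δ j := by
  induction Y using Finset.induction_on generalizing Δ j with
  | empty =>
    have := h ∅ (Finset.Subset.refl _) (by simp)
    rw [Finset.card_empty, Nat.sub_zero] at this
    exact van_congr (fib_empty_empty Δ) this
  | insert v Y hv ih =>
    apply van_of_del_lk hΔ v
    · apply ih (isDown_del hΔ v)
      intro B hB hc
      exact van_congr (fun σ => (fib_del hv hB σ).symm)
        (h B (hB.trans (Finset.subset_insert v Y)) hc)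
    · rintro i rfl
      apply ih (isDown_lk hΔ v)
      intro B hB hc
      have hvB : v ∉ B := fun h => hv (hB h)
      have h1 := h (insert v B) (Finset.insert_subset_insert v hB)
        (by rw [Finset.card_insert_of_notMem hvB]; omega)
      rw [Finset.card_insert_of_notMem hvB, Nat.add_sub_add_right] at h1
      exact van_congr (fun σ => (fib_lk hv hB σ).symm) h1

/-- (F2) -/
theorem van_fib_empty {Δ : Finset α → Prop} (hΔ : IsDown Δ) (Y : Finset α) {j : ℕ}
    (h0 : Van Δ j)
    (h : ∀ B ⊆ Y, B.Nonempty → B.card ≤ j + 1 → Van (fib Δ Y B) (j + 1 - B.card)) :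
    Van (fib Δ Y ∅) j := by
  induction Y using Finset.induction_on generalizing Δ with
  | empty => exact van_congr (fun σ => (fib_empty_empty Δ σ).symm) h0
  | insert v Y hv ih =>
    have hl : Van (lk Δ v) j := by
      apply van_of_fib (isDown_lk hΔ v) Y
      intro B hB hc
      have hvB : v ∉ B := fun h => hv (hB h)
      have h1 := h (insert v B) (Finset.insert_subset_insert v hB) (Finset.insert_nonempty v B)
        (by rw [Finset.card_insert_of_notMem hvB]; omega)
      rw [Finset.card_insert_of_notMem hvB, Nat.add_sub_add_right] at h1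
      exact van_congr (fun σ => (fib_lk hv hB σ).symm) h1
    have h2 := ih (isDown_del hΔ v) (van_del hΔ v h0 hl) (by
      intro B hB hne hc
      exact van_congr (fun σ => (fib_del hv hB σ).symm)
        (h B (hB.trans (Finset.subset_insert v Y)) hne hc))
    exact van_congr (fun σ => fib_del hv (Finset.empty_subset Y) σ) h2

/-- removing a dominated vertex -/
theorem van_iff_del_of_dom {Δ : Finset α → Prop} (hΔ : IsDown Δ) {w w' : α} (hw : w ≠ w')
    (h : ∀ σ, w ∈ σ → Δ σ → Δ (insert w' σ)) (j : ℕ) : Van Δ j ↔ Van (del Δ w) j := by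
  have hl : ∀ i, Van (lk Δ w) i := by
    intro i
    apply van_of_cone w'
    intro σ hσ _
    refine ⟨?_, ?_⟩
    · rw [Finset.mem_insert]
      rintro (h1 | h1)
      · exact hw h1
      · exact hσ.1 h1
    · rw [Finset.insert_comm]
      exact h _ (Finset.mem_insert_self w σ) hσ.2
  exact ⟨fun h1 => van_del hΔ w h1 (hl j), fun h1 => van_of_del_lk hΔ w h1 (fun i _ => hl i)⟩

/-- removing a set `T` of vertices, each dominated by a vertex outside `T` -/
theorem van_iff_fib_of_dom {Δ : Finset α → Prop} (hΔ : IsDown Δ) (T : Finset α)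
    (h : ∀ w ∈ T, ∃ w' ∉ T, ∀ σ, w ∈ σ → Δ σ → Δ (insert w' σ)) (j : ℕ) :
    Van Δ j ↔ Van (fib Δ T ∅) j := by
  induction T using Finset.induction_on generalizing Δ with
  | empty => exact van_iff (fun σ => (fib_empty_empty Δ σ).symm)
  | insert w T hw ih =>
    obtain ⟨w', hw', h1⟩ := h w (Finset.mem_insert_self w T)
    have hne : w ≠ w' := by
      rintro rfl; exact hw' (Finset.mem_insert_self w T)
    rw [van_iff_del_of_dom hΔ hne h1 j, ih (isDown_del hΔ w)]
    · exact van_iff (fun σ => fib_del hw (Finset.empty_subset T) σ)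
    · intro u hu
      obtain ⟨u', hu', h2⟩ := h u (Finset.mem_insert_of_mem hu)
      refine ⟨u', fun h3 => hu' (Finset.mem_insert_of_mem h3), fun σ hσ hd => ⟨?_, h2 σ hσ hd.2⟩⟩
      rw [Finset.mem_insert]
      rintro (h3 | h3)
      · exact hu' (h3 ▸ Finset.mem_insert_self w T)
      · exact hd.1 h3

/-- the boundary of a simplex is not acyclic -/
theorem not_van_boundary {Δ : Finset α → Prop} (R : Finset α) (hR : R.Nonempty)
    (h : ∀ σ, Δ σ ↔ σ ⊂ R) : ¬ Van Δ (R.card - 1) := by
  intro hv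
  obtain ⟨v0, hv0⟩ := hR
  have hcard : 0 < R.card := Finset.card_pos.2 ⟨v0, hv0⟩
  let f : Finset α → ZMod 2 := fun σ => if σ = R.erase v0 then 1 else 0
  obtain ⟨g, hg⟩ := hv f (by
    intro σ hσ hc
    have h1 := Finset.card_lt_card ((h σ).1 hσ)
    omega)
  have h1 : cb f R = 0 := by
    rw [← cb_cb g R]
    apply cb_congr
    intro w hw
    apply hg _ ((h _).2 (Finset.erase_ssubset hw))
    exact Finset.card_erase_of_mem hw
  have h2 : cb f R = 1 := by
    unfold cb
    rw [Finset.sum_eq_single v0]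
    · exact if_pos rfl
    · intro w hw hne
      apply if_neg
      intro h3
      have h4 : w ∈ R.erase v0 := Finset.mem_erase.2 ⟨hne, hw⟩
      rw [← h3] at h4
      exact Finset.notMem_erase w R h4
    · intro h'; exact absurd hv0 h'
  rw [h1] at h2
  exact zero_ne_one h2

end Pool.Agent.H40.SD
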